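import Pool.Agent.T6.H62.PP.EmbPar
import Pool.Agent.H64R2.DC_MW
import Pool.Agent.H437R2.Man.MWCan

/-!
# Module EMB: Mordell-Weil and the canonical height for `y² = x³ + b` over `ℚ`
-/

set_option autoImplicit false

namespace Pool.Agent.T6.H62.PP

open Pool.Agent.H925R3.DC (crv)

theorem emb : EMBStm := by
  intro b hb
  have hb' : (b : ℚ) ≠ 0 := by exact_mod_cast hb
  have hfg : AddGroup.FG (crv ℚ (0 : ℚ) (b : ℚ)).Point := by
    have h := Pool.Agent.H64R2.DCMW.mw 0 b (by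
      have : (27 : ℤ) * b ^ 2 ≠ 0 := mul_ne_zero (by norm_num) (pow_ne_zero _ hb)
      simpa using this)
    exact Pool.Agent.H64R2.DCMW.fg_of_eq (by simp) h
  obtain ⟨C, hC0, hC⟩ := EmbPar.par_law hb'
  obtain ⟨q, C', h1, h2, h3⟩ := Pool.Agent.H437R2.Man.MW.canon
    (fun P : (crv ℚ (0 : ℚ) (b : ℚ)).Point => Height.logHeight P.xRep) C
    (fun P => Height.logHeight_nonneg _) hC
  obtain ⟨n, ψ, hψ⟩ := Pool.Agent.H437R2.Man.MW.embed hfg q h2 h3
  refine ⟨n, ψ, C', fun P => ?_⟩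
  rw [hψ]
  exact h1 P

end Pool.Agent.T6.H62.PP
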