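import Pool.Agent.T6.H62.PP.GFin0
import Pool.Agent.H437R2.Man.Mord

set_option autoImplicit false

namespace Pool.Agent.T6.H62.PP

/-- Module G: finiteness from Mordell's conjecture for `y ^ 2 = x ^ 6 + 1`. -/
theorem gfin : GStm := gfin0 fun L _ _ => Pool.Agent.H437R2.Man.mordell L

end Pool.Agent.T6.H62.PP
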