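import Pool.Agent.T6.H62.PP.Defs

/-! Module KER: the kernel of reduction of level `e` is a group (helper32). -/

set_option autoImplicit false

namespace Pool.Agent.T6.H62.PP

open Pool.Agent.H925R3.DC (crv)

namespace KERx

variable {p : ℕ} [hp : Fact p.Prime]

lemma npow (x : ℚ) (n : ℕ) : padicNorm p (x ^ n) = padicNorm p x ^ n := by
  induction n with
  | zero => simp
  | succ n ih => rw [pow_succ, padicNorm.mul, ih, pow_succ]

lemma val_iff {x : ℚ} {e : ℕ} (he : 1 ≤ e) :
    padicValRat p x ≤ -2 * (e : ℤ) ↔ (p : ℚ) ^ (2 * e) ≤ padicNorm p x := by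
  have hp1 : (1 : ℚ) < p := by exact_mod_cast hp.out.one_lt
  by_cases hx : x = 0
  · subst hx
    rw [padicValRat.zero, padicNorm.zero]
    constructor
    · intro h
      omega
    · intro h
      have : (0 : ℚ) < (p : ℚ) ^ (2 * e) := by positivity
      linarith
  · rw [padicNorm.eq_zpow_of_nonzero hx, ← zpow_natCast, zpow_le_zpow_iff_right₀ hp1]
    push_cast
    constructor <;> intro h <;> linarith

lemma norm_curve {x y b : ℚ} (hb : padicNorm p b ≤ 1) (hx : 1 < padicNorm p x)
    (h : y ^ 2 = x ^ 3 + b) : padicNorm p y ^ 2 = padicNorm p x ^ 3 := by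
  have h3 : 1 < padicNorm p (x ^ 3) := by
    rw [npow]
    exact one_lt_pow₀ hx (by norm_num)
  have h4 : padicNorm p (x ^ 3 + b) = max (padicNorm p (x ^ 3)) (padicNorm p b) :=
    padicNorm.add_eq_max_of_ne (by linarith)
  rw [max_eq_left (by linarith)] at h4
  rw [← npow, ← npow, h, h4]

lemma norm_diff {x1 x2 r r' b : ℚ} (hx : x1 ≠ x2) (h1 : 1 < padicNorm p x1)
    (h2 : 1 < padicNorm p x2) (hb : padicNorm p b ≤ 1)
    (hs : (r + r') * (x1 - x2) ^ 2 = 2 * ((x1 + x2) * x1 * x2 + 2 * b))
    (hm : r * r' * (x1 - x2) ^ 2 = (x1 * x2) ^ 2 - 4 * b * (x1 + x2)) :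
    min (padicNorm p x1) (padicNorm p x2) ≤ padicNorm p r := by
  set a := padicNorm p x1 with ha
  set c := padicNorm p x2 with hc
  set D := padicNorm p (x1 - x2) with hD
  have hD0 : 0 < D := lt_of_le_of_ne (padicNorm.nonneg _)
    (fun h => hx (sub_eq_zero.mp (padicNorm.zero_of_padicNorm_eq_zero h.symm)))
  have hDM : D ≤ max a c := padicNorm.sub
  have hSM : padicNorm p (x1 + x2) ≤ max a c := padicNorm.nonarchimedean
  have hac : min a c * max a c = a * c := min_mul_max a c
  have hmin : 1 < min a c := lt_min h1 h2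
  have hmax : 1 < max a c := lt_max_of_lt_left h1
  have n2 : padicNorm p 2 ≤ 1 := by
    have := padicNorm.of_int (p := p) 2
    simpa using this
  have n4 : padicNorm p 4 ≤ 1 := by
    have := padicNorm.of_int (p := p) 4
    simpa using this
  have p2 := padicNorm.nonneg (p := p) (2 : ℚ)
  have p4 := padicNorm.nonneg (p := p) (4 : ℚ)
  have pb := padicNorm.nonneg (p := p) b
  have pS := padicNorm.nonneg (p := p) (x1 + x2)
  -- the product
  have e1 : padicNorm p r * padicNorm p r' * D ^ 2 = (a * c) ^ 2 := by
    have h3 : padicNorm p ((x1 * x2) ^ 2) = (a * c) ^ 2 := by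
      rw [npow, padicNorm.mul]
    have h4 : padicNorm p (4 * b * (x1 + x2)) ≤ max a c := by
      rw [padicNorm.mul, padicNorm.mul]
      have : padicNorm p 4 * padicNorm p b ≤ 1 := mul_le_one₀ n4 pb hb
      calc padicNorm p 4 * padicNorm p b * padicNorm p (x1 + x2) ≤ 1 * padicNorm p (x1 + x2) :=
            mul_le_mul_of_nonneg_right this pS
        _ ≤ max a c := by rw [one_mul]; exact hSM
    have h5 : max a c < (a * c) ^ 2 := by
      rw [← hac]
      have g1 : 1 < min a c * max a c := by nlinarith
      have g2 : max a c < min a c * max a c := by nlinarith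
      nlinarith
    have h6 : padicNorm p ((x1 * x2) ^ 2 - 4 * b * (x1 + x2)) = (a * c) ^ 2 := by
      rw [sub_eq_add_neg, padicNorm.add_eq_max_of_ne, h3, padicNorm.neg, max_eq_left (by linarith)]
      rw [h3, padicNorm.neg]
      linarith
    rw [← h6, ← hm, padicNorm.mul, padicNorm.mul, npow]
  -- the sum
  have e2 : padicNorm p (r + r') * D ^ 2 ≤ max a c * (a * c) := by
    have h3 : padicNorm p (2 * ((x1 + x2) * x1 * x2 + 2 * b)) ≤ max a c * (a * c) := by
      rw [padicNorm.mul]
      have h4 : padicNorm p ((x1 + x2) * x1 * x2 + 2 * b) ≤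
          max (padicNorm p ((x1 + x2) * x1 * x2)) (padicNorm p (2 * b)) :=
        padicNorm.nonarchimedean
      have h5 : padicNorm p ((x1 + x2) * x1 * x2) ≤ max a c * (a * c) := by
        rw [padicNorm.mul, padicNorm.mul, mul_assoc]
        exact mul_le_mul_of_nonneg_right hSM (by positivity)
      have h6 : padicNorm p (2 * b) ≤ max a c * (a * c) := by
        rw [padicNorm.mul]
        have h7 : padicNorm p 2 * padicNorm p b ≤ 1 := mul_le_one₀ n2 pb hb
        have h8 : 1 ≤ a * c := by
          rw [← hac]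
          nlinarith
        nlinarith
      have h9 := h4.trans (max_le h5 h6)
      have h10 := padicNorm.nonneg (p := p) ((x1 + x2) * x1 * x2 + 2 * b)
      calc padicNorm p 2 * padicNorm p ((x1 + x2) * x1 * x2 + 2 * b)
          ≤ 1 * padicNorm p ((x1 + x2) * x1 * x2 + 2 * b) := mul_le_mul_of_nonneg_right n2 h10
        _ ≤ max a c * (a * c) := by rw [one_mul]; exact h9
    rw [← npow, ← padicNorm.mul, hs]
    exact h3
  by_contra hcon
  rw [not_le] at hcon
  have pr := padicNorm.nonneg (p := p) r
  have pr' := padicNorm.nonneg (p := p) r'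
  rw [← hac] at e1 e2
  set R := padicNorm p r
  set R' := padicNorm p r'
  set μ := min a c
  set M := max a c
  have hμ0 : 0 < μ := by linarith
  have hM0 : 0 < M := by linarith
  by_cases hRR : R = R'
  · rw [← hRR] at e1
    have h3 : R * D < μ * M := by
      calc R * D ≤ R * M := mul_le_mul_of_nonneg_left hDM pr
        _ < μ * M := mul_lt_mul_of_pos_right hcon hM0
    have h4 : (R * D) ^ 2 < (μ * M) ^ 2 := by
      have : 0 ≤ R * D := by positivity
      nlinarith
    have h5 : R * R * D ^ 2 = (R * D) ^ 2 := by ring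
    rw [h5] at e1
    linarith
  · have h3 : padicNorm p (r + r') = max R R' := padicNorm.add_eq_max_of_ne hRR
    have h4 : R' ≤ padicNorm p (r + r') := by
      rw [h3]
      exact le_max_right _ _
    have hD2 : 0 < D ^ 2 := by positivity
    have h5 : R' * D ^ 2 ≤ M * (μ * M) := (mul_le_mul_of_nonneg_right h4 hD2.le).trans e2
    have h6 : R * (R' * D ^ 2) ≤ R * (M * (μ * M)) := mul_le_mul_of_nonneg_left h5 pr
    have h7 : 0 < M * (μ * M) := by positivity
    have h8 : R * (M * (μ * M)) < μ * (M * (μ * M)) := mul_lt_mul_of_pos_right hcon h7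
    have h9 : R * R' * D ^ 2 = R * (R' * D ^ 2) := by ring
    have h10 : (μ * M) ^ 2 = μ * (M * (μ * M)) := by ring
    rw [h9, h10] at e1
    linarith

lemma norm_dbl {x y r b : ℚ} (h1 : 1 < padicNorm p x) (hb : padicNorm p b ≤ 1)
    (h : y ^ 2 = x ^ 3 + b) (hr : r * (4 * y ^ 2) = x ^ 4 - 8 * b * x) :
    padicNorm p x ≤ padicNorm p r := by
  have n4 : padicNorm p 4 ≤ 1 := by
    have := padicNorm.of_int (p := p) 4
    simpa using this
  have n8 : padicNorm p 8 ≤ 1 := by
    have := padicNorm.of_int (p := p) 8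
    simpa using this
  have p4 := padicNorm.nonneg (p := p) (4 : ℚ)
  have p8 := padicNorm.nonneg (p := p) (8 : ℚ)
  have pb := padicNorm.nonneg (p := p) b
  have pr := padicNorm.nonneg (p := p) r
  have hy := norm_curve hb h1 h
  have h2 : padicNorm p (8 * b * x) ≤ padicNorm p x := by
    rw [padicNorm.mul, padicNorm.mul]
    have : padicNorm p 8 * padicNorm p b ≤ 1 := mul_le_one₀ n8 pb hb
    nlinarith
  have h3 : padicNorm p x < padicNorm p x ^ 4 := by
    have : padicNorm p x ^ 1 < padicNorm p x ^ 4 := pow_lt_pow_right₀ h1 (by norm_num)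
    simpa using this
  have h4 : padicNorm p (x ^ 4 - 8 * b * x) = padicNorm p x ^ 4 := by
    rw [sub_eq_add_neg, padicNorm.add_eq_max_of_ne, padicNorm.neg, npow,
      max_eq_left (by linarith)]
    rw [padicNorm.neg, npow]
    linarith
  have h5 : padicNorm p r * (padicNorm p 4 * padicNorm p x ^ 3) = padicNorm p x ^ 4 := by
    rw [← h4, ← hr, padicNorm.mul, padicNorm.mul, npow y 2, hy]
  have h6 : 0 < padicNorm p x ^ 3 := by positivity
  have h7 : padicNorm p r * padicNorm p 4 = padicNorm p x := by
    have : (padicNorm p r * padicNorm p 4) * padicNorm p x ^ 3 =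
        padicNorm p x * padicNorm p x ^ 3 := by
      rw [mul_assoc, h5]
      ring
    exact mul_right_cancel₀ h6.ne' this
  rw [← h7]
  nlinarith

end KERx

open KERx

theorem ker : KERStm := by
  intro b hb0 p e hp _ he P Q hP hQ
  have : Fact p.Prime := ⟨hp⟩
  have hb : padicNorm p (b : ℚ) ≤ 1 := padicNorm.of_int b
  have hp1 : (1 : ℚ) < p := by exact_mod_cast hp.one_lt
  have hpe : (1 : ℚ) < (p : ℚ) ^ (2 * e) := one_lt_pow₀ hp1 (by omega)
  -- membership of a finite point
  have key : ∀ (x y : ℚ) (h : (crv ℚ (0 : ℚ) (b : ℚ)).Nonsingular x y),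
      (p : ℚ) ^ (2 * e) ≤ padicNorm p x → Ker b p e (.some x y h) := fun x y h hx =>
    Or.inr ⟨x, y, h, rfl, (val_iff he).mpr hx⟩
  have heq : ∀ (x y : ℚ), (crv ℚ (0 : ℚ) (b : ℚ)).Nonsingular x y → y ^ 2 = x ^ 3 + b := by
    intro x y h
    have h1 := (WeierstrassCurve.Affine.equation_iff _ _).mp h.1
    simp only [crv] at h1
    linarith
  rcases hP with rfl | ⟨x1, y1, h1, rfl, v1⟩
  · rcases hQ with rfl | ⟨x2, y2, h2, rfl, v2⟩
    · left
      simp
    · rw [zero_sub, WeierstrassCurve.Affine.Point.neg_some]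
      exact key _ _ _ ((val_iff he).mp v2)
  · rcases hQ with rfl | ⟨x2, y2, h2, rfl, v2⟩
    · rw [sub_zero]
      exact key _ _ _ ((val_iff he).mp v1)
    · have n1 := (val_iff he).mp v1
      have n2 := (val_iff he).mp v2
      have q1 := heq _ _ h1
      have q2 := heq _ _ h2
      by_cases hx : x1 = x2
      · subst hx
        have hyy : (y1 - y2) * (y1 + y2) = 0 := by
          have : y1 ^ 2 = y2 ^ 2 := by rw [q1, q2]
          linear_combination this
        rcases mul_eq_zero.mp hyy with hy | hy
        · have hy' : y1 = y2 := by linarith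
          subst hy'
          left
          simp
        · have hy' : y2 = -y1 := by linarith
          subst hy'
          -- `P - Q = 2 P`
          have hy0 : y1 ≠ 0 := by
            rintro rfl
            have h3 := norm_curve hb (hpe.trans_le n1) q1
            rw [padicNorm.zero] at h3
            have h4 : 0 < padicNorm p x1 ^ 3 := by
              have : 0 < padicNorm p x1 := by linarith [hpe.trans_le n1]
              positivity
            norm_num at h3
            rw [← h3] at h4
            exact lt_irrefl _ h4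
          have hneg : -(WeierstrassCurve.Affine.Point.some x1 (-y1) h2) =
              WeierstrassCurve.Affine.Point.some x1 y1 h1 := by
            rw [WeierstrassCurve.Affine.Point.neg_some]
            congr 1
            simp [WeierstrassCurve.Affine.negY, crv]
          rw [sub_eq_add_neg, hneg]
          have hne : y1 ≠ (crv ℚ (0 : ℚ) (b : ℚ)).negY x1 y1 := by
            simp only [WeierstrassCurve.Affine.negY, crv]
            intro h3
            apply hy0
            linarith
          rw [WeierstrassCurve.Affine.Point.add_self_of_Y_ne hne]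
          apply key
          refine n1.trans (norm_dbl (y := y1) (hpe.trans_le n1) hb q1 ?_)
          rw [WeierstrassCurve.Affine.slope_of_Y_ne rfl hne]
          simp only [WeierstrassCurve.Affine.addX, WeierstrassCurve.Affine.negY, crv]
          have q1' : (b : ℚ) = y1 ^ 2 - x1 ^ 3 := by linarith
          have e1 : (3 * x1 ^ 2 + 2 * 0 * x1 + 0 - 0 * y1) / (y1 - (-y1 - 0 * x1 - 0)) =
              3 * x1 ^ 2 / (2 * y1) := by
            congr 1 <;> ring
          rw [e1, q1']
          field_simp
          ring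
      · have hneg : -(WeierstrassCurve.Affine.Point.some x2 y2 h2) =
            WeierstrassCurve.Affine.Point.some x2 (-y2) (by
              have := (WeierstrassCurve.Affine.nonsingular_neg (W' := crv ℚ (0 : ℚ) (b : ℚ))
                x2 y2).mpr h2
              simpa [WeierstrassCurve.Affine.negY, crv] using this) := by
          rw [WeierstrassCurve.Affine.Point.neg_some]
          congr 1
          simp [WeierstrassCurve.Affine.negY, crv]
        rw [sub_eq_add_neg, hneg, WeierstrassCurve.Affine.Point.add_of_X_ne hx]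
        apply key
        refine (le_min n1 n2).trans (norm_diff (r' := ((y1 - y2) / (x1 - x2)) ^ 2 - x1 - x2) hx
          (hpe.trans_le n1) (hpe.trans_le n2) hb ?_ ?_)
        · rw [WeierstrassCurve.Affine.slope_of_X_ne hx]
          simp only [WeierstrassCurve.Affine.addX, crv]
          have hx' : x1 - x2 ≠ 0 := sub_ne_zero.mpr hx
          field_simp
          linear_combination 2 * q1 + 2 * q2
        · rw [WeierstrassCurve.Affine.slope_of_X_ne hx]
          simp only [WeierstrassCurve.Affine.addX, crv]
          have hx' : x1 - x2 ≠ 0 := sub_ne_zero.mpr hx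
          refine mul_right_cancel₀ (pow_ne_zero 2 hx') ?_
          have hl : (y1 - -y2) / (x1 - x2) * (x1 - x2) = y1 + y2 := by
            rw [div_mul_cancel₀ _ hx', sub_neg_eq_add]
          have hl' : (y1 - y2) / (x1 - x2) * (x1 - x2) = y1 - y2 := div_mul_cancel₀ _ hx'
          generalize (y1 - -y2) / (x1 - x2) = l at hl ⊢
          generalize (y1 - y2) / (x1 - x2) = l' at hl' ⊢
          calc _ = ((l * (x1 - x2)) ^ 2 - (x1 + x2) * (x1 - x2) ^ 2) *
                ((l' * (x1 - x2)) ^ 2 - (x1 + x2) * (x1 - x2) ^ 2) := by ring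
            _ = ((y1 + y2) ^ 2 - (x1 + x2) * (x1 - x2) ^ 2) *
                ((y1 - y2) ^ 2 - (x1 + x2) * (x1 - x2) ^ 2) := by rw [hl, hl']
            _ = _ := by
              linear_combination ((y1 ^ 2 - y2 ^ 2 + x1 ^ 3 - x2 ^ 3) -
                2 * (x1 + x2) * (x1 - x2) ^ 2) * q1 + (-(y1 ^ 2 - y2 ^ 2 + x1 ^ 3 - x2 ^ 3) -
                2 * (x1 + x2) * (x1 - x2) ^ 2) * q2

end Pool.Agent.T6.H62.PP
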