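import Mathlib
import Pool.Agent.H925R3.DC.Defs

/-!
# Uniform boundedness of the rational preperiodic points of `x ^ d + c`: statements of the modules

Here `d` is even and `3 ∣ d - 1`.  All statements are unconditional; `FINStm` and `FIN'Stm` follow
from `SELStm`, `GStm`.
-/

set_option autoImplicit false

namespace Pool.Agent.T6.H62.PP

open IsDedekindDomain NumberField

/-- SEL: elements of `K` whose orders outside a finite set are multiples of three are cubes up to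
finitely many factors. -/
def SELStm : Prop := ∀ (K : Type) [Field K] [NumberField K] (S : Set (HeightOneSpectrum (𝓞 K))),
  S.Finite → ∃ T : Finset K, (∀ t ∈ T, t ≠ 0) ∧ ∀ a : Kˣ,
    (∀ v : HeightOneSpectrum (𝓞 K), v ∉ S →
      (3 : ℤ) ∣ Multiplicative.toAdd (v.valuationOfNeZero a)) →
    ∃ t ∈ T, ∃ b : K, b ≠ 0 ∧ (a : K) = t * b ^ 3

/-- G: finiteness from Mordell's conjecture for `y ^ 2 = x ^ 6 + 1`
(`Pool.Agent.H437R2.Man.mordell`). -/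
def GStm : Prop := ∀ (K : Type) [Field K] [NumberField K] (T : Finset K), (∀ t ∈ T, t ≠ 0) →
  ∀ a : K, a ≠ 0 → a ^ 2 ≠ 1 →
    {t : K | t ^ 2 ≠ 1 ∧ ∃ δ ∈ T, ∃ s : K, s ≠ 0 ∧
      t ^ 2 - (a + a⁻¹) * t + 1 = δ * s ^ 3 * (t ^ 2 - 1)}.Finite

/-- `(X ^ d - U ^ d) / (X - U)` -/
def Psi (d : ℕ) (X U : ℤ) : ℤ := ∑ i ∈ Finset.range d, X ^ i * U ^ (d - 1 - i)

/-- The condition on pairs which are not both periodic. -/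
def F3 (d : ℕ) (X U : ℤ) : Prop := U ≠ 0 ∧ X ^ d ≠ U ^ d ∧ ∀ q : ℕ, q.Prime → ¬ q ∣ d →
  ¬ ((q : ℤ) ∣ X ∧ (q : ℤ) ∣ U) ∧ 3 ∣ padicValInt q (X ^ d - U ^ d)

/-- The condition on pairs of periodic points. -/
def F3' (d : ℕ) (X U : ℤ) : Prop := U ≠ 0 ∧ X ^ d ≠ U ^ d ∧ ∀ q : ℕ, q.Prime → ¬ q ∣ d →
  ¬ ((q : ℤ) ∣ X ∧ (q : ℤ) ∣ U) ∧ 3 ∣ padicValInt q (Psi d X U)

/-- FIN -/
def FINStm : Prop := ∀ d : ℕ, Even d → 4 ≤ d →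
  {t : ℚ | ∃ X U : ℤ, F3 d X U ∧ t = (X : ℚ) / (U : ℚ)}.Finite

/-- FIN' -/
def FIN'Stm : Prop := ∀ d : ℕ, Even d → 6 ≤ d →
  {t : ℚ | ∃ X U : ℤ, F3' d X U ∧ t = (X : ℚ) / (U : ℚ)}.Finite

/-- TAIL: fixed points with a second preimage of its negative -/
def TAILStm : Prop := ∀ d : ℕ, Even d → 4 ≤ d → 3 ∣ d - 1 →
  {c : ℚ | ∃ z x : ℚ, z ≠ 0 ∧ z ^ d + c = z ∧ x ^ d + c = -z}.Finite

open Pool.Agent.H925R3.DC (crv)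

/-- EMB: Mordell-Weil and canonical height for `y² = x³ + b` over `ℚ` -/
def EMBStm : Prop := ∀ b : ℤ, b ≠ 0 → ∃ (n : ℕ)
  (ψ : (crv ℚ (0 : ℚ) (b : ℚ)).Point →+ EuclideanSpace ℝ (Fin n)) (C : ℝ),
    ∀ P : (crv ℚ (0 : ℚ) (b : ℚ)).Point, |‖ψ P‖ ^ 2 - Height.logHeight P.xRep| ≤ C

/-- the points of level `e` of the kernel of reduction at `p` -/
def Ker (b : ℤ) (p e : ℕ) (P : (crv ℚ (0 : ℚ) (b : ℚ)).Point) : Prop :=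
  P = 0 ∨ ∃ (x y : ℚ) (h : (crv ℚ (0 : ℚ) (b : ℚ)).Nonsingular x y),
    P = .some x y h ∧ padicValRat p x ≤ -2 * (e : ℤ)

/-- KER: these points form a group -/
def KERStm : Prop := ∀ (b : ℤ), b ≠ 0 → ∀ (p e : ℕ), p.Prime → p ≠ 2 → 1 ≤ e →
  ∀ P Q : (crv ℚ (0 : ℚ) (b : ℚ)).Point, Ker b p e P → Ker b p e Q → Ker b p e (P - Q)

/-- PT: the point of `y² = x³ + 108 δ²` attached to a pair with `(u + w) (u² + w²) = δ N³`,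
and its double. -/
def PTStm : Prop := ∀ (δ u w N : ℤ), δ ≠ 0 → N ≠ 0 → (u + w) * (u ^ 2 + w ^ 2) = δ * N ^ 3 →
  ∃ h : (crv ℚ (0 : ℚ) ((108 * δ ^ 2 : ℤ) : ℚ)).Nonsingular
      (-2 * ((u : ℚ) ^ 2 + 4 * u * w + w ^ 2) / N ^ 2)
      (2 * ((u : ℚ) - w) * (5 * u ^ 2 + 8 * u * w + 5 * w ^ 2) / N ^ 3),
    ∀ (p e : ℕ), p.Prime → p ≠ 2 → 1 ≤ e → ¬ (p : ℤ) ∣ u → ¬ (p : ℤ) ∣ w → ¬ (p : ℤ) ∣ δ →
      ((p : ℤ) ^ e ∣ N ∨ (p : ℤ) ^ (3 * e) ∣ u - w) →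
      Ker (108 * δ ^ 2) p e ((2 : ℕ) • (.some _ _ h : (crv ℚ (0 : ℚ) ((108 * δ ^ 2 : ℤ) : ℚ)).Point))

end Pool.Agent.T6.H62.PP
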