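import Mathlib
import Pool.Agent.T6.H62.PP.Defs

/-! The module PT: the point attached to a pair and its double. -/

set_option autoImplicit false

namespace Pool.Agent.T6.H62.PP

open Pool.Agent.H925R3.DC (crv)

namespace PTAux

lemma nonsing {b x y : ℚ} (hb : b ≠ 0) (hE : y ^ 2 = x ^ 3 + b) :
    (crv ℚ (0 : ℚ) b).Nonsingular x y := by
  rw [WeierstrassCurve.Affine.nonsingular_iff', WeierstrassCurve.Affine.equation_iff]
  simp only [crv]
  refine ⟨by linarith, ?_⟩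
  by_contra hcon
  push Not at hcon
  obtain ⟨h1, h2⟩ := hcon
  have hx : x = 0 := by
    have : x ^ 2 = 0 := by linarith
    exact pow_eq_zero_iff (two_ne_zero) |>.mp this
  have hy : y = 0 := by linarith
  rw [hx, hy] at hE
  apply hb
  linarith

lemma dbl {b x y : ℚ} (h : (crv ℚ (0 : ℚ) b).Nonsingular x y) (hE : y ^ 2 = x ^ 3 + b)
    (hy : y ≠ 0) :
    ∃ (y' : ℚ) (h' : (crv ℚ (0 : ℚ) b).Nonsingular (x * (x ^ 3 - 8 * b) / (4 * y ^ 2)) y'),
      (2 : ℕ) • (.some x y h : (crv ℚ (0 : ℚ) b).Point) = .some _ _ h' := by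
  have hne : y ≠ (crv ℚ (0 : ℚ) b).negY x y := by
    simp only [WeierstrassCurve.Affine.negY, crv]
    intro h0
    apply hy
    linarith
  have hx2 : (crv ℚ (0 : ℚ) b).addX x x ((crv ℚ (0 : ℚ) b).slope x x y y) =
      x * (x ^ 3 - 8 * b) / (4 * y ^ 2) := by
    rw [WeierstrassCurve.Affine.slope_of_Y_ne rfl hne]
    simp only [WeierstrassCurve.Affine.addX, WeierstrassCurve.Affine.negY, crv]
    have h2 : y - (-y - 0 * x - 0) = 2 * y := by ring
    rw [h2]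
    field_simp
    have hb : b = y ^ 2 - x ^ 3 := by linarith
    rw [hb]
    ring
  rw [two_nsmul, WeierstrassCurve.Affine.Point.add_self_of_Y_ne hne]
  have hh := WeierstrassCurve.Affine.nonsingular_add h h (fun hxy => hne hxy.right)
  rw [← hx2]
  exact ⟨_, _, rfl⟩

lemma key {p : ℕ} (hp : p.Prime) {M D : ℤ} (k m : ℕ) (hM : ¬ (p : ℤ) ^ (k + 1) ∣ M) (hD0 : D ≠ 0)
    (hD : (p : ℤ) ^ m ∣ D) : padicValRat p ((M : ℚ) / (D : ℚ) ^ 2) ≤ (k : ℤ) - 2 * m := by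
  haveI := Fact.mk hp
  have hM0 : M ≠ 0 := by
    rintro rfl
    exact hM (dvd_zero _)
  have hMQ : (M : ℚ) ≠ 0 := by exact_mod_cast hM0
  have hDQ : (D : ℚ) ≠ 0 := by exact_mod_cast hD0
  rw [padicValRat.div hMQ (pow_ne_zero _ hDQ), padicValRat.pow, padicValRat.of_int,
    padicValRat.of_int]
  have h1 : padicValInt p M ≤ k := by
    by_contra hcon
    push Not at hcon
    apply hM
    rw [padicValInt_dvd_iff]
    right
    omega
  have h2 : m ≤ padicValInt p D := by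
    rw [padicValInt_dvd_iff] at hD
    rcases hD with h | h
    · exact absurd h hD0
    · exact h
  push_cast
  have h1' : (padicValInt p M : ℤ) ≤ k := by exact_mod_cast h1
  have h2' : (m : ℤ) ≤ padicValInt p D := by exact_mod_cast h2
  linarith

/-- the two valuations we need -/
lemma arith {p : ℕ} (hp : p.Prime) (hp2 : p ≠ 2) {e : ℕ} (he : 1 ≤ e) {δ u w N : ℤ}
    (hδ : δ * N ^ 3 = (u + w) * (u ^ 2 + w ^ 2))
    (hu : ¬ (p : ℤ) ∣ u) (hw : ¬ (p : ℤ) ∣ w)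
    (hN0 : N ≠ 0) (huw : u - w ≠ 0) (hB0 : 5 * u ^ 2 + 8 * u * w + 5 * w ^ 2 ≠ 0)
    (hor : (p : ℤ) ^ e ∣ N ∨ (p : ℤ) ^ (3 * e) ∣ u - w) :
    padicValRat p ((((u ^ 2 + 4 * u * w + w ^ 2) *
      ((u ^ 2 + 4 * u * w + w ^ 2) ^ 3 + 108 * ((u + w) * (u ^ 2 + w ^ 2)) ^ 2) : ℤ) : ℚ) /
      ((N * ((u - w) * (5 * u ^ 2 + 8 * u * w + 5 * w ^ 2)) : ℤ) : ℚ) ^ 2) ≤ -2 * (e : ℤ) := by
  have hD0 : N * ((u - w) * (5 * u ^ 2 + 8 * u * w + 5 * w ^ 2)) ≠ 0 :=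
    mul_ne_zero hN0 (mul_ne_zero huw hB0)
  have hpp : Prime (p : ℤ) := Nat.prime_iff_prime_int.mp hp
  have h2 : ¬ (p : ℤ) ∣ 2 := by
    intro h
    have h' : p ∣ 2 := by exact_mod_cast h
    exact hp2 ((Nat.prime_dvd_prime_iff_eq hp Nat.prime_two).mp h')
  rcases hor with h | h
  · -- the denominator
    have hpN : (p : ℤ) ∣ N := (dvd_pow_self (p : ℤ) (by omega)).trans h
    have hprod : (p : ℤ) ∣ (u + w) * (u ^ 2 + w ^ 2) := by
      rw [← hδ]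
      exact Dvd.dvd.mul_left (dvd_pow hpN (by norm_num)) δ
    have hA : ¬ (p : ℤ) ∣ u ^ 2 + 4 * u * w + w ^ 2 := by
      intro hA
      rcases hpp.dvd_or_dvd hprod with h1 | h1
      · have h3 : (p : ℤ) ∣ 2 * w ^ 2 := by
          have : 2 * w ^ 2 = (u + w) * (u + 3 * w) - (u ^ 2 + 4 * u * w + w ^ 2) := by ring
          rw [this]
          exact dvd_sub (h1.mul_right _) hA
        rcases hpp.dvd_or_dvd h3 with h4 | h4
        · exact h2 h4
        · exact hw (hpp.dvd_of_dvd_pow h4)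
      · have h3 : (p : ℤ) ∣ 2 * (2 * (u * w)) := by
          have : 2 * (2 * (u * w)) = (u ^ 2 + 4 * u * w + w ^ 2) - (u ^ 2 + w ^ 2) := by ring
          rw [this]
          exact dvd_sub hA h1
        rcases hpp.dvd_or_dvd h3 with h4 | h4
        · exact h2 h4
        rcases hpp.dvd_or_dvd h4 with h4 | h4
        · exact h2 h4
        rcases hpp.dvd_or_dvd h4 with h4 | h4
        · exact hu h4
        · exact hw h4
    have hC : ¬ (p : ℤ) ∣ (u ^ 2 + 4 * u * w + w ^ 2) ^ 3 +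
        108 * ((u + w) * (u ^ 2 + w ^ 2)) ^ 2 := by
      intro hC
      have h3 : (p : ℤ) ∣ 108 * ((u + w) * (u ^ 2 + w ^ 2)) ^ 2 :=
        Dvd.dvd.mul_left (dvd_pow hprod (by norm_num)) _
      have h4 : (p : ℤ) ∣ (u ^ 2 + 4 * u * w + w ^ 2) ^ 3 := (Int.dvd_add_left h3).mp hC
      exact hA (hpp.dvd_of_dvd_pow h4)
    have hM : ¬ (p : ℤ) ^ (0 + 1) ∣ (u ^ 2 + 4 * u * w + w ^ 2) *
      ((u ^ 2 + 4 * u * w + w ^ 2) ^ 3 + 108 * ((u + w) * (u ^ 2 + w ^ 2)) ^ 2) := by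
      rw [zero_add, pow_one]
      intro h0
      rcases hpp.dvd_or_dvd h0 with h1 | h1
      · exact hA h1
      · exact hC h1
    have := key hp 0 e hM hD0 (h.mul_right _)
    push_cast at this ⊢
    linarith
  · have hp1 : (p : ℤ) ∣ u - w := (dvd_pow_self (p : ℤ) (by omega)).trans h
    by_cases hp3 : p = 3
    · subst hp3
      obtain ⟨t, ht⟩ : ((3 : ℕ) : ℤ) ^ 3 ∣ u - w :=
        (pow_dvd_pow _ (by omega)).trans h
      push_cast at ht
      have hu' : u = w + 27 * t := by linarith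
      have h3w : ¬ (3 : ℤ) ∣ w := by simpa using hw
      have hM : ¬ ((3 : ℕ) : ℤ) ^ (6 + 1) ∣ (u ^ 2 + 4 * u * w + w ^ 2) *
          ((u ^ 2 + 4 * u * w + w ^ 2) ^ 3 + 108 * ((u + w) * (u ^ 2 + w ^ 2)) ^ 2) := by
        obtain ⟨a, ha⟩ : ∃ a : ℤ, u ^ 2 + 4 * u * w + w ^ 2 = 3 * (2 * w ^ 2 + 27 * a) := by
          refine ⟨2 * w * t + 9 * t ^ 2, ?_⟩
          rw [hu']; ring
        obtain ⟨m, hm⟩ : ∃ m : ℤ, (u + w) * (u ^ 2 + w ^ 2) = 4 * w ^ 3 + 27 * m := by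
          refine ⟨6 * w ^ 2 * t + 108 * w * t ^ 2 + 729 * t ^ 3, ?_⟩
          rw [hu']; ring
        rw [ha, hm]
        have h5 : 3 * (2 * w ^ 2 + 27 * a) * ((3 * (2 * w ^ 2 + 27 * a)) ^ 3 +
          108 * (4 * w ^ 3 + 27 * m) ^ 2) = 729 * ((2 * w ^ 2 + 27 * a) * (8 * w ^ 6 + 3 * (
            12 * w ^ 4 * a + 162 * w ^ 2 * a ^ 2 + 729 * a ^ 3
              + 32 * w ^ 3 * m + 108 * m ^ 2))) := by ring
        rw [h5]
        intro h6
        have h7 : (3 : ℤ) ∣ (2 * w ^ 2 + 27 * a) * (8 * w ^ 6 + 3 * (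
            12 * w ^ 4 * a + 162 * w ^ 2 * a ^ 2 + 729 * a ^ 3
              + 32 * w ^ 3 * m + 108 * m ^ 2)) := by
          obtain ⟨c, hc⟩ := h6
          push_cast at hc
          refine ⟨c, ?_⟩
          linarith
        have hp3 : Prime (3 : ℤ) := by simpa using hpp
        rcases hp3.dvd_or_dvd h7 with h8 | h8
        · have h9 : (3 : ℤ) ∣ 2 * w ^ 2 :=
            (Int.dvd_add_left (Dvd.dvd.mul_right (by norm_num) _)).mp h8
          rcases hp3.dvd_or_dvd h9 with h10 | h10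
          · omega
          · exact h3w (hp3.dvd_of_dvd_pow h10)
        · have h9 : (3 : ℤ) ∣ 8 * w ^ 6 :=
            (Int.dvd_add_left (Dvd.dvd.mul_right (by norm_num) _)).mp h8
          rcases hp3.dvd_or_dvd h9 with h10 | h10
          · omega
          · exact h3w (hp3.dvd_of_dvd_pow h10)
      have hD : ((3 : ℕ) : ℤ) ^ (3 * e + 2) ∣
          N * ((u - w) * (5 * u ^ 2 + 8 * u * w + 5 * w ^ 2)) := by
        rw [pow_add]
        refine Dvd.dvd.mul_left (mul_dvd_mul h ?_) _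
        refine ⟨2 * w ^ 2 + 3 * t * (18 * w + 5 * 27 * t), ?_⟩
        rw [hu']; push_cast; ring
      have := key hp 6 (3 * e + 2) hM hD0 hD
      push_cast at this ⊢
      have he' : (1 : ℤ) ≤ e := by exact_mod_cast he
      linarith
    · have h3 : ¬ (p : ℤ) ∣ 3 := by
        intro h
        have h' : p ∣ 3 := by exact_mod_cast h
        exact hp3 ((Nat.prime_dvd_prime_iff_eq hp Nat.prime_three).mp h')
      have hM : ¬ (p : ℤ) ^ (0 + 1) ∣ (u ^ 2 + 4 * u * w + w ^ 2) *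
        ((u ^ 2 + 4 * u * w + w ^ 2) ^ 3 + 108 * ((u + w) * (u ^ 2 + w ^ 2)) ^ 2) := by
        rw [zero_add, pow_one]
        intro h0
        obtain ⟨t, ht⟩ := hp1
        have hu' : u = w + p * t := by linarith
        rw [hu'] at h0
        have h4 : (p : ℤ) ∣ 2 ^ 4 * 3 ^ 6 * w ^ 8 := by
          obtain ⟨a, ha⟩ : ∃ a : ℤ, (w + p * t) ^ 2 + 4 * (w + p * t) * w + w ^ 2 =
              6 * w ^ 2 + p * a := ⟨t * (6 * w + p * t), by ring⟩
          obtain ⟨m, hm⟩ : ∃ m : ℤ, (w + p * t + w) * ((w + p * t) ^ 2 + w ^ 2) =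
              4 * w ^ 3 + p * m := ⟨6 * w ^ 2 * t + 4 * w * p * t ^ 2 + p ^ 2 * t ^ 3, by ring⟩
          rw [ha, hm] at h0
          have hr : (6 * w ^ 2 + p * a) * ((6 * w ^ 2 + p * a) ^ 3 + 108 * (4 * w ^ 3 + p * m) ^ 2) =
              2 ^ 4 * 3 ^ 6 * w ^ 8 + p * (a * (4 * 216 * w ^ 6 + 6 * 36 * w ^ 4 * (p * a)
                + 4 * 6 * w ^ 2 * (p * a) ^ 2 + (p * a) ^ 3) + 108 * (a * 16 * w ^ 6 +
                (6 * w ^ 2 + p * a) * (8 * w ^ 3 * m + p * m ^ 2))) := by ring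
          rw [hr] at h0
          exact (Int.dvd_add_left (Dvd.intro _ rfl)).mp h0
        rcases hpp.dvd_or_dvd h4 with h5 | h5
        · rcases hpp.dvd_or_dvd h5 with h6 | h6
          · exact h2 (hpp.dvd_of_dvd_pow h6)
          · exact h3 (hpp.dvd_of_dvd_pow h6)
        · exact hw (hpp.dvd_of_dvd_pow h5)
      have hD : (p : ℤ) ^ (3 * e) ∣ N * ((u - w) * (5 * u ^ 2 + 8 * u * w + 5 * w ^ 2)) :=
        (h.mul_right _).mul_left _
      have := key hp 0 (3 * e) hM hD0 hD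
      push_cast at this ⊢
      have he' : (1 : ℤ) ≤ e := by exact_mod_cast he
      linarith

end PTAux

open PTAux in
theorem pt : PTStm := by
  intro δ u w N hδ hN hrel
  have hNQ : (N : ℚ) ≠ 0 := by exact_mod_cast hN
  have hδQ : (δ : ℚ) ≠ 0 := by exact_mod_cast hδ
  have hb : ((108 * δ ^ 2 : ℤ) : ℚ) ≠ 0 := by
    push_cast
    positivity
  have hrelQ : ((u : ℚ) + w) * ((u : ℚ) ^ 2 + w ^ 2) = δ * N ^ 3 := by exact_mod_cast hrel
  have hbQ : ((108 * δ ^ 2 : ℤ) : ℚ) =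
      108 * (((u : ℚ) + w) * ((u : ℚ) ^ 2 + w ^ 2)) ^ 2 / N ^ 6 := by
    rw [hrelQ]
    push_cast
    field_simp
  have hE : (2 * ((u : ℚ) - w) * (5 * u ^ 2 + 8 * u * w + 5 * w ^ 2) / N ^ 3) ^ 2 =
      (-2 * ((u : ℚ) ^ 2 + 4 * u * w + w ^ 2) / N ^ 2) ^ 3 + ((108 * δ ^ 2 : ℤ) : ℚ) := by
    rw [hbQ]
    field_simp
    ring
  have hns := nonsing hb hE
  refine ⟨hns, ?_⟩
  intro p e hp hp2 he hpu hpw hpδ hor
  by_cases hy : (2 * ((u : ℚ) - w) * (5 * u ^ 2 + 8 * u * w + 5 * w ^ 2) / N ^ 3) = 0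
  · left
    rw [two_nsmul]
    apply WeierstrassCurve.Affine.Point.add_self_of_Y_eq
    simp only [WeierstrassCurve.Affine.negY, crv]
    rw [hy]
    ring
  · obtain ⟨y', h', hd⟩ := dbl hns hE hy
    right
    refine ⟨_, y', h', hd, ?_⟩
    have hnum : 2 * ((u : ℚ) - w) * (5 * u ^ 2 + 8 * u * w + 5 * w ^ 2) ≠ 0 := by
      intro h0
      exact hy (by rw [h0, zero_div])
    have huw : (u : ℚ) - w ≠ 0 := by
      intro h0
      exact hnum (by rw [h0]; ring)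
    have hB : 5 * (u : ℚ) ^ 2 + 8 * u * w + 5 * w ^ 2 ≠ 0 := by
      intro h0
      exact hnum (by rw [h0]; ring)
    have hx : (-2 * ((u : ℚ) ^ 2 + 4 * u * w + w ^ 2) / N ^ 2) *
        ((-2 * ((u : ℚ) ^ 2 + 4 * u * w + w ^ 2) / N ^ 2) ^ 3 - 8 * ((108 * δ ^ 2 : ℤ) : ℚ)) /
        (4 * (2 * ((u : ℚ) - w) * (5 * u ^ 2 + 8 * u * w + 5 * w ^ 2) / N ^ 3) ^ 2) =
        ((((u ^ 2 + 4 * u * w + w ^ 2) *
      ((u ^ 2 + 4 * u * w + w ^ 2) ^ 3 + 108 * ((u + w) * (u ^ 2 + w ^ 2)) ^ 2) : ℤ) : ℚ) /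
      ((N * ((u - w) * (5 * u ^ 2 + 8 * u * w + 5 * w ^ 2)) : ℤ) : ℚ) ^ 2) := by
      rw [hbQ]
      push_cast
      field_simp
      ring
    rw [hx]
    exact arith hp hp2 he hrel.symm hpu hpw hN (by exact_mod_cast huw) (by exact_mod_cast hB) hor

end Pool.Agent.T6.H62.PP
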