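import Pool.Agent.T6.H62.PP.Defs

/-! Module VAL of project PP: `FINStm` and `FIN'Stm` from `SELStm` and `GStm`. -/

set_option autoImplicit false

namespace Pool.Agent.T6.H62.PP

open IsDedekindDomain NumberField Polynomial

namespace ModVal

/-- the residue characteristic -/
theorem exists_char {K : Type} [Field K] [NumberField K] (v : HeightOneSpectrum (𝓞 K)) :
    ∃ q : ℕ, q.Prime ∧ ∀ m : ℤ, ((m : 𝓞 K) ∈ v.asIdeal ↔ (q : ℤ) ∣ m) := by
  have hP : v.asIdeal.IsPrime := v.isPrime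
  obtain ⟨q, hq⟩ := CharP.exists (𝓞 K ⧸ v.asIdeal)
  have h1 : ∀ m : ℤ, ((m : 𝓞 K) ∈ v.asIdeal ↔ (q : ℤ) ∣ m) := by
    intro m
    rw [← Ideal.Quotient.eq_zero_iff_mem, map_intCast]
    exact CharP.intCast_eq_zero_iff _ q m
  refine ⟨q, ?_, h1⟩
  rcases CharP.char_is_prime_or_zero (𝓞 K ⧸ v.asIdeal) q with h | h
  · exact h
  · exfalso
    have h2 : Ideal.absNorm v.asIdeal ≠ 0 := by
      rw [Ne, Ideal.absNorm_eq_zero_iff]
      exact v.ne_bot
    have h3 := Ideal.absNorm_mem v.asIdeal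
    have h4 := (h1 (Ideal.absNorm v.asIdeal : ℤ)).1 (by simpa using h3)
    rw [h] at h4
    simp at h4
    exact h2 (by simpa using h4)

section

variable {K : Type} [Field K] [NumberField K] (v : HeightOneSpectrum (𝓞 K))

theorem val_int_le (m : ℤ) : v.valuation K (m : K) ≤ 1 := by
  have e : algebraMap (𝓞 K) K (m : 𝓞 K) = (m : K) := map_intCast _ m
  rw [← e]
  exact v.valuation_le_one (m : 𝓞 K)

theorem val_int_lt (m : ℤ) : v.valuation K (m : K) < 1 ↔ (m : 𝓞 K) ∈ v.asIdeal := by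
  have e : algebraMap (𝓞 K) K (m : 𝓞 K) = (m : K) := map_intCast _ m
  rw [← e]
  exact v.valuation_lt_one_iff_mem (m : 𝓞 K)

theorem val_root {d : ℕ} (hd : 0 < d) {η : K} (h : η ^ d = 1) : v.valuation K η = 1 := by
  have h1 : (v.valuation K η) ^ d = 1 := by rw [← map_pow, h, map_one]
  exact (pow_eq_one_iff.1 h1).resolve_right (by omega)

/-- `1 - ξ` is a unit outside `d` -/
theorem val_one_sub {d : ℕ} (hd : 0 < d) (hv : ¬ ((d : ℤ) : 𝓞 K) ∈ v.asIdeal) {ξ : K}
    (h : ξ ^ d = 1) (h1 : ξ ≠ 1) : 1 ≤ v.valuation K (1 - ξ) := by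
  have hξ := val_root v hd h
  have e1 : ∑ i ∈ Finset.range d, ξ ^ i = 0 := by
    have := geom_sum_mul ξ d
    rw [h, sub_self] at this
    rcases mul_eq_zero.1 this with h2 | h2
    · exact h2
    · exact absurd (sub_eq_zero.1 h2) h1
  have e2 : (d : K) = (1 - ξ) * ∑ i ∈ Finset.range d, ∑ k ∈ Finset.range i, ξ ^ k := by
    rw [Finset.mul_sum]
    have e3 : ∀ i, (1 - ξ) * ∑ k ∈ Finset.range i, ξ ^ k = 1 - ξ ^ i := by
      intro i
      rw [mul_comm]
      exact geom_sum_mul_neg ξ i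
    simp only [e3]
    rw [Finset.sum_sub_distrib, e1]
    simp
  have h3 : v.valuation K (∑ i ∈ Finset.range d, ∑ k ∈ Finset.range i, ξ ^ k) ≤ 1 := by
    refine Valuation.map_sum_le _ (fun i _ => Valuation.map_sum_le _ (fun k _ => ?_))
    rw [map_pow, hξ, one_pow]
  have h4 : v.valuation K (d : K) = 1 := by
    refine le_antisymm ?_ ?_
    · simpa using val_int_le v (d : ℤ)
    · by_contra hlt
      rw [not_le] at hlt
      exact hv ((val_int_lt v (d : ℤ)).1 (by simpa using hlt))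
  rw [e2, map_mul] at h4
  by_contra hlt
  rw [not_le] at hlt
  have h5 : v.valuation K (1 - ξ) * v.valuation K
      (∑ i ∈ Finset.range d, ∑ k ∈ Finset.range i, ξ ^ k) ≤ v.valuation K (1 - ξ) :=
    mul_le_of_le_one_right' h3
  rw [h4] at h5
  exact absurd hlt (not_lt.2 h5)

/-- at most one factor is divisible by `v` -/
theorem uniq {d : ℕ} (hd : 0 < d) (hv : ¬ ((d : ℤ) : 𝓞 K) ∈ v.asIdeal) (X U : ℤ)
    (hXU : ∀ q : ℕ, q.Prime → ¬ q ∣ d → ¬ ((q : ℤ) ∣ X ∧ (q : ℤ) ∣ U)) {η η' : K}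
    (h : η ^ d = 1) (h' : η' ^ d = 1) (hne : η ≠ η')
    (h1 : v.valuation K ((X : K) - η * U) < 1) (h2 : v.valuation K ((X : K) - η' * U) < 1) :
    False := by
  obtain ⟨q, hq, hqm⟩ := exists_char v
  have hqd : ¬ q ∣ d := by
    intro hqd
    exact hv ((hqm d).2 (by exact_mod_cast hqd))
  have hη := val_root v hd h
  have hη' := val_root v hd h'
  have hη0 : η ≠ 0 := by
    rintro rfl
    rw [map_zero] at hη
    exact zero_ne_one hη
  have h3 : 1 ≤ v.valuation K (η - η') := by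
    have e : η - η' = η * (1 - η' / η) := by field_simp
    rw [e, map_mul, hη, one_mul]
    refine val_one_sub v hd hv ?_ ?_
    · rw [div_pow, h, h', div_one]
    · intro h4
      rw [div_eq_one_iff_eq hη0] at h4
      exact hne h4.symm
  have h4 : v.valuation K ((η - η') * U) < 1 := by
    have e : (η - η') * (U : K) = ((X : K) - η' * U) - ((X : K) - η * U) := by ring
    rw [e]
    exact lt_of_le_of_lt (Valuation.map_sub _ _ _) (max_lt h2 h1)
  have h5 : v.valuation K ((η - η') * X) < 1 := by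
    have e : (η - η') * (X : K) = η * ((X : K) - η' * U) - η' * ((X : K) - η * U) := by ring
    rw [e]
    refine lt_of_le_of_lt (Valuation.map_sub _ _ _) (max_lt ?_ ?_)
    · rw [map_mul, hη, one_mul]; exact h2
    · rw [map_mul, hη', one_mul]; exact h1
  have key : ∀ m : ℤ, v.valuation K ((η - η') * m) < 1 → (q : ℤ) ∣ m := by
    intro m hm
    rw [map_mul] at hm
    rw [← hqm, ← val_int_lt v m]
    exact lt_of_le_of_lt (le_mul_of_one_le_left' h3) hm
  exact hXU q hq hqd ⟨key X h5, key U h4⟩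

/-- the order of a rational integer -/
theorem val_cube {d : ℕ} (hv : ¬ ((d : ℤ) : 𝓞 K) ∈ v.asIdeal) (n : ℤ) (hn : n ≠ 0)
    (h3 : ∀ q : ℕ, q.Prime → ¬ q ∣ d → 3 ∣ padicValInt q n) :
    ∃ (a : K) (_ : a ≠ 0), v.valuation K (n : K) = v.valuation K a ^ 3 := by
  obtain ⟨q, hq, hqm⟩ := exists_char v
  have hqd : ¬ q ∣ d := by
    intro hqd
    exact hv ((hqm d).2 (by exact_mod_cast hqd))
  obtain ⟨k, hk⟩ := h3 q hq hqd
  have : Fact q.Prime := ⟨hq⟩
  obtain ⟨m, hm⟩ : (q : ℤ) ^ padicValInt q n ∣ n := padicValInt_dvd n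
  have hqm' : ¬ (q : ℤ) ∣ m := by
    intro hdiv
    obtain ⟨m', hm'⟩ := hdiv
    have h4 : (q : ℤ) ^ (padicValInt q n + 1) ∣ n := ⟨m', by rw [pow_succ, mul_assoc, ← hm']; exact hm⟩
    rw [padicValInt_dvd_iff] at h4
    rcases h4 with h4 | h4
    · exact hn h4
    · omega
  refine ⟨(q : K) ^ k, pow_ne_zero _ (by exact_mod_cast hq.ne_zero), ?_⟩
  have h5 : v.valuation K (m : K) = 1 := by
    refine le_antisymm (val_int_le v m) ?_
    by_contra hlt
    rw [not_le] at hlt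
    exact hqm' ((hqm m).1 ((val_int_lt v m).1 hlt))
  have e : (n : K) = ((q : K) ^ k) ^ 3 * m := by
    conv_lhs => rw [hm, hk]
    push_cast
    rw [← pow_mul, mul_comm k 3]
  rw [e, map_mul, h5, mul_one, map_pow]

theorem ord_dvd {d : ℕ} (hd : 0 < d) (hv : ¬ ((d : ℤ) : 𝓞 K) ∈ v.asIdeal) (X U : ℤ)
    (hXU : ∀ q : ℕ, q.Prime → ¬ q ∣ d → ¬ ((q : ℤ) ∣ X ∧ (q : ℤ) ∣ U))
    (R : Finset K) (hR : ∀ η ∈ R, η ^ d = 1) (n : ℤ) (hn : n ≠ 0)
    (hprod : ∏ η ∈ R, ((X : K) - η * U) = n)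
    (h3 : ∀ q : ℕ, q.Prime → ¬ q ∣ d → 3 ∣ padicValInt q n) (η : K) (hη : η ∈ R) (u : Kˣ)
    (hu : (u : K) = (X : K) - η * U) : (3 : ℤ) ∣ Multiplicative.toAdd (v.valuationOfNeZero u) := by
  classical
  have hle : ∀ η ∈ R, v.valuation K ((X : K) - η * U) ≤ 1 := by
    intro η hη
    refine le_trans (Valuation.map_sub _ _ _) (max_le (val_int_le v X) ?_)
    rw [map_mul, val_root v hd (hR η hη), one_mul]
    exact val_int_le v U
  obtain ⟨a, ha, hval⟩ : ∃ (a : K) (_ : a ≠ 0), v.valuation K ((X : K) - η * U) =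
      v.valuation K a ^ 3 := by
    by_cases h1 : v.valuation K ((X : K) - η * U) < 1
    · obtain ⟨a, ha, h⟩ := val_cube v hv n hn h3
      refine ⟨a, ha, ?_⟩
      rw [← h, ← hprod, map_prod, ← Finset.mul_prod_erase R _ hη]
      rw [Finset.prod_eq_one, mul_one]
      intro η' hη'
      rw [Finset.mem_erase] at hη'
      refine le_antisymm (hle η' hη'.2) ?_
      by_contra hlt
      rw [not_le] at hlt
      exact uniq v hd hv X U hXU (hR η hη) (hR η' hη'.2) (Ne.symm hη'.1) h1 hlt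
    · refine ⟨1, one_ne_zero, ?_⟩
      rw [map_one, one_pow]
      exact le_antisymm (hle η hη) (not_lt.1 h1)
  have e : v.valuationOfNeZero u = v.valuationOfNeZero (Units.mk0 a ha) ^ 3 := by
    have h1 := v.valuationOfNeZero_eq (K := K) u
    have h2 := v.valuationOfNeZero_eq (K := K) (Units.mk0 a ha)
    rw [hu, hval] at h1
    rw [Units.val_mk0] at h2
    rw [← h2, ← WithZero.coe_pow] at h1
    exact WithZero.coe_inj.1 h1
  rw [e, toAdd_pow]
  exact ⟨Multiplicative.toAdd (v.valuationOfNeZero (Units.mk0 a ha)), by simp⟩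

end

theorem core (hS : SELStm) (hG : GStm) (d : ℕ) (hd : 0 < d) (K : Type) [Field K] [NumberField K]
    (ρ a : K) (hρ : ρ ≠ 0) (ha : a ≠ 0) (ha2 : a ^ 2 ≠ 1) (P : ℤ → ℤ → Prop)
    (hU : ∀ X U, P X U → U ≠ 0)
    (h0 : ∀ X U, P X U → (X : K) - ρ * a * U ≠ 0 ∧ (X : K) - ρ / a * U ≠ 0 ∧
      (X : K) - ρ * U ≠ 0 ∧ (X : K) - (-ρ) * U ≠ 0)
    (hP : ∀ X U, P X U → ∀ v : HeightOneSpectrum (𝓞 K), ¬ ((d : ℤ) : 𝓞 K) ∈ v.asIdeal →
      ∀ η : K, (η = ρ * a ∨ η = ρ / a ∨ η = ρ ∨ η = -ρ) → ∀ u : Kˣ, (u : K) = (X : K) - η * U →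
        (3 : ℤ) ∣ Multiplicative.toAdd (v.valuationOfNeZero u)) :
    {t : ℚ | ∃ X U : ℤ, P X U ∧ t = (X : ℚ) / (U : ℚ)}.Finite := by
  have hfin : {v : HeightOneSpectrum (𝓞 K) | ((d : ℤ) : 𝓞 K) ∈ v.asIdeal}.Finite := by
    have hI : Ideal.span {((d : ℤ) : 𝓞 K)} ≠ ⊥ := by
      rw [Ne, Ideal.span_singleton_eq_bot]
      exact_mod_cast hd.ne'
    refine (Ideal.finite_factors hI).subset (fun v hv => ?_)
    exact Ideal.dvd_span_singleton.2 hv
  obtain ⟨T, hT0, hT⟩ := hS K _ hfin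
  have hfin2 := hG K T hT0 a ha ha2
  refine (hfin2.preimage (f := fun t : ℚ => (t : K) / ρ) ?_).subset ?_
  · intro t _ t' _ h
    have h' : (t : K) / ρ = (t' : K) / ρ := h
    rw [div_left_inj' hρ] at h'
    exact_mod_cast h'
  · rintro t ⟨X, U, hXU, rfl⟩
    obtain ⟨n1, n2, n3, n4⟩ := h0 X U hXU
    have hUK : (U : K) ≠ 0 := by exact_mod_cast hU X U hXU
    show ((((X : ℚ) / (U : ℚ) : ℚ) : K) / ρ) ^ 2 ≠ 1 ∧ ∃ δ ∈ T, ∃ s : K, s ≠ 0 ∧
      ((((X : ℚ) / (U : ℚ) : ℚ) : K) / ρ) ^ 2 - (a + a⁻¹) * ((((X : ℚ) / (U : ℚ) : ℚ) : K) / ρ) + 1 =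
        δ * s ^ 3 * (((((X : ℚ) / (U : ℚ) : ℚ) : K) / ρ) ^ 2 - 1)
    have ecast : (((X : ℚ) / (U : ℚ) : ℚ) : K) = (X : K) / U := by push_cast; rfl
    rw [ecast]
    have e34 : ((X : K) / U / ρ) ^ 2 - 1 = ((X : K) - ρ * U) * ((X : K) - (-ρ) * U) /
        (ρ ^ 2 * U ^ 2) := by
      field_simp
      ring
    have e12 : ((X : K) / U / ρ) ^ 2 - (a + a⁻¹) * ((X : K) / U / ρ) + 1 =
        ((X : K) - ρ * a * U) * ((X : K) - ρ / a * U) / (ρ ^ 2 * U ^ 2) := by
      field_simp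
      ring
    have hne : ρ ^ 2 * (U : K) ^ 2 ≠ 0 := mul_ne_zero (pow_ne_zero _ hρ) (pow_ne_zero _ hUK)
    constructor
    · intro h
      rw [← sub_eq_zero, e34, div_eq_zero_iff] at h
      rcases h with h | h
      · rcases mul_eq_zero.1 h with h | h
        · exact n3 h
        · exact n4 h
      · exact hne h
    · have hval : ∀ v ∉ {v : HeightOneSpectrum (𝓞 K) | ((d : ℤ) : 𝓞 K) ∈ v.asIdeal},
          (3 : ℤ) ∣ Multiplicative.toAdd (v.valuationOfNeZero (Units.mk0 _ n1 * Units.mk0 _ n2 /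
            (Units.mk0 _ n3 * Units.mk0 _ n4))) := by
        intro v hv
        have hv' : ¬ ((d : ℤ) : 𝓞 K) ∈ v.asIdeal := hv
        have o1 := hP X U hXU v hv' _ (Or.inl rfl) (Units.mk0 _ n1) rfl
        have o2 := hP X U hXU v hv' _ (Or.inr (Or.inl rfl)) (Units.mk0 _ n2) rfl
        have o3 := hP X U hXU v hv' _ (Or.inr (Or.inr (Or.inl rfl))) (Units.mk0 _ n3) rfl
        have o4 := hP X U hXU v hv' _ (Or.inr (Or.inr (Or.inr rfl))) (Units.mk0 _ n4) rfl
        rw [_root_.map_div, _root_.map_mul, _root_.map_mul, toAdd_div, toAdd_mul, toAdd_mul]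
        exact dvd_sub (dvd_add o1 o2) (dvd_add o3 o4)
      obtain ⟨δ, hδ, b, hb, hβ⟩ := hT _ hval
      refine ⟨δ, hδ, b, hb, ?_⟩
      rw [e12, e34]
      rw [Units.val_div_eq_div_val, Units.val_mul, Units.val_mul, Units.val_mk0, Units.val_mk0,
        Units.val_mk0, Units.val_mk0, div_eq_iff (mul_ne_zero n3 n4)] at hβ
      rw [hβ]
      ring

theorem ne_of_pow {K : Type} [Field K] [NumberField K] {d : ℕ} {X U : ℤ} (h : X ^ d ≠ U ^ d)
    {η : K} (hη : η ^ d = 1) : (X : K) - η * U ≠ 0 := by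
  intro h0
  apply h
  have h1 : (X : K) = η * U := sub_eq_zero.1 h0
  have h2 : (X : K) ^ d = (U : K) ^ d := by rw [h1, mul_pow, hη, one_mul]
  exact_mod_cast h2

theorem fin1 (hS : SELStm) (hG : GStm) (d : ℕ) (he : Even d) (hd : 4 ≤ d) (K : Type) [Field K]
    [NumberField K] (ζ : K) (hζ : IsPrimitiveRoot ζ d) :
    {t : ℚ | ∃ X U : ℤ, F3 d X U ∧ t = (X : ℚ) / (U : ℚ)}.Finite := by
    have hζ0 : ζ ≠ 0 := hζ.ne_zero (by omega)
    have hm1 : (-1 : K) ^ d = 1 := he.neg_one_pow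
    have hr : ∀ η : K, (η = 1 * ζ ∨ η = 1 / ζ ∨ η = 1 ∨ η = -1) → η ^ d = 1 := by
      rintro η (rfl | rfl | rfl | rfl)
      · rw [one_mul, hζ.pow_eq_one]
      · rw [div_pow, hζ.pow_eq_one, one_pow, div_one]
      · exact one_pow d
      · exact hm1
    refine core hS hG d (by omega) K 1 ζ one_ne_zero hζ0
      (fun h => by
        have := hζ.dvd_of_pow_eq_one 2 h
        have := Nat.le_of_dvd (by norm_num) this
        omega) (F3 d)
      (fun X U h => h.1) (fun X U h => ⟨ne_of_pow h.2.1 (hr _ (Or.inl rfl)),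
        ne_of_pow h.2.1 (hr _ (Or.inr (Or.inl rfl))),
        ne_of_pow h.2.1 (hr _ (Or.inr (Or.inr (Or.inl rfl)))),
        ne_of_pow h.2.1 (hr _ (Or.inr (Or.inr (Or.inr rfl))))⟩) ?_
    intro X U h v hv η hη u hu
    refine ord_dvd v (by omega) hv X U (fun q hq hqd => (h.2.2 q hq hqd).1)
      (nthRootsFinset d (1 : K)) (fun η hη => ?_) (X ^ d - U ^ d) (sub_ne_zero.2 h.2.1) ?_
      (fun q hq hqd => (h.2.2 q hq hqd).2) η ?_ u hu
    · rwa [mem_nthRootsFinset (by omega)] at hη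
    · rw [← hζ.pow_sub_pow_eq_prod_sub_mul _ _ (by omega)]
      push_cast
      rfl
    · rw [mem_nthRootsFinset (by omega)]
      exact hr η hη

theorem fin2 (hS : SELStm) (hG : GStm) (d : ℕ) (he : Even d) (hd : 6 ≤ d) (K : Type) [Field K]
    [NumberField K] (ζ : K) (hζ : IsPrimitiveRoot ζ d) :
    {t : ℚ | ∃ X U : ℤ, F3' d X U ∧ t = (X : ℚ) / (U : ℚ)}.Finite := by
    classical
    have hζ0 : ζ ≠ 0 := hζ.ne_zero (by omega)
    have hζd := hζ.pow_eq_one
    have hnp : ∀ k : ℕ, 0 < k → k < d → ζ ^ k ≠ 1 := by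
      intro k hk hkd h
      have := Nat.le_of_dvd hk (hζ.dvd_of_pow_eq_one k h)
      omega
    have hr : ∀ η : K, (η = ζ * ζ ^ 2 ∨ η = ζ / ζ ^ 2 ∨ η = ζ ∨ η = -ζ) → η ^ d = 1 ∧ η ≠ 1 := by
      rintro η (rfl | rfl | rfl | rfl)
      · constructor
        · rw [mul_pow, ← pow_mul, mul_comm 2 d, pow_mul, hζd, one_pow, one_mul]
        · intro h
          exact hnp 3 (by norm_num) (by omega) (by rw [← h]; ring)
      · constructor
        · rw [div_pow, ← pow_mul, mul_comm 2 d, pow_mul, hζd, one_pow, div_one]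
        · intro h
          rw [div_eq_one_iff_eq (pow_ne_zero _ hζ0)] at h
          refine hnp 1 (by norm_num) (by omega) ?_
          have h2 : ζ * 1 = ζ * ζ := by rw [mul_one, ← sq]; exact h
          rw [pow_one]
          exact (mul_left_cancel₀ hζ0 h2).symm
      · exact ⟨hζd, fun h => hnp 1 (by norm_num) (by omega) (by rw [pow_one]; exact h)⟩
      · constructor
        · rw [he.neg_pow, hζd]
        · intro h
          refine hnp 2 (by norm_num) (by omega) ?_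
          have h2 : ζ = -1 := by rw [← h, neg_neg]
          rw [h2]; norm_num
    refine core hS hG d (by omega) K ζ (ζ ^ 2) hζ0 (pow_ne_zero _ hζ0)
      (fun h => hnp 4 (by norm_num) (by omega) (by rw [← h]; ring)) (F3' d)
      (fun X U h => h.1) (fun X U h => ⟨ne_of_pow h.2.1 (hr _ (Or.inl rfl)).1,
        ne_of_pow h.2.1 (hr _ (Or.inr (Or.inl rfl))).1,
        ne_of_pow h.2.1 (hr _ (Or.inr (Or.inr (Or.inl rfl)))).1,
        ne_of_pow h.2.1 (hr _ (Or.inr (Or.inr (Or.inr rfl)))).1⟩) ?_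
    intro X U h v hv η hη u hu
    have hgeo : (X - U) * Psi d X U = X ^ d - U ^ d := by
      unfold Psi
      rw [mul_comm]
      exact geom_sum₂_mul X U d
    have hXU : X - U ≠ 0 := by
      intro h0
      apply h.2.1
      rw [sub_eq_zero.1 h0]
    have hPsi : Psi d X U ≠ 0 := by
      intro h0
      rw [h0, mul_zero] at hgeo
      exact h.2.1 (sub_eq_zero.1 hgeo.symm)
    refine ord_dvd v (by omega) hv X U (fun q hq hqd => (h.2.2 q hq hqd).1)
      ((nthRootsFinset d (1 : K)).erase 1) (fun η hη => ?_) (Psi d X U) hPsi ?_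
      (fun q hq hqd => (h.2.2 q hq hqd).2) η ?_ u hu
    · rw [Finset.mem_erase, mem_nthRootsFinset (by omega)] at hη
      exact hη.2
    · have h1 := hζ.pow_sub_pow_eq_prod_sub_mul (X : K) (U : K) (by omega)
      rw [← Finset.mul_prod_erase _ _ (show (1 : K) ∈ nthRootsFinset d (1 : K) by
        rw [mem_nthRootsFinset (by omega)]; exact one_pow d), one_mul] at h1
      have h2 : ((X : K) - U) * (Psi d X U : K) = (X : K) ^ d - (U : K) ^ d := by
        have h5 := congrArg (Int.cast : ℤ → K) hgeo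
        push_cast at h5
        exact h5
      rw [← h2] at h1
      have h3 : (X : K) - U ≠ 0 := by exact_mod_cast hXU
      exact (mul_left_cancel₀ h3 h1).symm
    · rw [Finset.mem_erase, mem_nthRootsFinset (by omega)]
      exact ⟨(hr η hη).2, (hr η hη).1⟩

end ModVal

open ModVal in
theorem fin_of (hS : SELStm) (hG : GStm) : FINStm ∧ FIN'Stm := by
  constructor
  · intro d he hd
    have : NeZero d := ⟨by omega⟩
    have : IsCyclotomicExtension {d} ℚ (CyclotomicField d ℚ) :=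
      CyclotomicField.isCyclotomicExtension d ℚ
    exact fin1 hS hG d he hd (CyclotomicField d ℚ)
      (IsCyclotomicExtension.zeta d ℚ (CyclotomicField d ℚ))
      (IsCyclotomicExtension.zeta_spec d ℚ (CyclotomicField d ℚ))
  · intro d he hd
    have : NeZero d := ⟨by omega⟩
    have : IsCyclotomicExtension {d} ℚ (CyclotomicField d ℚ) :=
      CyclotomicField.isCyclotomicExtension d ℚ
    exact fin2 hS hG d he hd (CyclotomicField d ℚ)
      (IsCyclotomicExtension.zeta d ℚ (CyclotomicField d ℚ))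
      (IsCyclotomicExtension.zeta_spec d ℚ (CyclotomicField d ℚ))

end Pool.Agent.T6.H62.PP
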