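import Pool.Agent.T6.H62.PP.Dyn

/-!
# Counting preperiodic points
-/

set_option autoImplicit false

namespace Pool.Agent.T6.H62.PP

open Finset Pool.Agent.T6.H62.UB

section

variable {d v : ℕ} {b : ℤ} {O : Finset ℤ} {φ : ℤ → ℤ}

/-- A point which is not periodic runs into `-w` for a periodic point `w`. -/
theorem exists_tail (h : Sys d 1 b (v ^ (d - 1)) O φ) (hde : Even d) (hd : 2 ≤ d)
    {u : ℤ} (hu : u ∈ O) (hev : ∃ m n : ℕ, m < n ∧ φ^[m] u = φ^[n] u) (hnp : ¬ Per φ u) :
    ∃ (k : ℕ) (w : ℤ), w ∈ O ∧ Per φ w ∧ φ^[k] u = -w := by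
  classical
  obtain ⟨m, n, hmn, heq⟩ := hev
  have hex : ∃ j : ℕ, Per φ (φ^[j] u) := by
    refine ⟨m, n - m, by omega, ?_⟩
    rw [← Function.iterate_add_apply, Nat.sub_add_cancel hmn.le, heq]
  set j := Nat.find hex with hj
  have hjs : Per φ (φ^[j] u) := Nat.find_spec hex
  have hj0 : j ≠ 0 := by
    intro h0
    rw [h0] at hjs
    exact hnp hjs
  obtain ⟨k, hk⟩ : ∃ k, j = k + 1 := ⟨j - 1, by omega⟩
  have hknot : ¬ Per φ (φ^[k] u) := Nat.find_min hex (by omega)
  rw [hk] at hjs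
  obtain ⟨N, hN, hper⟩ := id hjs
  set z := φ^[k + 1] u with hz
  set w := φ^[N - 1] z with hw
  have hwO : w ∈ O := h.iter_mem (h.iter_mem hu _) _
  have hwP : Per φ w := hjs.iter _
  have hφw : φ w = z := by
    rw [hw, ← Function.iterate_succ_apply' φ, Nat.succ_eq_add_one, Nat.sub_add_cancel hN]
    exact hper
  have hφs : φ (φ^[k] u) = z := by rw [hz, Function.iterate_succ_apply']
  have hsO : φ^[k] u ∈ O := h.iter_mem hu k
  have h1 := eqn_sub h hsO hwO
  rw [hφs, hφw, sub_self, mul_zero] at h1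
  have h2 : (φ^[k] u) ^ d = w ^ d := by omega
  have h3 : |φ^[k] u| = |w| := by
    have h4 : |φ^[k] u| ^ d = |w| ^ d := by rw [hde.pow_abs, hde.pow_abs, h2]
    exact (pow_left_inj₀ (abs_nonneg _) (abs_nonneg _) (by omega)).1 h4
  refine ⟨k, w, hwO, hwP, ?_⟩
  rcases abs_eq_abs.1 h3 with h5 | h5
  · exact absurd (h5 ▸ hwP) hknot
  · exact h5

open Classical in
/-- the periodic points in `O` -/
noncomputable def perSet (φ : ℤ → ℤ) (O : Finset ℤ) : Finset ℤ := O.filter (fun u => Per φ u)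

/-- Either `c` is one of finitely many exceptions, or the number of points is bounded in terms of
the number of periodic points. -/
theorem card_le_or (h : Sys d 1 b (v ^ (d - 1)) O φ) (hde : Even d) (hd : 4 ≤ d) (h3 : 3 ∣ d - 1)
    (hv : 2 ≤ v) (hev : ∀ u ∈ O, ∃ m n : ℕ, m < n ∧ φ^[m] u = φ^[n] u) {F : Finset ℚ}
    (hF : ∀ X U : ℤ, F3 d X U → (X : ℚ) / (U : ℚ) ∈ F) :
    (∃ z x : ℚ, z ≠ 0 ∧ z ^ d + (b : ℚ) / (v : ℚ) ^ d = z ∧ x ^ d + (b : ℚ) / (v : ℚ) ^ d = -z) ∨
      O.card ≤ (2 + F.card) * (perSet φ O).card := by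
  classical
  have hvQ : (v : ℚ) ≠ 0 := by
    have : v ≠ 0 := by omega
    exact_mod_cast this
  set P := perSet φ O with hP
  have hmemP : ∀ u, u ∈ P ↔ u ∈ O ∧ Per φ u := by
    intro u; rw [hP, perSet, mem_filter]
  -- the points of type at least two
  set R := O.filter (fun u => ∃ (k : ℕ) (w : ℤ), 1 ≤ k ∧ w ∈ O ∧ Per φ w ∧ φ^[k] u = -w) with hR
  have hcover : O ⊆ P ∪ P.image (fun u => -u) ∪ R := by
    intro u hu
    rw [mem_union, mem_union]
    by_cases hper : Per φ u
    · exact Or.inl (Or.inl ((hmemP u).2 ⟨hu, hper⟩))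
    · obtain ⟨k, w, hw, pw, hkw⟩ := exists_tail h hde (by omega) hu (hev u hu) hper
      rcases Nat.eq_zero_or_pos k with hk | hk
      · subst hk
        left; right
        rw [mem_image]
        exact ⟨w, (hmemP w).2 ⟨hw, pw⟩, hkw.symm⟩
      · right
        rw [hR, mem_filter]
        exact ⟨hu, k, w, hk, hw, pw, hkw⟩
  have hcard1 : O.card ≤ P.card + P.card + R.card := by
    refine (card_le_card hcover).trans ((card_union_le _ _).trans ?_)
    refine Nat.add_le_add_right ((card_union_le _ _).trans ?_) _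
    exact Nat.add_le_add_left card_image_le _
  rcases Nat.lt_or_ge P.card 2 with hP2 | hP2
  · -- at most one periodic point
    by_cases hRe : R = ∅
    · right
      rw [hRe, card_empty] at hcard1
      nlinarith [Nat.zero_le (F.card * P.card)]
    · left
      obtain ⟨u, hu⟩ := nonempty_iff_ne_empty.2 hRe
      rw [hR, mem_filter] at hu
      obtain ⟨hu, k, w, hk, hw, pw, hkw⟩ := hu
      have hwP : w ∈ P := (hmemP w).2 ⟨hw, pw⟩
      have hφwP : φ w ∈ P := (hmemP _).2 ⟨h.maps w hw, by simpa using pw.iter 1⟩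
      have hφw : φ w = w := card_le_one.1 (by omega) _ hφwP _ hwP
      obtain ⟨j, rfl⟩ : ∃ j, k = j + 1 := ⟨k - 1, by omega⟩
      rw [Function.iterate_succ_apply'] at hkw
      have hxO : φ^[j] u ∈ O := h.iter_mem hu j
      have key : ∀ y : ℤ, y ∈ O → ((y : ℚ) / v) ^ d + (b : ℚ) / (v : ℚ) ^ d = (φ y : ℚ) / v := by
        intro y hy
        have h1 : (v : ℚ) ^ (d - 1) * (φ y : ℚ) = (y : ℚ) ^ d + b := by exact_mod_cast eqn' h hy
        rw [div_pow, ← add_div, ← h1, div_eq_div_iff (pow_ne_zero _ hvQ) hvQ]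
        obtain ⟨e, rfl⟩ : ∃ e, d = e + 1 := ⟨d - 1, by omega⟩
        simp only [Nat.add_sub_cancel]
        ring
      refine ⟨(w : ℚ) / v, (φ^[j] u : ℚ) / v, ?_, ?_, ?_⟩
      · exact div_ne_zero (by exact_mod_cast ne_zero_of_mem h (by omega) hv hw) hvQ
      · rw [key w hw, hφw]
      · rw [key _ hxO, hkw]
        push_cast
        ring
  · right
    have hRcard : R.card ≤ F.card * P.card := by
      rw [← card_product]
      have hRsub : R.image (fun u : ℤ => (u : ℚ)) ⊆
          (F ×ˢ P).image (fun q : ℚ × ℤ => q.1 * (q.2 : ℚ)) := by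
        intro x hx
        rw [mem_image] at hx
        obtain ⟨u, hu, rfl⟩ := hx
        rw [hR, mem_filter] at hu
        obtain ⟨hu, k, w, hk, hw, pw, hkw⟩ := hu
        obtain ⟨y1, hy1, y2, hy2, hne⟩ := one_lt_card.1 (show 1 < P.card by omega)
        have hex : ∃ y ∈ P, φ^[k] y ≠ w := by
          by_contra hcon
          push Not at hcon
          apply hne
          exact per_inj ((hmemP _).1 hy1).2 ((hmemP _).1 hy2).2
            ((hcon y1 hy1).trans (hcon y2 hy2).symm)
        obtain ⟨y, hy, hyw⟩ := hex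
        obtain ⟨hyO, py⟩ := (hmemP y).1 hy
        have hF3 := F3_of_tail h (by omega) hde h3 hv hw pw hk hu hyO py hkw hyw
        rw [mem_image]
        refine ⟨((u : ℚ) / (y : ℚ), y), mem_product.2 ⟨hF u y hF3, hy⟩, ?_⟩
        simp only
        rw [div_mul_cancel₀]
        exact_mod_cast hF3.1
      have h1 := (card_le_card hRsub).trans card_image_le
      rwa [card_image_of_injective _ Int.cast_injective] at h1
    nlinarith

end

/-- PER: a uniform bound for periodic points -/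
def PERStm (d : ℕ) : Prop := ∃ B : ℕ, ∀ (v : ℕ) (b : ℤ) (O : Finset ℤ) (φ : ℤ → ℤ),
  Sys d 1 b (v ^ (d - 1)) O φ → 2 ≤ v → (perSet φ O).card ≤ B

/-- For `d ≥ 6`. -/
theorem per_of_fin {d : ℕ} (hde : Even d) (hd : 6 ≤ d) (h3 : 3 ∣ d - 1) (hF : FIN'Stm) :
    PERStm d := by
  classical
  set F := (hF d hde hd).toFinset with hFdef
  refine ⟨F.card + 1, ?_⟩
  intro v b O φ h hv
  rcases (perSet φ O).eq_empty_or_nonempty with he | ⟨y, hy⟩
  · rw [he, card_empty]; omega
  have hy' : y ∈ O ∧ Per φ y := by rwa [perSet, mem_filter] at hy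
  have hy0 : (y : ℚ) ≠ 0 := by exact_mod_cast ne_zero_of_mem h (by omega) hv hy'.1
  rw [← card_erase_add_one hy]
  apply Nat.add_le_add_right
  apply card_le_card_of_injOn (fun u : ℤ => (u : ℚ) / (y : ℚ))
  · intro u hu
    rw [mem_coe, mem_erase, perSet, mem_filter] at hu
    rw [mem_coe, hFdef, Set.Finite.mem_toFinset]
    exact ⟨u, y, F3'_of_per h (by omega) h3 hv hu.2.1 hy'.1 hu.2.2 hy'.2 hu.1, rfl⟩
  · intro u _ w _ huw
    simp only at huw
    rw [div_left_inj' hy0] at huw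
    exact_mod_cast huw

/-- **Assembly.** -/
theorem main_of {d : ℕ} (hde : Even d) (hd : 4 ≤ d) (h3 : 3 ∣ d - 1) (hP : PERStm d)
    (hF : FINStm) (hT : TAILStm) :
    ∃ B : ℕ, ∀ (c : ℚ) (T : Finset ℚ),
      (∀ x ∈ T, IsPreperiodic (fun x : ℚ => x ^ d + c) x) → T.card ≤ B := by
  classical
  obtain ⟨BP, hBP⟩ := hP
  set F := (hF d hde hd).toFinset with hFdef
  set TC := (hT d hde hd h3).toFinset with hTC
  obtain ⟨C, hC, hcore⟩ := core_bound hd hde
  set B1 := ⌈C * (1 * Real.log (1 + 1))⌉₊ with hB1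
  set B2 := ∑ c ∈ TC, (2 * (c.den + c.num.natAbs) + 1) with hB2
  refine ⟨(2 + F.card) * BP + B1 + B2, ?_⟩
  intro c T hT'
  rcases T.eq_empty_or_nonempty with he | he
  · rw [he, card_empty]; omega
  obtain ⟨v, b, O, φ, hv, hden, hnum, h, hcard, hev⟩ := exists_sys_c (by omega) T he hT'
  rcases Nat.lt_or_ge v 2 with hv2 | hv2
  · -- integral `c`
    have hv1 : v = 1 := by omega
    have h1 := hcore 1 b (v ^ (d - 1)) O φ h one_ne_zero (by positivity) 1 le_rfl (by
      rw [hv1, one_pow]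
      have e1 : LL 1 (sp d 1) = 0 := by simp [LL, sp]
      rw [e1, one_mul]
      have := LL_nonneg 1 (ns d 1)
      unfold Sys.Gam
      have h2 : 0 ≤ Real.log (largestPrimePower 1 : ℝ) := Real.log_natCast_nonneg _
      have h4 : (0 : ℝ) ≤ max 0 (Real.log (Sys.XX d 1 b 1)) := le_max_left _ _
      simp only [Int.cast_one, abs_one, Real.log_one]
      positivity)
    have h2 : O.card ≤ B1 := Nat.cast_le.1 (h1.trans (Nat.le_ceil _))
    omega
  · rcases card_le_or h hde hd h3 hv2 hev (F := F) (by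
      intro X U hXU
      rw [hFdef, Set.Finite.mem_toFinset]
      exact ⟨X, U, hXU, rfl⟩) with h1 | h1
    · have hc : c = (b : ℚ) / (v : ℚ) ^ d := by
        rw [← hnum]
        have := Rat.num_div_den c
        rw [hden] at this
        push_cast at this
        exact this.symm
      have hcTC : c ∈ TC := by
        rw [hTC, Set.Finite.mem_toFinset]
        obtain ⟨z, x, h5, h6, h7⟩ := h1
        exact ⟨z, x, h5, by rw [hc]; exact h6, by rw [hc]; exact h7⟩
      have h5 : 2 * (c.den + c.num.natAbs) + 1 ≤ B2 :=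
        single_le_sum (f := fun c : ℚ => 2 * (c.den + c.num.natAbs) + 1)
          (fun _ _ => Nat.zero_le _) hcTC
      have h6 : O ⊆ Icc (-(((v ^ (d - 1) : ℕ) : ℤ) + |b|)) (((v ^ (d - 1) : ℕ) : ℤ) + |b|) := by
        intro u hu
        rw [mem_Icc]
        exact _root_.abs_le.1 (h.abs_le hd hde one_ne_zero (by positivity) hu)
      have h7 := card_le_card h6
      rw [Int.card_Icc] at h7
      have h8 : v ^ (d - 1) ≤ c.den := by
        rw [hden]; exact Nat.pow_le_pow_right hv (by omega)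
      have h9 : (c.num.natAbs : ℤ) = |b| := by rw [hnum, Int.natCast_natAbs]
      have h10 : ((v ^ (d - 1) : ℕ) : ℤ) ≤ (c.den : ℤ) := by exact_mod_cast h8
      have h11 : 0 ≤ |b| := abs_nonneg b
      have h12 : O.card ≤ 2 * (c.den + c.num.natAbs) + 1 := by omega
      omega
    · have h2 : (2 + F.card) * (perSet φ O).card ≤ (2 + F.card) * BP :=
        Nat.mul_le_mul_left _ (hBP v b O φ h hv2)
      omega

end Pool.Agent.T6.H62.PP
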