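import Pool.Agent.T6.H62.PP.DynG

/-!
# Counting preperiodic points of `(A x ^ d + b) / v ^ 3`
-/

set_option autoImplicit false

namespace Pool.Agent.T6.H62.PP.G

open Finset Pool.Agent.T6.H62.UB

open Classical in
/-- the periodic points in `O` -/
noncomputable def perSet (φ : ℤ → ℤ) (O : Finset ℤ) : Finset ℤ := O.filter (fun u => Per φ u)

theorem mem_perSet {φ : ℤ → ℤ} {O : Finset ℤ} {u : ℤ} :
    u ∈ perSet φ O ↔ u ∈ O ∧ Per φ u := by classical exact mem_filter

section general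

variable {d V : ℕ} {A b : ℤ} {O : Finset ℤ} {φ : ℤ → ℤ}

theorem eqn_subA (h : Sys d A b V O φ) {u w : ℤ} (hu : u ∈ O) (hw : w ∈ O) :
    (V : ℤ) * (φ u - φ w) = A * (u ^ d - w ^ d) := by
  linear_combination h.eqn u hu - h.eqn w hw

/-- A point which is not periodic runs into `-w` for a periodic point `w`. -/
theorem exists_tail (h : Sys d A b V O φ) (hA : A ≠ 0) (hde : Even d) (hd : 2 ≤ d)
    {u : ℤ} (hu : u ∈ O) (hev : ∃ m n : ℕ, m < n ∧ φ^[m] u = φ^[n] u) (hnp : ¬ Per φ u) :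
    ∃ (k : ℕ) (w : ℤ), w ∈ O ∧ Per φ w ∧ φ^[k] u = -w := by
  classical
  obtain ⟨m, n, hmn, heq⟩ := hev
  have hex : ∃ j : ℕ, Per φ (φ^[j] u) := by
    refine ⟨m, n - m, by omega, ?_⟩
    rw [← Function.iterate_add_apply, Nat.sub_add_cancel hmn.le, heq]
  set j := Nat.find hex with hj
  have hjs : Per φ (φ^[j] u) := Nat.find_spec hex
  have hj0 : j ≠ 0 := by
    intro h0
    rw [h0] at hjs
    exact hnp hjs
  obtain ⟨k, hk⟩ : ∃ k, j = k + 1 := ⟨j - 1, by omega⟩
  have hknot : ¬ Per φ (φ^[k] u) := Nat.find_min hex (by omega)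
  rw [hk] at hjs
  obtain ⟨N, hN, hper⟩ := id hjs
  set z := φ^[k + 1] u with hz
  set w := φ^[N - 1] z with hw
  have hwO : w ∈ O := h.iter_mem (h.iter_mem hu _) _
  have hwP : Per φ w := hjs.iter _
  have hφw : φ w = z := by
    rw [hw, ← Function.iterate_succ_apply' φ, Nat.succ_eq_add_one, Nat.sub_add_cancel hN]
    exact hper
  have hφs : φ (φ^[k] u) = z := by rw [hz, Function.iterate_succ_apply']
  have hsO : φ^[k] u ∈ O := h.iter_mem hu k
  have h1 := eqn_subA h hsO hwO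
  rw [hφs, hφw, sub_self, mul_zero] at h1
  have h2 : (φ^[k] u) ^ d = w ^ d := by
    rcases mul_eq_zero.1 h1.symm with h4 | h4
    · exact absurd h4 hA
    · omega
  have h3 : |φ^[k] u| = |w| := by
    have h4 : |φ^[k] u| ^ d = |w| ^ d := by rw [hde.pow_abs, hde.pow_abs, h2]
    exact (pow_left_inj₀ (abs_nonneg _) (abs_nonneg _) (by omega)).1 h4
  refine ⟨k, w, hwO, hwP, ?_⟩
  rcases abs_eq_abs.1 h3 with h5 | h5
  · exact absurd (h5 ▸ hwP) hknot
  · exact h5

/-- two periodic points force `A = ± 1` -/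
theorem unit_of_per (h : Sys d A b V O φ) {u w : ℤ} (hu : u ∈ O) (hw : w ∈ O)
    (pu : Per φ u) (pw : Per φ w) (hne : u ≠ w) : A = 1 ∨ A = -1 := by
  rw [← Int.isUnit_iff]
  by_contra hA
  rw [Int.isUnit_iff_natAbs_eq] at hA
  obtain ⟨q, hq, hqA⟩ := Nat.exists_prime_and_dvd hA
  have hqA' : (q : ℤ) ∣ A := Int.natCast_dvd.2 hqA
  have hqV : ¬ (q : ℤ) ∣ (V : ℤ) := by
    intro h1
    exact h.not_dvd_A hq (Int.natCast_dvd_natCast.1 h1) hqA'
  have key : ∀ k : ℕ, ∀ {u w : ℤ}, u ∈ O → w ∈ O → ∀ j : ℕ, (q : ℤ) ^ j ∣ u - w →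
      (q : ℤ) ^ (j + k) ∣ φ^[k] u - φ^[k] w := by
    intro k
    induction k with
    | zero => intro u w _ _ j hj; exact hj
    | succ k ih =>
      intro u w hu hw j hj
      rw [Function.iterate_succ_apply, Function.iterate_succ_apply,
        show j + (k + 1) = (j + 1) + k by ring]
      apply ih (h.maps u hu) (h.maps w hw)
      have h1 : (q : ℤ) ^ (j + 1) ∣ (V : ℤ) * (φ u - φ w) := by
        rw [eqn_subA h hu hw, pow_succ, mul_comm ((q : ℤ) ^ j)]
        exact mul_dvd_mul hqA' (hj.trans (sub_dvd_pow_sub_pow u w d))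
      have hcop : IsCoprime ((q : ℤ) ^ (j + 1)) (V : ℤ) := by
        apply IsCoprime.pow_left
        rw [Prime.coprime_iff_not_dvd (Nat.prime_iff_prime_int.1 hq)]
        exact hqV
      exact hcop.dvd_of_dvd_mul_left h1
  obtain ⟨n, hn, e1, e2⟩ := common_period pu pw
  apply hne
  have h1 : ∀ k : ℕ, (q : ℤ) ^ k ∣ u - w := by
    intro k
    have h2 := key (n * k) hu hw 0 (by simp)
    rw [iter_mul e1, iter_mul e2, Nat.zero_add] at h2
    exact (pow_dvd_pow _ (Nat.le_mul_of_pos_left k hn)).trans h2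
  by_contra hne'
  have h2 : u - w ≠ 0 := sub_ne_zero.2 hne'
  have h3 := Int.natAbs_dvd_natAbs.2 (h1 (u - w).natAbs)
  rw [Int.natAbs_pow, Int.natAbs_natCast] at h3
  have h4 := Nat.le_of_dvd (Int.natAbs_pos.2 h2) h3
  have h5 : (u - w).natAbs < q ^ (u - w).natAbs := Nat.lt_pow_self hq.one_lt
  omega

/-- conjugation by `-1` -/
theorem neg_sys (h : Sys d A b V O φ) (hde : Even d) :
    Sys d (-A) (-b) V (O.image fun u => -u) (fun u => -φ (-u)) := by
  refine ⟨?_, ?_, h.copA.neg_left, h.copB.neg_left⟩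
  · intro u hu
    obtain ⟨w, hw, rfl⟩ := mem_image.1 hu
    simp only [neg_neg]
    exact mem_image_of_mem _ (h.maps w hw)
  · intro u hu
    obtain ⟨w, hw, rfl⟩ := mem_image.1 hu
    simp only [neg_neg]
    rw [hde.neg_pow]
    linear_combination -h.eqn w hw

theorem neg_iter (φ : ℤ → ℤ) (k : ℕ) (u : ℤ) :
    (fun u => -φ (-u))^[k] (-u) = -(φ^[k] u) := by
  induction k generalizing u with
  | zero => rfl
  | succ k ih =>
    rw [Function.iterate_succ_apply, Function.iterate_succ_apply, neg_neg, ih]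

/-- At most one periodic point. -/
theorem tail_one (h : Sys d A b V O φ) (hA : A ≠ 0) (hde : Even d) (hd : 2 ≤ d)
    (hev : ∀ u ∈ O, ∃ m n : ℕ, m < n ∧ φ^[m] u = φ^[n] u) (hP : (perSet φ O).card ≤ 1) :
    (∃ z x : ℤ, z ∈ O ∧ x ∈ O ∧ φ z = z ∧ φ x = -z) ∨ O.card ≤ 2 := by
  classical
  set P := perSet φ O with hPdef
  set R := O.filter (fun u => ∃ (k : ℕ) (w : ℤ), 1 ≤ k ∧ w ∈ O ∧ Per φ w ∧ φ^[k] u = -w) with hR
  have hcover : O ⊆ P ∪ P.image (fun u => -u) ∪ R := by
    intro u hu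
    rw [mem_union, mem_union]
    by_cases hper : Per φ u
    · exact Or.inl (Or.inl (mem_perSet.2 ⟨hu, hper⟩))
    · obtain ⟨k, w, hw, pw, hkw⟩ := exists_tail h hA hde hd hu (hev u hu) hper
      rcases Nat.eq_zero_or_pos k with hk | hk
      · subst hk
        left; right
        rw [mem_image]
        exact ⟨w, mem_perSet.2 ⟨hw, pw⟩, hkw.symm⟩
      · right
        rw [hR, mem_filter]
        exact ⟨hu, k, w, hk, hw, pw, hkw⟩
  have hcard1 : O.card ≤ P.card + P.card + R.card := by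
    refine (card_le_card hcover).trans ((card_union_le _ _).trans ?_)
    refine Nat.add_le_add_right ((card_union_le _ _).trans ?_) _
    exact Nat.add_le_add_left card_image_le _
  by_cases hRe : R = ∅
  · right
    rw [hRe, card_empty] at hcard1
    omega
  · left
    obtain ⟨u, hu⟩ := nonempty_iff_ne_empty.2 hRe
    rw [hR, mem_filter] at hu
    obtain ⟨hu, k, w, hk, hw, pw, hkw⟩ := hu
    have hwP : w ∈ P := mem_perSet.2 ⟨hw, pw⟩
    have hφwP : φ w ∈ P := mem_perSet.2 ⟨h.maps w hw, by simpa using pw.iter 1⟩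
    have hφw : φ w = w := card_le_one.1 hP _ hφwP _ hwP
    obtain ⟨j, rfl⟩ : ∃ j, k = j + 1 := ⟨k - 1, by omega⟩
    rw [Function.iterate_succ_apply'] at hkw
    exact ⟨w, φ^[j] u, hw, h.iter_mem hu j, hφw, hkw⟩

end general

section

variable {d v : ℕ} {b : ℤ} {O : Finset ℤ} {φ : ℤ → ℤ}

/-- The number of points is bounded in terms of the number of periodic points if there are two. -/
theorem card_le_two (h : Sys d 1 b (v ^ 3) O φ) (hde : Even d) (hd : 4 ≤ d)
    (hv : 2 ≤ v) (hev : ∀ u ∈ O, ∃ m n : ℕ, m < n ∧ φ^[m] u = φ^[n] u) {F : Finset ℚ}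
    (hF : ∀ X U : ℤ, F3 d X U → (X : ℚ) / (U : ℚ) ∈ F) (hP2 : 2 ≤ (perSet φ O).card) :
    O.card ≤ (2 + F.card) * (perSet φ O).card := by
  classical
  set P := perSet φ O with hP
  -- the points of type at least two
  set R := O.filter (fun u => ∃ (k : ℕ) (w : ℤ), 1 ≤ k ∧ w ∈ O ∧ Per φ w ∧ φ^[k] u = -w) with hR
  have hcover : O ⊆ P ∪ P.image (fun u => -u) ∪ R := by
    intro u hu
    rw [mem_union, mem_union]
    by_cases hper : Per φ u
    · exact Or.inl (Or.inl (mem_perSet.2 ⟨hu, hper⟩))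
    · obtain ⟨k, w, hw, pw, hkw⟩ := exists_tail h one_ne_zero hde (by omega) hu (hev u hu) hper
      rcases Nat.eq_zero_or_pos k with hk | hk
      · subst hk
        left; right
        rw [mem_image]
        exact ⟨w, mem_perSet.2 ⟨hw, pw⟩, hkw.symm⟩
      · right
        rw [hR, mem_filter]
        exact ⟨hu, k, w, hk, hw, pw, hkw⟩
  have hcard1 : O.card ≤ P.card + P.card + R.card := by
    refine (card_le_card hcover).trans ((card_union_le _ _).trans ?_)
    refine Nat.add_le_add_right ((card_union_le _ _).trans ?_) _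
    exact Nat.add_le_add_left card_image_le _
  have hRcard : R.card ≤ F.card * P.card := by
    rw [← card_product]
    have hRsub : R.image (fun u : ℤ => (u : ℚ)) ⊆
        (F ×ˢ P).image (fun q : ℚ × ℤ => q.1 * (q.2 : ℚ)) := by
      intro x hx
      rw [mem_image] at hx
      obtain ⟨u, hu, rfl⟩ := hx
      rw [hR, mem_filter] at hu
      obtain ⟨hu, k, w, hk, hw, pw, hkw⟩ := hu
      obtain ⟨y1, hy1, y2, hy2, hne⟩ := one_lt_card.1 (show 1 < P.card by omega)
      have hex : ∃ y ∈ P, φ^[k] y ≠ w := by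
        by_contra hcon
        push Not at hcon
        apply hne
        exact per_inj (mem_perSet.1 hy1).2 (mem_perSet.1 hy2).2
          ((hcon y1 hy1).trans (hcon y2 hy2).symm)
      obtain ⟨y, hy, hyw⟩ := hex
      obtain ⟨hyO, py⟩ := mem_perSet.1 hy
      have hF3 := F3_of_tail h (by omega) hde hv hw pw hk hu hyO py hkw hyw
      rw [mem_image]
      refine ⟨((u : ℚ) / (y : ℚ), y), mem_product.2 ⟨hF u y hF3, hy⟩, ?_⟩
      simp only
      rw [div_mul_cancel₀]
      exact_mod_cast hF3.1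
    have h1 := (card_le_card hRsub).trans card_image_le
    rwa [card_image_of_injective _ Int.cast_injective] at h1
  nlinarith

end

/-- PER: a uniform bound for periodic points -/
def PERStm (d : ℕ) : Prop := ∃ B : ℕ, ∀ (v : ℕ) (b : ℤ) (O : Finset ℤ) (φ : ℤ → ℤ),
  Sys d 1 b (v ^ 3) O φ → 2 ≤ v → (perSet φ O).card ≤ B

/-- For `d ≥ 6`. -/
theorem per_of_fin {d : ℕ} (hde : Even d) (hd : 6 ≤ d) (hF : FIN'Stm) :
    PERStm d := by
  classical
  set F := (hF d hde hd).toFinset with hFdef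
  refine ⟨F.card + 1, ?_⟩
  intro v b O φ h hv
  rcases (perSet φ O).eq_empty_or_nonempty with he | ⟨y, hy⟩
  · rw [he, card_empty]; omega
  have hy' : y ∈ O ∧ Per φ y := mem_perSet.1 hy
  have hy0 : (y : ℚ) ≠ 0 := by exact_mod_cast ne_zero_of_mem h (by omega) hv hy'.1
  rw [← card_erase_add_one hy]
  apply Nat.add_le_add_right
  apply card_le_card_of_injOn (fun u : ℤ => (u : ℚ) / (y : ℚ))
  · intro u hu
    rw [mem_coe, mem_erase, mem_perSet] at hu
    rw [mem_coe, hFdef, Set.Finite.mem_toFinset]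
    exact ⟨u, y, F3'_of_per h (by omega) hv hu.2.1 hy'.1 hu.2.2 hy'.2 hu.1, rfl⟩
  · intro u _ w _ huw
    simp only at huw
    rw [div_left_inj' hy0] at huw
    exact_mod_cast huw

end Pool.Agent.T6.H62.PP.G
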