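import Pool.Agent.T6.H62.UB.Red
import Pool.Agent.T6.H62.PP.Defs

/-!
# The dynamics: pairs of periodic points, and of a preperiodic and a periodic point
-/

set_option autoImplicit false

namespace Pool.Agent.T6.H62.PP

open Finset Pool.Agent.T6.H62.UB

theorem psi_mul (d : ℕ) (X U : ℤ) : (X - U) * Psi d X U = X ^ d - U ^ d := by
  unfold Psi
  rw [mul_comm]
  exact (Commute.all X U).geom_sum₂_mul d

section

variable {d v : ℕ} {b : ℤ} {O : Finset ℤ} {φ : ℤ → ℤ}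

/-- being periodic -/
def Per (φ : ℤ → ℤ) (u : ℤ) : Prop := ∃ n : ℕ, 0 < n ∧ φ^[n] u = u

theorem eqn' (h : Sys d 1 b (v ^ (d - 1)) O φ) {u : ℤ} (hu : u ∈ O) :
    (v : ℤ) ^ (d - 1) * φ u = u ^ d + b := by
  have := h.eqn u hu
  push_cast at this
  linarith

theorem eqn_sub (h : Sys d 1 b (v ^ (d - 1)) O φ) {u w : ℤ} (hu : u ∈ O) (hw : w ∈ O) :
    (v : ℤ) ^ (d - 1) * (φ u - φ w) = u ^ d - w ^ d := by
  linear_combination eqn' h hu - eqn' h hw

theorem not_dvd_of_mem (h : Sys d 1 b (v ^ (d - 1)) O φ) (hd : 2 ≤ d) {p : ℕ} (hp : p.Prime)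
    (hpv : p ∣ v) {u : ℤ} (hu : u ∈ O) : ¬ (p : ℤ) ∣ u :=
  h.not_dvd (by omega) hp (dvd_pow hpv (by omega)) hu

theorem ne_zero_of_mem (h : Sys d 1 b (v ^ (d - 1)) O φ) (hd : 2 ≤ d) (hv : 2 ≤ v) {u : ℤ}
    (hu : u ∈ O) : u ≠ 0 := by
  rintro rfl
  obtain ⟨p, hp, hpv⟩ := Nat.exists_prime_and_dvd (show v ≠ 1 by omega)
  exact not_dvd_of_mem h hd hp hpv hu (dvd_zero _)

theorem phi_eq_of_pow_eq (h : Sys d 1 b (v ^ (d - 1)) O φ) (hv : 0 < v) {u w : ℤ} (hu : u ∈ O)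
    (hw : w ∈ O) (huw : u ^ d = w ^ d) : φ u = φ w := by
  have h1 := eqn_sub h hu hw
  rw [huw, sub_self] at h1
  have h2 : (v : ℤ) ^ (d - 1) ≠ 0 := pow_ne_zero _ (by exact_mod_cast hv.ne')
  rcases mul_eq_zero.1 h1 with h3 | h3
  · exact absurd h3 h2
  · omega

/-- one step of the valuations at `p ∣ v` -/
theorem val_step (h : Sys d 1 b (v ^ (d - 1)) O φ) {p : ℕ} (hp : p.Prime)
    (hv : 0 < v) {u w : ℤ} (hu : u ∈ O) (hw : w ∈ O) (hne : φ u ≠ φ w) :
    padicValInt p (u ^ d - w ^ d) = (d - 1) * v.factorization p + padicValInt p (φ u - φ w) := by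
  have := Fact.mk hp
  have hvz : (v : ℤ) ≠ 0 := by exact_mod_cast hv.ne'
  rw [← eqn_sub h hu hw, padicValInt.mul (pow_ne_zero _ hvz) (sub_ne_zero.2 hne)]
  congr 1
  have h1 : ((v : ℤ) ^ (d - 1)) = ((v ^ (d - 1) : ℕ) : ℤ) := by push_cast; rfl
  rw [h1, padicValInt.of_nat, padicValNat.pow, Nat.factorization_def _ hp]

/-- lifting the exponent when `p ∣ u - w`, `p ∤ d` -/
theorem not_dvd_psi {p : ℕ} (hp : p.Prime) (hpd : ¬ p ∣ d) {u w : ℤ}
    (huw : (p : ℤ) ∣ u - w) (hw : ¬ (p : ℤ) ∣ w) : ¬ (p : ℤ) ∣ Psi d u w := by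
  unfold Psi
  rw [dvd_geom_sum₂_iff_of_dvd_sub huw]
  have hpi : Prime (p : ℤ) := Nat.prime_iff_prime_int.1 hp
  intro h
  rcases hpi.dvd_or_dvd h with h1 | h1
  · exact hpd (Int.natCast_dvd_natCast.1 h1)
  · exact hw (hpi.dvd_of_dvd_pow h1)

theorem psi_ne_zero {u w : ℤ} (h : u ^ d ≠ w ^ d) : Psi d u w ≠ 0 := by
  intro h0
  apply h
  have := psi_mul d u w
  rw [h0, mul_zero] at this
  omega

theorem val_mul {p : ℕ} (hp : p.Prime) {u w : ℤ} (h : u ^ d ≠ w ^ d) :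
    padicValInt p (u ^ d - w ^ d) = padicValInt p (u - w) + padicValInt p (Psi d u w) := by
  have := Fact.mk hp
  have hne : u ≠ w := by rintro rfl; exact h rfl
  rw [← psi_mul, padicValInt.mul (sub_ne_zero.2 hne) (psi_ne_zero h)]

/-- never merging -/
def NM (φ : ℤ → ℤ) (u w : ℤ) : Prop := ∀ n : ℕ, φ^[n] u ≠ φ^[n] w

theorem NM.step {u w : ℤ} (h : NM φ u w) : NM φ (φ u) (φ w) := by
  intro n
  have := h (n + 1)
  rwa [Function.iterate_succ_apply, Function.iterate_succ_apply] at this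

theorem NM.ne {u w : ℤ} (h : NM φ u w) : u ≠ w := h 0

theorem NM.pow_ne (h : Sys d 1 b (v ^ (d - 1)) O φ) (hv : 0 < v) {u w : ℤ} (hu : u ∈ O)
    (hw : w ∈ O) (hn : NM φ u w) : u ^ d ≠ w ^ d := fun h1 =>
  hn.step.ne (phi_eq_of_pow_eq h hv hu hw h1)

/-- **The differences are `(d - 1)`-th powers at the primes of `v`.** -/
theorem val_sub_dvd (h : Sys d 1 b (v ^ (d - 1)) O φ) (hd : 2 ≤ d) (h3 : 3 ∣ d - 1) (hv : 0 < v)
    {p : ℕ} (hp : p.Prime) (hpv : p ∣ v) (hpd : ¬ p ∣ d) :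
    ∀ (N : ℕ) {u w : ℤ}, u ∈ O → w ∈ O → NM φ u w → padicValInt p (u - w) = N → 3 ∣ N := by
  have := Fact.mk hp
  intro N
  induction N using Nat.strong_induction_on with
  | _ N ih =>
    intro u w hu hw hn hN
    by_cases hdv : (p : ℤ) ∣ u - w
    · have h1 := val_mul hp (NM.pow_ne h hv hu hw hn)
      rw [padicValInt.eq_zero_of_not_dvd (not_dvd_psi hp hpd hdv (not_dvd_of_mem h hd hp hpv hw)),
        add_zero, val_step h hp hv hu hw hn.step.ne] at h1
      have h2 : 0 < v.factorization p := hp.factorization_pos_of_dvd hv.ne' hpv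
      have h4 : 0 < (d - 1) * v.factorization p := Nat.mul_pos (by omega) h2
      rw [hN] at h1
      have h5 := ih (padicValInt p (φ u - φ w)) (by omega) (h.maps u hu) (h.maps w hw) hn.step rfl
      rw [← h1]
      exact dvd_add (Dvd.dvd.mul_right h3 _) h5
    · rw [padicValInt.eq_zero_of_not_dvd hdv] at hN
      rw [← hN]; exact dvd_zero _

theorem val_pow_sub_dvd (h : Sys d 1 b (v ^ (d - 1)) O φ) (hd : 2 ≤ d) (h3 : 3 ∣ d - 1)
    (hv : 0 < v) {p : ℕ} (hp : p.Prime) (hpv : p ∣ v) (hpd : ¬ p ∣ d) {u w : ℤ} (hu : u ∈ O)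
    (hw : w ∈ O) (hn : NM φ u w) : 3 ∣ padicValInt p (u ^ d - w ^ d) := by
  rw [val_step h hp hv hu hw hn.step.ne]
  exact dvd_add (Dvd.dvd.mul_right h3 _)
    (val_sub_dvd h hd h3 hv hp hpv hpd _ (h.maps u hu) (h.maps w hw) hn.step rfl)

/-! ### periodic points -/

theorem Per.iter {u : ℤ} (hu : Per φ u) (k : ℕ) : Per φ (φ^[k] u) := by
  obtain ⟨n, hn, h⟩ := hu
  refine ⟨n, hn, ?_⟩
  rw [← Function.iterate_add_apply, Nat.add_comm, Function.iterate_add_apply, h]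

theorem iter_mul {u : ℤ} {n : ℕ} (h : φ^[n] u = u) (k : ℕ) : φ^[n * k] u = u := by
  induction k with
  | zero => rfl
  | succ k ih => rw [Nat.mul_succ, Function.iterate_add_apply, h, ih]

/-- a common period -/
theorem common_period {u w : ℤ} (hu : Per φ u) (hw : Per φ w) :
    ∃ n : ℕ, 0 < n ∧ φ^[n] u = u ∧ φ^[n] w = w := by
  obtain ⟨m, hm, h1⟩ := hu
  obtain ⟨n, hn, h2⟩ := hw
  exact ⟨m * n, Nat.mul_pos hm hn, iter_mul h1 n, by rw [Nat.mul_comm]; exact iter_mul h2 m⟩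

/-- iterates are injective on periodic points -/
theorem per_inj {u w : ℤ} (hu : Per φ u) (hw : Per φ w) {k : ℕ} (h : φ^[k] u = φ^[k] w) :
    u = w := by
  obtain ⟨n, hn, h1, h2⟩ := common_period hu hw
  have h3 : φ^[n * (k + 1) - k] (φ^[k] u) = φ^[n * (k + 1) - k] (φ^[k] w) := by rw [h]
  have hle : k ≤ n * (k + 1) := by nlinarith
  rw [← Function.iterate_add_apply, ← Function.iterate_add_apply, Nat.sub_add_cancel hle,
    iter_mul h1, iter_mul h2] at h3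
  exact h3

theorem per_NM {u w : ℤ} (hu : Per φ u) (hw : Per φ w) (hne : u ≠ w) : NM φ u w :=
  fun _ h => hne (per_inj hu hw h)

/-- **Dynamical units**: `Psi d u w` has no prime divisors outside `v`. -/
theorem not_dvd_psi_of_per (h : Sys d 1 b (v ^ (d - 1)) O φ) (hv : 0 < v)
    {u w : ℤ} (hu : u ∈ O) (hw : w ∈ O) (pu : Per φ u) (pw : Per φ w) (hne : u ≠ w)
    {q : ℕ} (hq : q.Prime) (hqv : ¬ q ∣ v) : ¬ (q : ℤ) ∣ Psi d u w := by
  have := Fact.mk hq
  have hn := per_NM pu pw hne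
  -- the valuations along the orbit are nondecreasing
  have hstep : ∀ {u w : ℤ}, u ∈ O → w ∈ O → NM φ u w →
      padicValInt q (φ u - φ w) = padicValInt q (u - w) + padicValInt q (Psi d u w) := by
    intro u w hu hw hn
    have h1 := val_step h hq hv hu hw hn.step.ne
    rw [Nat.factorization_eq_zero_of_not_dvd hqv, Nat.mul_zero, Nat.zero_add,
      val_mul hq (NM.pow_ne h hv hu hw hn)] at h1
    exact h1.symm
  have hit : ∀ k : ℕ, φ^[k] u ∈ O ∧ φ^[k] w ∈ O ∧ NM φ (φ^[k] u) (φ^[k] w) ∧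
      padicValInt q (φ u - φ w) ≤ padicValInt q (φ^[k + 1] u - φ^[k + 1] w) := by
    intro k
    induction k with
    | zero => exact ⟨hu, hw, hn, le_rfl⟩
    | succ k ih =>
      obtain ⟨i1, i2, i3, i4⟩ := ih
      have j1 := h.maps _ i1
      have j2 := h.maps _ i2
      have j3 := i3.step
      rw [← Function.iterate_succ_apply' φ] at j1 j2 j3
      rw [← Function.iterate_succ_apply' φ] at j3
      refine ⟨j1, j2, j3, i4.trans ?_⟩
      have j4 := hstep j1 j2 j3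
      rw [← Function.iterate_succ_apply' φ, ← Function.iterate_succ_apply' φ] at j4
      simp only [Nat.succ_eq_add_one] at j4 ⊢
      omega
  obtain ⟨n, hn0, e1, e2⟩ := common_period pu pw
  have h1 := (hit (n - 1)).2.2.2
  rw [Nat.sub_add_cancel hn0, e1, e2, hstep hu hw hn] at h1
  intro hdvd
  have h2 : 1 ≤ padicValInt q (Psi d u w) := by
    by_contra hcon
    have h3 : padicValInt q (Psi d u w) = 0 := by omega
    rw [padicValInt.eq_zero_iff] at h3
    rcases h3 with h3 | h3 | h3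
    · exact hq.one_lt.ne' h3
    · exact psi_ne_zero (NM.pow_ne h hv hu hw hn) h3
    · exact h3 hdvd
  omega

/-- Periodic pairs satisfy `F3'`. -/
theorem F3'_of_per (h : Sys d 1 b (v ^ (d - 1)) O φ) (hd : 2 ≤ d) (h3 : 3 ∣ d - 1) (hv : 2 ≤ v)
    {u w : ℤ} (hu : u ∈ O) (hw : w ∈ O) (pu : Per φ u) (pw : Per φ w) (hne : u ≠ w) :
    F3' d u w := by
  have hv0 : 0 < v := by omega
  have hn := per_NM pu pw hne
  have hpow := NM.pow_ne h hv0 hu hw hn
  refine ⟨ne_zero_of_mem h hd hv hw, hpow, ?_⟩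
  intro q hq hqd
  by_cases hqv : q ∣ v
  · refine ⟨fun h1 => not_dvd_of_mem h hd hq hqv hu h1.1, ?_⟩
    have h1 := val_pow_sub_dvd h hd h3 hv0 hq hqv hqd hu hw hn
    have h2 := val_sub_dvd h hd h3 hv0 hq hqv hqd _ hu hw hn rfl
    rw [val_mul hq hpow] at h1
    exact (Nat.dvd_add_right h2).1 h1
  · have h1 := not_dvd_psi_of_per h hv0 hu hw pu pw hne hq hqv
    refine ⟨?_, by rw [padicValInt.eq_zero_of_not_dvd h1]; exact dvd_zero _⟩
    rintro ⟨h2, h4⟩
    apply h1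
    unfold Psi
    apply dvd_sum
    intro i hi
    rw [mem_range] at hi
    rcases Nat.eq_zero_or_pos i with h5 | h5
    · subst h5
      exact Dvd.dvd.mul_left (dvd_pow h4 (by omega)) _
    · exact Dvd.dvd.mul_right (dvd_pow h2 (by omega)) _

/-! ### preperiodic points -/

theorem add_dvd_psi (hde : Even d) {u w : ℤ} (hne : u ≠ w) : (u + w) ∣ Psi d u w := by
  obtain ⟨e, rfl⟩ := hde
  have h1 := psi_mul (e + e) u w
  have h2 : u ^ 2 - w ^ 2 ∣ (u ^ 2) ^ e - (w ^ 2) ^ e := sub_dvd_pow_sub_pow _ _ e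
  obtain ⟨k, hk⟩ := h2
  refine ⟨k, ?_⟩
  apply mul_left_cancel₀ (sub_ne_zero.2 hne)
  rw [h1]
  have h2 : u ^ (e + e) - w ^ (e + e) = (u ^ 2) ^ e - (w ^ 2) ^ e := by
    rw [← pow_mul, ← pow_mul, two_mul]
  rw [h2, hk]
  ring

/-- The differences of a point whose orbit passes through `-w` and of a periodic point. -/
theorem tail_units (h : Sys d 1 b (v ^ (d - 1)) O φ) (hde : Even d) (hv : 0 < v)
    {w : ℤ} (hw : w ∈ O) (pw : Per φ w) (k : ℕ) :
    ∀ {u y : ℤ}, u ∈ O → y ∈ O → Per φ y → φ^[k] u = -w → φ^[k] y ≠ w →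
      u ≠ y ∧ (∀ q : ℕ, q.Prime → ¬ q ∣ v → ¬ (q : ℤ) ∣ u - y) ∧
      (1 ≤ k → u ^ d ≠ y ^ d ∧ ∀ q : ℕ, q.Prime → ¬ q ∣ v → ¬ (q : ℤ) ∣ u ^ d - y ^ d) := by
  induction k with
  | zero =>
    intro u y hu hy py h1 h2
    simp only [Function.iterate_zero, id] at h1 h2
    have h3 : ∀ q : ℕ, q.Prime → ¬ q ∣ v → ¬ (q : ℤ) ∣ u - y := by
      intro q hq hqv hdv
      apply not_dvd_psi_of_per h hv hw hy pw py (Ne.symm h2) hq hqv
      refine dvd_trans ?_ (add_dvd_psi hde (Ne.symm h2))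
      have e1 : u - y = -(w + y) := by rw [h1]; ring
      rw [e1, dvd_neg] at hdv
      exact hdv
    refine ⟨?_, h3, fun h4 => by omega⟩
    intro huy
    obtain ⟨q, hq1, hq⟩ := Nat.exists_infinite_primes (v + 1)
    apply h3 q hq
    · intro hqv
      have := Nat.le_of_dvd hv hqv
      omega
    · rw [huy, sub_self]; exact dvd_zero _
  | succ k ih =>
    intro u y hu hy py h1 h2
    rw [Function.iterate_succ_apply] at h1 h2
    have py' : Per φ (φ y) := by simpa using py.iter 1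
    obtain ⟨i1, i2, -⟩ := ih (h.maps u hu) (h.maps y hy) py' h1 h2
    have h3 := eqn_sub h hu hy
    have hne : u ^ d ≠ y ^ d := fun h4 => i1 (phi_eq_of_pow_eq h hv hu hy h4)
    have h4 : ∀ q : ℕ, q.Prime → ¬ q ∣ v → ¬ (q : ℤ) ∣ u ^ d - y ^ d := by
      intro q hq hqv hdv
      rw [← h3] at hdv
      have hqi : Prime (q : ℤ) := Nat.prime_iff_prime_int.1 hq
      rcases hqi.dvd_or_dvd hdv with h5 | h5
      · exact hqv (Int.natCast_dvd_natCast.1 (hqi.dvd_of_dvd_pow h5))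
      · exact i2 q hq hqv h5
    refine ⟨by rintro rfl; exact hne rfl, ?_, fun _ => ⟨hne, h4⟩⟩
    intro q hq hqv hdv
    apply h4 q hq hqv
    rw [← psi_mul]
    exact Dvd.dvd.mul_right hdv _

theorem tail_NM (h : Sys d 1 b (v ^ (d - 1)) O φ) (hde : Even d) (hv : 0 < v)
    {w : ℤ} (hw : w ∈ O) (pw : Per φ w) {k : ℕ}
    {u y : ℤ} (hu : u ∈ O) (hy : y ∈ O) (py : Per φ y) (h1 : φ^[k] u = -w) (h2 : φ^[k] y ≠ w) :
    NM φ u y := by
  have hbase : -w ≠ φ^[k] y := by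
    have := (tail_units h hde hv hw pw 0 (u := -w) (y := φ^[k] y)
      (by rw [← h1]; exact h.iter_mem hu k) (h.iter_mem hy k) (py.iter k) rfl
      (by simpa using h2)).1
    exact this
  intro n hn
  rcases Nat.lt_or_ge k n with hkn | hkn
  · -- after the point `-w`
    obtain ⟨j, rfl⟩ : ∃ j, n = j + 1 + k := ⟨n - k - 1, by omega⟩
    have e1 : φ^[j + 1 + k] u = φ^[j + 1] w := by
      rw [Function.iterate_add_apply, h1, Function.iterate_succ_apply, Function.iterate_succ_apply]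
      congr 1
      apply phi_eq_of_pow_eq h hv _ hw (hde.neg_pow w)
      rw [← h1]; exact h.iter_mem hu k
    have e2 : φ^[j + 1 + k] y = φ^[j + 1] (φ^[k] y) := by
      rw [Function.iterate_add_apply]
    rw [e1, e2] at hn
    exact h2 (per_inj (py.iter k) pw hn.symm)
  · apply hbase
    rw [← h1]
    have e1 : φ^[k - n] (φ^[n] u) = φ^[k - n] (φ^[n] y) := by rw [hn]
    rw [← Function.iterate_add_apply, ← Function.iterate_add_apply, Nat.sub_add_cancel hkn] at e1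
    exact e1

/-- A point of type at least two and a periodic point satisfy `F3`. -/
theorem F3_of_tail (h : Sys d 1 b (v ^ (d - 1)) O φ) (hd : 2 ≤ d) (hde : Even d) (h3 : 3 ∣ d - 1)
    (hv : 2 ≤ v) {w : ℤ} (hw : w ∈ O) (pw : Per φ w) {k : ℕ} (hk : 1 ≤ k)
    {u y : ℤ} (hu : u ∈ O) (hy : y ∈ O) (py : Per φ y) (h1 : φ^[k] u = -w) (h2 : φ^[k] y ≠ w) :
    F3 d u y := by
  have hv0 : 0 < v := by omega
  obtain ⟨i1, i2, i3⟩ := tail_units h hde hv0 hw pw k hu hy py h1 h2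
  obtain ⟨i4, i5⟩ := i3 hk
  have hn := tail_NM h hde hv0 hw pw hu hy py h1 h2
  refine ⟨ne_zero_of_mem h hd hv hy, i4, ?_⟩
  intro q hq hqd
  by_cases hqv : q ∣ v
  · exact ⟨fun h4 => not_dvd_of_mem h hd hq hqv hu h4.1,
      val_pow_sub_dvd h hd h3 hv0 hq hqv hqd hu hy hn⟩
  · refine ⟨fun h4 => i2 q hq hqv (dvd_sub h4.1 h4.2), ?_⟩
    rw [padicValInt.eq_zero_of_not_dvd (i5 q hq hqv)]
    exact dvd_zero _

end

end Pool.Agent.T6.H62.PP
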