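import Mathlib
import Pool.Agent.T6.H62.PP.Defs

/-!
# The approximate parallelogram law for `y² = x³ + b` over `ℚ`

Adapted from `Pool/Agent/H437R2/Man/MWPar.lean`.
-/

set_option autoImplicit false

open WeierstrassCurve Height

namespace Pool.Agent.T6.H62.PP.EmbPar

open Pool.Agent.H925R3.DC (crv)

variable {b : ℚ}

lemma crv_Δ (b : ℚ) : (crv ℚ 0 b).Δ = -432 * b ^ 2 := by
  simp only [WeierstrassCurve.Δ, WeierstrassCurve.b₂, WeierstrassCurve.b₄, WeierstrassCurve.b₆,
    WeierstrassCurve.b₈, crv]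
  ring

lemma crv_ell (hb : b ≠ 0) : (crv ℚ 0 b).IsElliptic := by
  refine ⟨?_⟩
  rw [crv_Δ, isUnit_iff_ne_zero]
  exact mul_ne_zero (by norm_num) (pow_ne_zero _ hb)

/-- The affine points. -/
abbrev Pt (b : ℚ) : Type := (crv ℚ 0 b).Point

lemma crv_eqn {x y : ℚ} : (crv ℚ 0 b).Equation x y ↔ y ^ 2 = x ^ 3 + b := by
  rw [WeierstrassCurve.Affine.equation_iff]
  simp only [crv]
  constructor <;> intro h <;> linear_combination h

lemma crv_nonsing {x y : ℚ} (hb : b ≠ 0) (h : y ^ 2 = x ^ 3 + b) :
    (crv ℚ 0 b).Nonsingular x y := by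
  have := crv_ell hb
  exact WeierstrassCurve.Affine.equation_iff_nonsingular.mp (crv_eqn.mpr h)

/-- numerator of `x(P+Q)` where `s = y1*y2` -/
def numr (b x1 x2 s : ℚ) : ℚ := x1 * x2 * (x1 + x2) + 2 * b - 2 * s

lemma neg_mk {x y : ℚ} (h : (crv ℚ 0 b).Nonsingular x y) (h' : (crv ℚ 0 b).Nonsingular x (-y)) :
    -(Affine.Point.some x y h) = (Affine.Point.some x (-y) h') := by
  rw [Affine.Point.neg_some]
  congr 1
  simp [Affine.negY, crv]

lemma xRep_add {x1 y1 x2 y2 : ℚ} (h1 : (crv ℚ 0 b).Nonsingular x1 y1)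
    (h2 : (crv ℚ 0 b).Nonsingular x2 y2) (hx : x1 ≠ x2) :
    (Affine.Point.some x1 y1 h1 + Affine.Point.some x2 y2 h2).xRep
      = ![numr b x1 x2 (y1 * y2) / (x1 - x2) ^ 2, 1] := by
  rw [Affine.Point.add_of_X_ne hx, Affine.Point.xRep_some]
  congr 1
  rw [Affine.slope_of_X_ne hx, Affine.addX]
  have e1' := crv_eqn.mp h1.1
  have e2' := crv_eqn.mp h2.1
  have hx' : x1 - x2 ≠ 0 := sub_ne_zero.mpr hx
  simp only [crv, numr]
  field_simp
  ring_nf
  ring_nf at e1' e2'
  linear_combination e1' + e2'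

lemma eval_addSub (s t u : ℚ) :
    (fun i ↦ (addSubMap (crv ℚ 0 b) i).eval ![s, t, u])
      = ![s ^ 2 - 4 * b * t * u, 2 * t * s + 4 * b * u ^ 2, t ^ 2 - 4 * s * u] := by
  funext i
  fin_cases i
  · simp only [addSubMap, WeierstrassCurve.b₂, WeierstrassCurve.b₄, WeierstrassCurve.b₆,
      WeierstrassCurve.b₈, crv]
    simp
    try ring
  · simp only [addSubMap, WeierstrassCurve.b₂, WeierstrassCurve.b₄, WeierstrassCurve.b₆,
      WeierstrassCurve.b₈, crv]
    simp
    try ring
  · simp only [addSubMap, WeierstrassCurve.b₂, WeierstrassCurve.b₄, WeierstrassCurve.b₆,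
      WeierstrassCurve.b₈, crv]
    simp

lemma xRep_double {x y : ℚ} (h : (crv ℚ 0 b).Nonsingular x y) (hy : y ≠ 0) :
    (Affine.Point.some x y h + Affine.Point.some x y h).xRep
      = ![(x ^ 4 - 8 * b * x) / (4 * y ^ 2), 1] := by
  have hy' : y ≠ (crv ℚ 0 b).negY x y := by
    simp only [Affine.negY, crv]
    intro hh
    apply hy
    linarith
  rw [Affine.Point.add_self_of_Y_ne hy', Affine.Point.xRep_some]
  congr 1
  rw [Affine.slope_of_Y_ne rfl hy', Affine.addX]
  have e' := crv_eqn.mp h.1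
  simp only [crv, Affine.negY]
  have e3' : y - (-y - 0 * x - 0) = 2 * y := by ring
  rw [e3']
  field_simp
  ring_nf
  ring_nf at e'
  linear_combination (-32 * x) * e'

/-- the addition-subtraction map does what it should. -/
lemma addSub_sym2x (hb : b ≠ 0) (P Q : Pt b) :
    ∃ c : ℚ, c ≠ 0 ∧ (fun i ↦ (addSubMap (crv ℚ 0 b) i).eval (P.sym2x Q))
      = c • (P + Q).sym2x (P - Q) := by
  match P, Q with
  | 0, 0 =>
    refine ⟨1, one_ne_zero, ?_⟩
    rw [Affine.Point.sym2x_zero_zero, eval_addSub]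
    simp
  | 0, .some x y h =>
    refine ⟨1, one_ne_zero, ?_⟩
    rw [Affine.Point.sym2x_zero_some, eval_addSub, zero_add, zero_sub, Affine.Point.sym2x_neg_right,
      Affine.Point.sym2x_some_some]
    simp only [one_smul]
    ext i
    fin_cases i <;> simp <;> ring
  | .some x y h, 0 =>
    refine ⟨1, one_ne_zero, ?_⟩
    rw [Affine.Point.sym2x_some_zero, eval_addSub, add_zero, sub_zero,
      Affine.Point.sym2x_some_some]
    simp only [one_smul]
    ext i
    fin_cases i <;> simp <;> ring
  | .some x1 y1 h1, .some x2 y2 h2 =>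
    have q1 := crv_eqn.mp h1.1
    have q2 := crv_eqn.mp h2.1
    by_cases hx : x1 = x2
    · subst hx
      -- P = ± Q
      have hyy : y1 = y2 ∨ y1 = -y2 := by
        apply sq_eq_sq_iff_eq_or_eq_neg.mp
        rw [q1, q2]
      have main : ∀ (y : ℚ) (h : (crv ℚ 0 b).Nonsingular x1 y),
          ∃ c : ℚ, c ≠ 0 ∧ (fun i ↦ (addSubMap (crv ℚ 0 b) i).eval
            ((Affine.Point.some x1 y h : Pt b).sym2x (Affine.Point.some x1 y h)))
            = c • ((Affine.Point.some x1 y h : Pt b) + Affine.Point.some x1 y h).sym2x 0 := by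
        intro y h
        have q := crv_eqn.mp h.1
        by_cases hy : y = 0
        · subst hy
          have hneg : (Affine.Point.some x1 0 h : Pt b) + Affine.Point.some x1 0 h = 0 := by
            apply Affine.Point.add_self_of_Y_eq
            simp [Affine.negY, crv]
          rw [hneg, Affine.Point.sym2x_zero_zero, Affine.Point.sym2x_some_some, eval_addSub]
          have hx0 : x1 ≠ 0 := by
            rintro rfl
            apply hb
            linarith
          refine ⟨9 * x1 ^ 4, by positivity, ?_⟩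
          ext i
          fin_cases i
          · simp
            linear_combination (8 * x1) * q
          · simp
            linear_combination (-4) * q
          · simp
            ring
        · have hd := xRep_double h hy
          have hy4 : 4 * y ^ 2 ≠ 0 := mul_ne_zero (by norm_num) (pow_ne_zero _ hy)
          refine ⟨4 * y ^ 2, hy4, ?_⟩
          rw [Affine.Point.sym2x_some_some, eval_addSub]
          ext i
          fin_cases i
          · simp [Affine.Point.sym2x, hd]
            field_simp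
            ring
          · simp [Affine.Point.sym2x, hd]
            linear_combination (-4) * q
          · simp [Affine.Point.sym2x, hd]
            ring
      rcases hyy with hyy | hyy
      · subst hyy
        have := main y1 h1
        rwa [sub_self]
      · subst hyy
        have hne : (Affine.Point.some x1 (-y2) h1 : Pt b) = -Affine.Point.some x1 y2 h2 := by
          rw [neg_mk]
        rw [hne]
        rw [Affine.Point.sym2x_neg_left, neg_add_cancel, Affine.Point.sym2x_comm 0, ← neg_add',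
          Affine.Point.sym2x_neg_left]
        exact main y2 h2
    · have hx' : x1 - x2 ≠ 0 := sub_ne_zero.mpr hx
      have h2' : (crv ℚ 0 b).Nonsingular x2 (-y2) := by
        apply crv_nonsing hb
        rw [← q2]; ring
      have ha := xRep_add h1 h2 hx
      have hb' := xRep_add h1 h2' hx
      rw [← neg_mk h2 h2', ← sub_eq_add_neg] at hb'
      refine ⟨(x1 - x2) ^ 2, pow_ne_zero _ hx', ?_⟩
      rw [Affine.Point.sym2x_some_some, eval_addSub]
      ext i
      fin_cases i
      · simp [Affine.Point.sym2x, ha, hb', numr]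
        field_simp
        linear_combination 4 * y2 ^ 2 * q1 + 4 * (x1 ^ 3 + b) * q2
      · simp [Affine.Point.sym2x, ha, hb', numr]
        field_simp
        ring
      · simp [Affine.Point.sym2x, ha, hb', numr]
        ring

lemma sym2x_height (b : ℚ) : ∃ C : ℝ, ∀ P Q : Pt b,
    |logHeight (P.sym2x Q) - (logHeight P.xRep + logHeight Q.xRep)| ≤ C := by
  obtain ⟨C, hC⟩ := abs_logHeight_sym2_sub_le ℚ
  refine ⟨C, fun P Q ↦ ?_⟩
  have hP : P.xRep = ![P.xRep 0, P.xRep 1] := by
    ext i; fin_cases i <;> simp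
  have hQ : Q.xRep = ![Q.xRep 0, Q.xRep 1] := by
    ext i; fin_cases i <;> simp
  have hP0 : ![P.xRep 0, P.xRep 1] ≠ 0 := by rw [← hP]; exact P.xRep_ne_zero
  have hQ0 : ![Q.xRep 0, Q.xRep 1] ≠ 0 := by rw [← hQ]; exact Q.xRep_ne_zero
  have := hC hP0 hQ0
  rw [← hP, ← hQ] at this
  exact this

/-- approximate parallelogram law for the naive height -/
theorem par_law (hb : b ≠ 0) :
    ∃ C : ℝ, 0 ≤ C ∧ ∀ P Q : Pt b,
      |logHeight (P + Q).xRep + logHeight (P - Q).xRep -
        2 * (logHeight P.xRep + logHeight Q.xRep)| ≤ C := by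
  have := crv_ell hb
  obtain ⟨C1, hC1⟩ := sym2x_height b
  obtain ⟨C2, hC2⟩ := WeierstrassCurve.abs_logHeight_addSubMap_sub_two_mul_logHeight_le (crv ℚ 0 b)
  have key : ∀ P Q : Pt b,
      |logHeight (P + Q).xRep + logHeight (P - Q).xRep -
        2 * (logHeight P.xRep + logHeight Q.xRep)| ≤ 3 * C1 + C2 := by
    intro P Q
    have a1 := hC1 P Q
    have a2 := hC1 (P + Q) (P - Q)
    have a3 := hC2 (P.sym2x Q)
    obtain ⟨c, hc, hceq⟩ := addSub_sym2x hb P Q
    rw [hceq, logHeight_smul_eq_logHeight _ hc] at a3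
    rw [abs_le] at a1 a2 a3 ⊢
    constructor <;> linarith [a1.1, a1.2, a2.1, a2.2, a3.1, a3.2]
  refine ⟨3 * C1 + C2, le_trans (abs_nonneg _) (key 0 0), key⟩

end Pool.Agent.T6.H62.PP.EmbPar
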