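import Pool.Agent.T6.H62.PP.Defs

set_option autoImplicit false

namespace Pool.Agent.T6.H62.PP

open NumberField Polynomial

/-- the cube root lives in a number field -/
theorem exists_cbrt (K : Type) [Field K] [NumberField K] (c : K) :
    ∃ (L : Type) (_ : Field L) (_ : NumberField L) (_ : Algebra K L) (θ : L),
      θ ^ 3 = algebraMap K L c := by
  classical
  let p : K[X] := X ^ 3 - C c
  have hp : p.degree = 3 := degree_X_pow_sub_C (by norm_num) c
  refine ⟨p.SplittingField, inferInstance, NumberField.of_module_finite K p.SplittingField,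
    inferInstance, ?_⟩
  have hs := SplittingField.splits p
  have hdeg : (p.map (algebraMap K p.SplittingField)).degree ≠ 0 := by
    rw [degree_map, hp]; norm_num
  obtain ⟨θ, hθ⟩ := hs.exists_eval_eq_zero hdeg
  refine ⟨θ, ?_⟩
  have : θ ^ 3 - algebraMap K p.SplittingField c = 0 := by
    simpa [p] using hθ
  exact sub_eq_zero.mp this

theorem gfin0 (hM : ∀ (L : Type) [Field L] [NumberField L],
    {x : L | ∃ y : L, y ^ 2 = x ^ 6 + 1}.Finite) : GStm := by
  classical
  intro K _ _ T hT a ha ha2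
  have key : ∀ δ : K, δ ≠ 0 → {t : K | t ^ 2 ≠ 1 ∧ ∃ s : K, s ≠ 0 ∧
      t ^ 2 - (a + a⁻¹) * t + 1 = δ * s ^ 3 * (t ^ 2 - 1)}.Finite := by
    intro δ hδ
    have hD0 : a - a⁻¹ ≠ 0 := by
      intro h
      apply ha2
      have h1 : a = a⁻¹ := sub_eq_zero.mp h
      have h2 : a * a⁻¹ = 1 := mul_inv_cancel₀ ha
      rw [← h1] at h2
      rw [sq]; exact h2
    have haa : a * a⁻¹ = 1 := mul_inv_cancel₀ ha
    set D := a - a⁻¹ with hD
    obtain ⟨L, _, _, _, θ, hθ⟩ := exists_cbrt K (2 * δ / D)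
    have hθ0 : θ ≠ 0 := by
      intro h
      rw [h, zero_pow (by norm_num)] at hθ
      have : (2 * δ / D) = 0 := by
        apply (algebraMap K L).injective
        rw [← hθ, map_zero]
      exact (div_ne_zero (mul_ne_zero two_ne_zero hδ) hD0) this
    have hS : {s : K | s ≠ 0 ∧ ∃ t : K, t ^ 2 ≠ 1 ∧
        t ^ 2 - (a + a⁻¹) * t + 1 = δ * s ^ 3 * (t ^ 2 - 1)}.Finite := by
      have hinj : Function.Injective (fun s : K => θ * algebraMap K L s) := by
        intro s s' h
        exact (algebraMap K L).injective (mul_left_cancel₀ hθ0 h)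
      refine Set.Finite.subset ((hM L).preimage hinj.injOn) ?_
      rintro s ⟨hs0, t, ht1, ht⟩
      refine ⟨algebraMap K L ((2 * (1 - δ * s ^ 3) * t - (a + a⁻¹)) / D), ?_⟩
      have h1 : ((2 * (1 - δ * s ^ 3) * t - (a + a⁻¹)) / D) ^ 2 = (2 * δ / D) ^ 2 * s ^ 6 + 1 := by
        rw [div_pow, div_eq_iff (pow_ne_zero 2 hD0)]
        have e1 : ((2 * δ / D) ^ 2 * s ^ 6 + 1) * D ^ 2 = (2 * δ) ^ 2 * s ^ 6 + D ^ 2 := by
          field_simp
        rw [e1, hD]
        linear_combination (4 * (1 - δ * s ^ 3)) * ht + 4 * haa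
      rw [mul_pow, show θ ^ 6 = (θ ^ 3) ^ 2 by ring, hθ, ← map_pow, ← map_pow, h1, map_add, map_mul,
        map_pow, map_pow, map_one]
    refine Set.Finite.subset (hS.biUnion (t := fun s => {t : K | t ^ 2 - (a + a⁻¹) * t + 1 = δ * s ^ 3 * (t ^ 2 - 1)}) ?_) ?_
    · rintro s ⟨hs0, -⟩
      let P : K[X] := C (1 - δ * s ^ 3) * X ^ 2 - C (a + a⁻¹) * X + C (1 + δ * s ^ 3)
      have hP : P ≠ 0 := by
        intro h
        have h2 : P.eval 1 = 0 := by rw [h]; simp
        have h0 : P.eval (-1) = 0 := by rw [h]; simp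
        simp only [P, eval_add, eval_sub, eval_mul, eval_C, eval_pow, eval_X] at h2 h0
        have : (2 : K) = 0 := by linear_combination h2 / 2 + h0 / 2
        exact two_ne_zero this
      refine Set.Finite.subset (P.roots.toFinset.finite_toSet) ?_
      intro t ht
      simp only [Set.mem_ofPred_eq] at ht
      simp only [Finset.mem_coe, Multiset.mem_toFinset, mem_roots hP, IsRoot.def]
      simp only [P, eval_add, eval_sub, eval_mul, eval_C, eval_pow, eval_X]
      linear_combination ht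
    · rintro t ⟨ht1, s, hs0, ht⟩
      simp only [Set.mem_iUnion]
      exact ⟨s, ⟨hs0, t, ht1, ht⟩, ht⟩
  refine Set.Finite.subset ((T.finite_toSet).biUnion (t := fun δ => {t : K | t ^ 2 ≠ 1 ∧ ∃ s : K, s ≠ 0 ∧
      t ^ 2 - (a + a⁻¹) * t + 1 = δ * s ^ 3 * (t ^ 2 - 1)}) fun δ hδ => key δ (hT δ hδ)) ?_
  rintro t ⟨ht1, δ, hδ, s, hs0, ht⟩
  simp only [Set.mem_iUnion]
  exact ⟨δ, hδ, ht1, s, hs0, ht⟩

end Pool.Agent.T6.H62.PP
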