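import Pool.Agent.T6.H62.PP.Defs

/-!
# Points of small height in few classes: lattice part of the case `d = 4`
-/

set_option autoImplicit false

namespace Pool.Agent.T6.H62.PP

open Finset WeierstrassCurve
open Pool.Agent.H925R3.DC (crv)

/-- packing -/
theorem packing (n : ℕ) : ∃ K : ℕ, ∀ (s : ℝ), 0 < s → ∀ F : Finset (EuclideanSpace ℝ (Fin n)),
    (∀ x ∈ F, ‖x‖ ≤ 12 * s) → (∀ x ∈ F, ∀ y ∈ F, x ≠ y → s ≤ ‖x - y‖) → F.card ≤ K := by
  classical
  obtain ⟨t, -, htf, ht⟩ := IsCompact.finite_cover_balls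
    (isCompact_closedBall (0 : EuclideanSpace ℝ (Fin n)) 12) (show (0 : ℝ) < 1 / 2 by norm_num)
  refine ⟨htf.toFinset.card, fun s hs F hF hsep => ?_⟩
  have hex : ∀ x : EuclideanSpace ℝ (Fin n), ∃ c, x ∈ F → c ∈ t ∧ dist (s⁻¹ • x) c < 1 / 2 := by
    intro x
    by_cases hx : x ∈ F
    · have h1 : s⁻¹ • x ∈ Metric.closedBall (0 : EuclideanSpace ℝ (Fin n)) 12 := by
        rw [mem_closedBall_zero_iff, norm_smul, Real.norm_eq_abs, abs_inv, abs_of_pos hs,
          inv_mul_le_iff₀ hs]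
        have := hF x hx
        linarith
      have h2 := ht h1
      simp only [Set.mem_iUnion, Metric.mem_ball, exists_prop] at h2
      obtain ⟨c, hc, hd⟩ := h2
      exact ⟨c, fun _ => ⟨hc, hd⟩⟩
    · exact ⟨0, fun h => absurd h hx⟩
  choose f hf using hex
  apply card_le_card_of_injOn f
  · intro x hx
    rw [mem_coe, Set.Finite.mem_toFinset]
    exact (hf x hx).1
  · intro x hx y hy hxy
    by_contra hne
    have h1 := hsep x hx y hy hne
    have h2 := (hf x hx).2
    have h3 := (hf y hy).2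
    rw [← hxy] at h3
    have h4 : dist (s⁻¹ • x) (s⁻¹ • y) < 1 := by
      have := dist_triangle_right (s⁻¹ • x) (s⁻¹ • y) (f x)
      linarith
    rw [dist_eq_norm, ← smul_sub, norm_smul, Real.norm_eq_abs, abs_inv, abs_of_pos hs,
      inv_mul_lt_iff₀ hs, mul_one] at h4
    linarith

/-- Northcott for the points -/
theorem finite_pts (b : ℚ) (B : ℝ) :
    {P : (crv ℚ 0 b).Point | Height.logHeight P.xRep ≤ B}.Finite := by
  classical
  have hfin := NumberField.finite_setOfPred_logHeight₁_le (K := ℚ) B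
  have h1 : ((fun P : (crv ℚ 0 b).Point => P.xRep) ''
      {P : (crv ℚ 0 b).Point | Height.logHeight P.xRep ≤ B}).Finite := by
    apply Set.Finite.subset ((hfin.image (fun x : ℚ => ![x, 1])).union (Set.finite_singleton ![1, 0]))
    rintro _ ⟨P, hP, rfl⟩
    match P, hP with
    | 0, _ => right; simp
    | .some x y h, hP =>
      left
      refine ⟨x, ?_, by simp⟩
      simp only [Set.mem_ofPred_eq, Affine.Point.xRep_some] at hP
      simp only [Set.mem_ofPred_eq]
      rw [Height.logHeight₁_eq_logHeight]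
      exact hP
  apply Set.Finite.of_finite_fibers _ h1
  intro v _
  by_cases hv : ∃ P : (crv ℚ 0 b).Point, P.xRep = v
  · obtain ⟨P, rfl⟩ := hv
    apply Set.Finite.subset (s := {P, -P}) (by simp)
    intro Q hQ
    have : Q.xRep = P.xRep := hQ.2
    rcases Affine.Point.eq_or_eq_neg_of_xRep_eq_xRep this with h | h
    · left; exact h
    · right; exact h
  · apply Set.Finite.subset (Set.finite_empty)
    intro Q hQ
    exact absurd ⟨Q, hQ.2⟩ hv

/-- the height of a fraction -/
theorem ht_le {A B : ℤ} (hB : B ≠ 0) {H : ℝ} (hA' : |(A : ℝ)| ≤ H) (hB' : |(B : ℝ)| ≤ H) :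
    Height.logHeight ![(A : ℚ) / B, 1] ≤ Real.log H := by
  rw [← Height.logHeight₁_eq_logHeight, Rat.logHeight₁_eq_log_max]
  have hBQ : (B : ℚ) ≠ 0 := by exact_mod_cast hB
  apply Real.log_le_log
  · have : 0 < ((A : ℚ) / B).den := ((A : ℚ) / B).den_pos
    have h1 : 0 < max ((A : ℚ) / B).num.natAbs ((A : ℚ) / B).den := lt_max_of_lt_right this
    exact_mod_cast h1
  · rw [Nat.cast_max]
    apply max_le
    · by_cases hA : A = 0
      · subst hA
        simp only [Int.cast_zero, zero_div, Rat.num_zero, Int.natAbs_zero, Nat.cast_zero]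
        exact (abs_nonneg _).trans hB'
      · have h1 : ((A : ℚ) / B).num ∣ A := by
          rw [← Rat.divInt_eq_div]; exact Rat.num_dvd A hB
        have h2 : ((A : ℚ) / B).num.natAbs ≤ A.natAbs :=
          Nat.le_of_dvd (Int.natAbs_pos.2 hA) (Int.natAbs_dvd_natAbs.2 h1)
        have h3 : (((A : ℚ) / B).num.natAbs : ℝ) ≤ (A.natAbs : ℝ) := by exact_mod_cast h2
        refine h3.trans ?_
        rw [Nat.cast_natAbs, Int.cast_abs]
        exact hA'
    · have h1 : (((A : ℚ) / B).den : ℤ) ∣ B := by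
        rw [← Rat.divInt_eq_div]; exact Rat.den_dvd A B
      have h2 : ((A : ℚ) / B).den ≤ B.natAbs :=
        Nat.le_of_dvd (Int.natAbs_pos.2 hB) (Int.natCast_dvd.1 h1)
      have h3 : (((A : ℚ) / B).den : ℝ) ≤ (B.natAbs : ℝ) := by exact_mod_cast h2
      refine h3.trans ?_
      rw [Nat.cast_natAbs, Int.cast_abs]
      exact hB'

/-- cubes -/
theorem exists_cube {n : ℤ} (hn : n ≠ 0) (h : ∀ q : ℕ, q.Prime → 3 ∣ padicValInt q n) :
    ∃ N : ℤ, N ≠ 0 ∧ n = N ^ 3 := by
  have hna : n.natAbs ≠ 0 := Int.natAbs_ne_zero.2 hn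
  have h1 : ∃ m : ℕ, n.natAbs = m ^ 3 := by
    refine ⟨∏ p ∈ n.natAbs.primeFactors, p ^ (n.natAbs.factorization p / 3), ?_⟩
    conv_lhs => rw [← Nat.prod_factorization_pow_eq_self hna]
    rw [Finsupp.prod, Nat.support_factorization, ← prod_pow]
    refine prod_congr rfl fun p hp => ?_
    rw [← pow_mul]
    congr 1
    have h2 := h p (Nat.prime_of_mem_primeFactors hp)
    have h3 : n.natAbs.factorization p = padicValInt p n := by
      rw [Nat.factorization_def _ (Nat.prime_of_mem_primeFactors hp)]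
      rfl
    rw [h3]
    omega
  obtain ⟨m, hm⟩ := h1
  have hm0 : m ≠ 0 := by
    rintro rfl
    exact hna (by rw [hm]; norm_num)
  have hmz : (m : ℤ) ≠ 0 := by exact_mod_cast hm0
  rcases Int.natAbs_eq n with h2 | h2
  · refine ⟨m, hmz, ?_⟩
    rw [h2, hm]; push_cast; rfl
  · refine ⟨-m, neg_ne_zero.2 hmz, ?_⟩
    rw [h2, hm]; push_cast; ring

end Pool.Agent.T6.H62.PP
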