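import Pool.Agent.T6.H62.PP.Lat

/-!
# The lattice argument
-/

set_option autoImplicit false

namespace Pool.Agent.T6.H62.PP

open Finset WeierstrassCurve
open Pool.Agent.H925R3.DC (crv)

/-- at most three `u` for every point -/
theorem card_root {δ w : ℤ} (hδ : δ ≠ 0) (hw : w ≠ 0) (Y : ℚ) (T : Finset ℤ)
    (hT : ∀ u ∈ T, Y * (((u : ℚ) + w) * ((u : ℚ) ^ 2 + w ^ 2)) =
      2 * δ * (((u : ℚ) - w) * (5 * (u : ℚ) ^ 2 + 8 * u * w + 5 * w ^ 2))) : T.card ≤ 3 := by
  classical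
  set q : Polynomial ℚ := Polynomial.C Y * ((Polynomial.X + Polynomial.C (w : ℚ)) *
      (Polynomial.X ^ 2 + Polynomial.C ((w : ℚ) ^ 2))) -
    Polynomial.C (2 * (δ : ℚ)) * ((Polynomial.X - Polynomial.C (w : ℚ)) *
      (Polynomial.C 5 * Polynomial.X ^ 2 + Polynomial.C (8 * (w : ℚ)) * Polynomial.X +
        Polynomial.C (5 * (w : ℚ) ^ 2))) with hq
  have hev : ∀ t : ℚ, q.eval t = Y * ((t + w) * (t ^ 2 + w ^ 2)) -
      2 * δ * ((t - w) * (5 * t ^ 2 + 8 * w * t + 5 * w ^ 2)) := by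
    intro t
    simp [hq]
  have hq0 : q ≠ 0 := by
    intro h0
    have h1 := hev (-(w : ℚ))
    rw [h0, Polynomial.eval_zero] at h1
    have h2 : (8 : ℚ) * δ * w ^ 3 = 0 := by linear_combination -h1
    have hδ' : (δ : ℚ) ≠ 0 := by exact_mod_cast hδ
    have hw' : (w : ℚ) ≠ 0 := by exact_mod_cast hw
    exact (mul_ne_zero (mul_ne_zero (by norm_num) hδ') (pow_ne_zero _ hw')) h2
  have hdeg : q.natDegree ≤ 3 := by
    rw [hq]
    compute_degree
  calc T.card = (T.image (fun u : ℤ => (u : ℚ))).card :=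
        (card_image_of_injective _ Int.cast_injective).symm
    _ ≤ q.roots.toFinset.card := by
        apply card_le_card
        intro x hx
        rw [mem_image] at hx
        obtain ⟨u, hu, rfl⟩ := hx
        rw [Multiset.mem_toFinset, Polynomial.mem_roots hq0, Polynomial.IsRoot.def, hev]
        have := hT u hu
        linear_combination this
    _ ≤ q.roots.card := Multiset.toFinset_card_le _
    _ ≤ q.natDegree := Polynomial.card_roots' q
    _ ≤ 3 := hdeg

/-- the denominator of a point in the kernels of reduction -/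
theorem ht_ge {b : ℤ} {m : ℕ} (hm : 0 < m) {D : (crv ℚ (0 : ℚ) (b : ℚ)).Point} (hD : D ≠ 0)
    (hK : ∀ p : ℕ, p.Prime → p ∣ m → Ker b p (m.factorization p) D) :
    2 * Real.log m ≤ Height.logHeight D.xRep := by
  match D, hD, hK with
  | 0, hD, _ => exact absurd rfl hD
  | .some x y h, _, hK =>
    rw [Affine.Point.xRep_some, ← Height.logHeight₁_eq_logHeight, Rat.logHeight₁_eq_log_max]
    have hdvd : m ^ 2 ∣ x.den := by
      rw [← Nat.factorization_prime_le_iff_dvd (pow_ne_zero _ hm.ne') x.den_pos.ne']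
      intro p hp
      rw [Nat.factorization_pow]
      simp only [Finsupp.coe_smul, Pi.smul_apply, smul_eq_mul]
      by_cases hpm : p ∣ m
      · rcases hK p hp hpm with h0 | ⟨x', y', h', he, hv⟩
        · exact absurd h0 (Affine.Point.some_ne_zero h)
        · rw [Affine.Point.some.injEq] at he
          rw [← he.1] at hv
          have := Fact.mk hp
          rw [padicValRat_def] at hv
          have h1 : x.den.factorization p = padicValNat p x.den := Nat.factorization_def _ hp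
          omega
      · rw [Nat.factorization_eq_zero_of_not_dvd hpm]
        omega
    have h1 : m ^ 2 ≤ x.den := Nat.le_of_dvd x.den_pos hdvd
    have h2 : ((m : ℝ)) ^ 2 ≤ ((max x.num.natAbs x.den : ℕ) : ℝ) := by
      have : m ^ 2 ≤ max x.num.natAbs x.den := h1.trans (le_max_right _ _)
      exact_mod_cast this
    have h3 : (0 : ℝ) < (m : ℝ) ^ 2 := by
      have : (0 : ℝ) < m := by exact_mod_cast hm
      positivity
    have h4 := Real.log_le_log h3 h2
    rw [Real.log_pow] at h4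
    exact_mod_cast h4

theorem latA (hE : EMBStm) (hK : KERStm) (hPT : PTStm) (δ : ℤ) (hδ : δ ≠ 0) : ∃ K M0 : ℕ,
    ∀ m : ℕ, M0 ≤ m → ¬ 2 ∣ m → ∀ (w : ℤ) (T : Finset ℤ) (U : ℝ), w ≠ 0 →
      |(w : ℝ)| ≤ U → (∀ u ∈ T, |(u : ℝ)| ≤ U) → U ≤ 2 * (m : ℝ) ^ 10 →
      (∀ p : ℕ, p.Prime → p ∣ m → ¬ (p : ℤ) ∣ δ ∧ ¬ (p : ℤ) ∣ w) →
      (∀ u ∈ T, ∃ N : ℤ, N ≠ 0 ∧ (u + w) * (u ^ 2 + w ^ 2) = δ * N ^ 3 ∧
        ∀ p : ℕ, p.Prime → p ∣ m → ¬ (p : ℤ) ∣ u ∧
          ((p : ℤ) ^ (m.factorization p) ∣ N ∨ (p : ℤ) ^ (3 * m.factorization p) ∣ u - w)) →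
      T.card ≤ K := by
  classical
  have hb : (108 * δ ^ 2 : ℤ) ≠ 0 := mul_ne_zero (by norm_num) (pow_ne_zero _ hδ)
  obtain ⟨n, ψ, C, hψ⟩ := hE _ hb
  have hC0 : 0 ≤ C := (abs_nonneg _).trans (hψ 0)
  obtain ⟨K1, hK1⟩ := packing n
  set S := (finite_pts ((108 * δ ^ 2 : ℤ) : ℚ) C).toFinset with hS
  refine ⟨3 * S.card * K1, ⌈96 * Real.exp C⌉₊, ?_⟩
  intro m hm hm2 w T U hw hwU hTU hU hpw hT
  -- the size of `m`
  have hm' : 96 * Real.exp C ≤ m := (Nat.le_ceil _).trans (by exact_mod_cast hm)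
  have hexp : 0 < Real.exp C := Real.exp_pos C
  have hmpos : (0 : ℝ) < m := lt_of_lt_of_le (by positivity) hm'
  have hmpos' : 0 < m := by exact_mod_cast hmpos
  set L := Real.log m with hL
  have hL0 : Real.log 96 + C ≤ L := by
    have h1 := Real.log_le_log (by positivity) hm'
    rwa [Real.log_mul (by norm_num) hexp.ne', Real.log_exp] at h1
  have hlog96 : 0 < Real.log 96 := Real.log_pos (by norm_num)
  have hLpos : 0 < L := by linarith
  have hw1 : (1 : ℝ) ≤ |(w : ℝ)| := by exact_mod_cast Int.one_le_abs hw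
  have hU1 : 1 ≤ U := hw1.trans hwU
  -- the points
  have hex : ∀ u : ℤ, ∃ P : (crv ℚ (0 : ℚ) ((108 * δ ^ 2 : ℤ) : ℚ)).Point, u ∈ T →
      ∃ N : ℤ, N ≠ 0 ∧ (u + w) * (u ^ 2 + w ^ 2) = δ * N ^ 3 ∧
        (∀ p : ℕ, p.Prime → p ∣ m → Ker (108 * δ ^ 2) p (m.factorization p) ((2 : ℕ) • P)) ∧
        ∃ h, P = .some (-2 * ((u : ℚ) ^ 2 + 4 * u * w + w ^ 2) / N ^ 2)
          (2 * ((u : ℚ) - w) * (5 * u ^ 2 + 8 * u * w + 5 * w ^ 2) / N ^ 3) h := by
    intro u
    by_cases hu : u ∈ T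
    · obtain ⟨N, hN, heq, hp⟩ := hT u hu
      obtain ⟨h, hh⟩ := hPT δ u w N hδ hN heq
      refine ⟨_, fun _ => ⟨N, hN, heq, ?_, h, rfl⟩⟩
      intro p hpp hpm
      obtain ⟨hp1, hp2⟩ := hp p hpp hpm
      obtain ⟨hp3, hp4⟩ := hpw p hpp hpm
      refine hh p _ hpp ?_ (hpp.factorization_pos_of_dvd hmpos'.ne' hpm) hp1 hp4 hp3 hp2
      rintro rfl
      exact hm2 hpm
    · exact ⟨0, fun h => absurd h hu⟩
  choose P hP using hex
  -- the number of values of `ψ`
  have hval : (T.image fun u => ψ (P u)).card ≤ K1 := by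
    apply hK1 (Real.sqrt L / 2) (by positivity)
    · intro x hx
      rw [mem_image] at hx
      obtain ⟨u, hu, rfl⟩ := hx
      obtain ⟨N, hN, heq, -, h, hPu⟩ := hP u hu
      have huU := hTU u hu
      have h1 := (abs_sub_le_iff.1 (hψ (P u))).1
      have hN1 : (1 : ℝ) ≤ |(N : ℝ)| := by exact_mod_cast Int.one_le_abs hN
      have h2 : Height.logHeight (P u).xRep ≤ Real.log (12 * U ^ 3) := by
        rw [hPu, Affine.Point.xRep_some]
        have e1 : (-2 * ((u : ℚ) ^ 2 + 4 * u * w + w ^ 2) / N ^ 2) =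
            ((-2 * (u ^ 2 + 4 * u * w + w ^ 2) : ℤ) : ℚ) / ((N ^ 2 : ℤ) : ℚ) := by push_cast; ring
        rw [e1]
        apply ht_le (pow_ne_zero _ hN)
        · push_cast
          have h3 : |-2 * ((u : ℝ) ^ 2 + 4 * u * w + w ^ 2)| ≤ 12 * U ^ 2 := by
            rw [abs_mul]
            have a1 : |(u : ℝ) ^ 2 + 4 * u * w + w ^ 2| ≤ |(u : ℝ)| ^ 2 + 4 * (|(u : ℝ)| * |(w : ℝ)|)
                + |(w : ℝ)| ^ 2 := by
              refine (abs_add_le _ _).trans (add_le_add ((abs_add_le _ _).trans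
                (add_le_add ?_ ?_)) ?_)
              · rw [abs_pow]
              · rw [abs_mul, abs_mul, abs_of_pos (by norm_num : (0 : ℝ) < 4), mul_assoc]
              · rw [abs_pow]
            have a2 : |(u : ℝ)| ^ 2 ≤ U ^ 2 := pow_le_pow_left₀ (abs_nonneg _) huU 2
            have a3 : |(w : ℝ)| ^ 2 ≤ U ^ 2 := pow_le_pow_left₀ (abs_nonneg _) hwU 2
            have a4 : |(u : ℝ)| * |(w : ℝ)| ≤ U * U :=
              mul_le_mul huU hwU (abs_nonneg _) (by linarith)
            have a5 : |(-2 : ℝ)| = 2 := by norm_num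
            rw [a5]
            nlinarith
          have h4 : U ^ 2 ≤ U ^ 3 := pow_le_pow_right₀ hU1 (by norm_num)
          linarith
        · push_cast
          rw [abs_pow]
          have h3 : |(N : ℝ)| ^ 2 ≤ |(N : ℝ)| ^ 3 := pow_le_pow_right₀ hN1 (by norm_num)
          have h4 : |(δ : ℝ)| * |(N : ℝ)| ^ 3 = |(u : ℝ) + w| * |(u : ℝ) ^ 2 + w ^ 2| := by
            rw [← abs_pow, ← abs_mul, ← abs_mul]
            congr 1
            exact_mod_cast heq.symm
          have h5 : (1 : ℝ) ≤ |(δ : ℝ)| := by exact_mod_cast Int.one_le_abs hδ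
          have h6 : |(u : ℝ) + w| ≤ 2 * U := (abs_add_le _ _).trans (by linarith)
          have h7 : |(u : ℝ) ^ 2 + w ^ 2| ≤ 2 * U ^ 2 := by
            refine (abs_add_le _ _).trans ?_
            rw [abs_pow, abs_pow]
            have a2 : |(u : ℝ)| ^ 2 ≤ U ^ 2 := pow_le_pow_left₀ (abs_nonneg _) huU 2
            have a3 : |(w : ℝ)| ^ 2 ≤ U ^ 2 := pow_le_pow_left₀ (abs_nonneg _) hwU 2
            linarith
          have h8 : |(u : ℝ) + w| * |(u : ℝ) ^ 2 + w ^ 2| ≤ 2 * U * (2 * U ^ 2) :=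
            mul_le_mul h6 h7 (abs_nonneg _) (by linarith)
          have h9 : |(N : ℝ)| ^ 3 ≤ |(δ : ℝ)| * |(N : ℝ)| ^ 3 :=
            le_mul_of_one_le_left (by positivity) h5
          have h10 : 0 ≤ U ^ 3 := by positivity
          nlinarith
      have h3 : Real.log (12 * U ^ 3) ≤ Real.log 96 + 30 * L := by
        have h4 : 12 * U ^ 3 ≤ 96 * (m : ℝ) ^ 30 := by
          have h5 : U ^ 3 ≤ (2 * (m : ℝ) ^ 10) ^ 3 := pow_le_pow_left₀ (by linarith) hU 3
          nlinarith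
        have h5 := Real.log_le_log (by positivity) h4
        have h6 : Real.log (96 * (m : ℝ) ^ 30) = Real.log 96 + 30 * L := by
          rw [Real.log_mul (by norm_num) (by positivity), Real.log_pow]
          norm_num [hL]
        rwa [h6] at h5
      have h4 : ‖ψ (P u)‖ ^ 2 ≤ (12 * (Real.sqrt L / 2)) ^ 2 := by
        have h5 : (12 * (Real.sqrt L / 2)) ^ 2 = 36 * L := by
          have := Real.sq_sqrt hLpos.le
          linear_combination 36 * this
        rw [h5]
        linarith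
      exact (pow_le_pow_iff_left₀ (norm_nonneg _) (by positivity) (by norm_num)).1 h4
    · intro x hx y hy hxy
      rw [mem_image] at hx hy
      obtain ⟨u1, hu1, rfl⟩ := hx
      obtain ⟨u2, hu2, rfl⟩ := hy
      obtain ⟨N1, -, -, hk1, -⟩ := hP u1 hu1
      obtain ⟨N2, -, -, hk2, -⟩ := hP u2 hu2
      set D := (2 : ℕ) • P u1 - (2 : ℕ) • P u2 with hD
      have hψD : ψ D = (2 : ℝ) • (ψ (P u1) - ψ (P u2)) := by
        rw [hD, map_sub, map_nsmul, map_nsmul, two_nsmul, two_nsmul, two_smul]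
        abel
      have hD0 : D ≠ 0 := by
        intro h0
        rw [h0, map_zero] at hψD
        have h1 := smul_eq_zero.1 hψD.symm
        rcases h1 with h1 | h1
        · norm_num at h1
        · exact hxy (sub_eq_zero.1 h1)
      have h1 := ht_ge hmpos' hD0 (fun p hp hpm => hK _ hb p _ hp (by
        rintro rfl
        exact hm2 hpm) (hp.factorization_pos_of_dvd hmpos'.ne' hpm) _ _
        (hk1 p hp hpm) (hk2 p hp hpm))
      have h2 := (abs_sub_le_iff.1 (hψ D)).2
      rw [hψD, norm_smul] at h2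
      have h3 : ‖(2 : ℝ)‖ = 2 := by norm_num
      rw [h3] at h2
      have h4 : (Real.sqrt L / 2) ^ 2 ≤ ‖ψ (P u1) - ψ (P u2)‖ ^ 2 := by
        have h5 : (Real.sqrt L / 2) ^ 2 = L / 4 := by
          have := Real.sq_sqrt hLpos.le
          linear_combination this / 4
        rw [h5]
        nlinarith
      exact (pow_le_pow_iff_left₀ (by positivity) (norm_nonneg _) (by norm_num)).1 h4
  -- the fibres
  have hfib : ∀ θ ∈ T.image (fun u => ψ (P u)), (T.filter fun u => ψ (P u) = θ).card ≤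
      3 * S.card := by
    intro θ hθ
    rw [mem_image] at hθ
    obtain ⟨u0, hu0, rfl⟩ := hθ
    set F := T.filter fun u => ψ (P u) = ψ (P u0) with hF
    have h1 : F.card ≤ 3 * (F.image fun u => P u - P u0).card := by
      apply card_le_mul_card_image
      intro R hR
      rw [mem_image] at hR
      obtain ⟨u1, hu1, rfl⟩ := hR
      rw [hF, mem_filter] at hu1
      obtain ⟨N1, hN1, heq1, -, hns1, hPu1⟩ := hP u1 hu1.1
      apply card_root hδ hw (2 * ((u1 : ℚ) - w) * (5 * u1 ^ 2 + 8 * u1 * w + 5 * w ^ 2) / N1 ^ 3)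
      intro u hu
      rw [mem_filter, hF, mem_filter] at hu
      obtain ⟨⟨hu, -⟩, hu'⟩ := hu
      have hPP : P u = P u1 := sub_left_injective hu'
      obtain ⟨N, hN, heq, -, hns, hPu⟩ := hP u hu
      rw [hPu1, hPu, Affine.Point.some.injEq] at hPP
      rw [← hPP.2]
      have hNQ : (N : ℚ) ≠ 0 := by exact_mod_cast hN
      have heqQ : ((u : ℚ) + w) * ((u : ℚ) ^ 2 + w ^ 2) = δ * (N : ℚ) ^ 3 := by exact_mod_cast heq
      rw [heqQ]
      field_simp
    refine h1.trans (Nat.mul_le_mul_left _ (card_le_card ?_))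
    intro R hR
    rw [mem_image] at hR
    obtain ⟨u1, hu1, rfl⟩ := hR
    rw [hF, mem_filter] at hu1
    rw [hS, Set.Finite.mem_toFinset]
    simp only [Set.mem_ofPred_eq]
    have h2 := (abs_sub_le_iff.1 (hψ (P u1 - P u0))).2
    rw [map_sub, hu1.2, sub_self, norm_zero] at h2
    linarith
  calc T.card ≤ 3 * S.card * (T.image fun u => ψ (P u)).card :=
        card_le_mul_card_image T _ hfib
    _ ≤ 3 * S.card * K1 := Nat.mul_le_mul_left _ hval

end Pool.Agent.T6.H62.PP
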