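import Pool.Agent.T6.H62.PP.Cnt
import Pool.Agent.T6.H62.PP.LatA

/-!
# Periodic points of `x ^ 4 + c`
-/

set_option autoImplicit false

namespace Pool.Agent.T6.H62.PP

open Finset Pool.Agent.T6.H62.UB

theorem psi4 (u w : ℤ) : Psi 4 u w = (u + w) * (u ^ 2 + w ^ 2) := by
  unfold Psi
  simp only [sum_range_succ, range_zero, sum_empty]
  norm_num
  ring

section

variable {v : ℕ} {b : ℤ} {O : Finset ℤ} {φ : ℤ → ℤ}

theorem vcube {p : ℕ} (hp : p.Prime) {δ N : ℤ} (hN : N ≠ 0) (hδ : ¬ (p : ℤ) ∣ δ) :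
    padicValInt p (δ * N ^ 3) = 3 * padicValInt p N := by
  have := Fact.mk hp
  have hδ0 : δ ≠ 0 := by rintro rfl; exact hδ (dvd_zero _)
  rw [padicValInt.mul hδ0 (pow_ne_zero _ hN), padicValInt.eq_zero_of_not_dvd hδ, zero_add,
    pow_succ, pow_two, padicValInt.mul (mul_ne_zero hN hN) hN, padicValInt.mul hN hN]
  ring

theorem not_dvd_four {p : ℕ} (hp : p.Prime) (hp2 : p ≠ 2) : ¬ p ∣ 4 := by
  intro h
  have h2 : p ∣ 2 ^ 2 := by norm_num; exact h
  exact hp2 ((Nat.prime_dvd_prime_iff_eq hp Nat.prime_two).1 (hp.dvd_of_dvd_pow h2))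

/-- the cube root -/
theorem pair_cube (h : Sys 4 1 b (v ^ (4 - 1)) O φ) (hv : 2 ≤ v) {u w : ℤ} (hu : u ∈ O)
    (hw : w ∈ O) (pu : Per φ u) (pw : Per φ w) (hne : u ≠ w)
    (h4 : ¬ 2 ∣ v ∨ (4 : ℤ) ∣ u - w) :
    ∃ N : ℤ, N ≠ 0 ∧ (u + w) * (u ^ 2 + w ^ 2) = (if 2 ∣ v then 4 else 1) * N ^ 3 := by
  have hF := F3'_of_per h (by norm_num) (by norm_num) hv hu hw pu pw hne
  obtain ⟨-, hpow, hq⟩ := hF
  have hψ0 := psi_ne_zero hpow
  by_cases h2 : 2 ∣ v
  · rw [if_pos h2]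
    have h4' : (4 : ℤ) ∣ u - w := by
      rcases h4 with h5 | h5
      · exact absurd h2 h5
      · exact h5
    have hwodd : ¬ (2 : ℤ) ∣ w := by
      have := not_dvd_of_mem h (by norm_num) Nat.prime_two h2 hw
      exact_mod_cast this
    obtain ⟨k, hk⟩ := h4'
    have huk : u = w + 4 * k := by linarith
    set n : ℤ := (w + 2 * k) * (w ^ 2 + 4 * k * w + 8 * k ^ 2) with hn
    have hψn : Psi 4 u w = 4 * n := by
      rw [psi4, huk, hn]; ring
    have hn0 : n ≠ 0 := by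
      intro h0
      rw [hψn, h0, mul_zero] at hψ0
      exact hψ0 rfl
    have hnodd : ¬ (2 : ℤ) ∣ n := by
      intro hdv
      have h2p : Prime (2 : ℤ) := Int.prime_two
      rcases h2p.dvd_or_dvd hdv with h5 | h5
      · exact hwodd (by omega)
      · have h6 : (2 : ℤ) ∣ w ^ 2 := by
          have h7 : w ^ 2 = (w ^ 2 + 4 * k * w + 8 * k ^ 2) - 2 * (2 * k * w + 4 * k ^ 2) := by ring
          rw [h7]
          exact dvd_sub h5 (dvd_mul_right _ _)
        exact hwodd (h2p.dvd_of_dvd_pow h6)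
    obtain ⟨N, hN, hN3⟩ := exists_cube hn0 (by
      intro q hqp
      have := Fact.mk hqp
      by_cases hq2 : q = 2
      · subst hq2
        rw [padicValInt.eq_zero_of_not_dvd (by exact_mod_cast hnodd)]
        exact dvd_zero _
      · have h5 := (hq q hqp (not_dvd_four hqp hq2)).2
        rw [hψn, padicValInt.mul (by norm_num) hn0, padicValInt.eq_zero_of_not_dvd (by
          have := not_dvd_four hqp hq2
          exact_mod_cast this), zero_add] at h5
        exact h5)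
    exact ⟨N, hN, by rw [← psi4, hψn, hN3]⟩
  · rw [if_neg h2]
    obtain ⟨N, hN, hN3⟩ := exists_cube hψ0 (by
      intro q hqp
      by_cases hq2 : q = 2
      · subst hq2
        rw [padicValInt.eq_zero_of_not_dvd
          (not_dvd_psi_of_per h (by omega) hu hw pu pw hne Nat.prime_two h2)]
        exact dvd_zero _
      · exact (hq q hqp (not_dvd_four hqp hq2)).2)
    exact ⟨N, hN, by rw [← psi4, hN3, one_mul]⟩

/-- divisibility by the odd primes of `v` -/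
theorem pair_dvd (h : Sys 4 1 b (v ^ (4 - 1)) O φ) (hv : 2 ≤ v) {u w : ℤ} (hu : u ∈ O)
    (hw : w ∈ O) (pu : Per φ u) (pw : Per φ w) (hne : u ≠ w) {δ N : ℤ}
    (heq : (u + w) * (u ^ 2 + w ^ 2) = δ * N ^ 3) {p : ℕ} (hp : p.Prime) (hp2 : p ≠ 2)
    (hpv : p ∣ v) (hpδ : ¬ (p : ℤ) ∣ δ) (hN : N ≠ 0) :
    (p : ℤ) ^ (v.factorization p) ∣ N ∨ (p : ℤ) ^ (3 * v.factorization p) ∣ u - w := by
  have := Fact.mk hp
  have hv0 : 0 < v := by omega
  have hn := per_NM pu pw hne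
  have hpow := NM.pow_ne h hv0 hu hw hn
  have h1 := val_mul hp hpow
  rw [val_step h hp hv0 hu hw hn.step.ne] at h1
  by_cases hdv : (p : ℤ) ∣ u - w
  · right
    rw [padicValInt.eq_zero_of_not_dvd (not_dvd_psi hp (not_dvd_four hp hp2) hdv
      (not_dvd_of_mem h (by norm_num) hp hpv hw))] at h1
    rw [padicValInt_dvd_iff]
    right
    omega
  · left
    rw [padicValInt.eq_zero_of_not_dvd hdv, psi4, heq, vcube hp hN hpδ] at h1
    rw [padicValInt_dvd_iff]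
    right
    omega

/-- The points of one class. -/
theorem cls_bound {δ : ℤ} (hδ : ∀ p : ℕ, p.Prime → p ≠ 2 → ¬ (p : ℤ) ∣ δ) {K M0 : ℕ}
    (hlat : ∀ m : ℕ, M0 ≤ m → ¬ 2 ∣ m → ∀ (w : ℤ) (T : Finset ℤ) (U : ℝ), w ≠ 0 →
      |(w : ℝ)| ≤ U → (∀ u ∈ T, |(u : ℝ)| ≤ U) → U ≤ 2 * (m : ℝ) ^ 10 →
      (∀ p : ℕ, p.Prime → p ∣ m → ¬ (p : ℤ) ∣ δ ∧ ¬ (p : ℤ) ∣ w) →
      (∀ u ∈ T, ∃ N : ℤ, N ≠ 0 ∧ (u + w) * (u ^ 2 + w ^ 2) = δ * N ^ 3 ∧
        ∀ p : ℕ, p.Prime → p ∣ m → ¬ (p : ℤ) ∣ u ∧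
          ((p : ℤ) ^ (m.factorization p) ∣ N ∨ (p : ℤ) ^ (3 * m.factorization p) ∣ u - w)) →
      T.card ≤ K)
    (h : Sys 4 1 b (v ^ (4 - 1)) O φ) (hv : 2 ≤ v) (hδv : δ = if 2 ∣ v then 4 else 1)
    {a m : ℕ} (hm2 : ¬ 2 ∣ m) (hvm : v = 2 ^ a * m) (hM : M0 ≤ m) (ham : 2 ^ a ≤ m)
    (hb : |(b : ℝ)| ≤ (v : ℝ) ^ 5) {w : ℤ} (hw : w ∈ O) (pw : Per φ w) (T : Finset ℤ)
    (hT : ∀ u ∈ T, u ∈ O ∧ Per φ u ∧ u ≠ w ∧ (¬ 2 ∣ v ∨ (4 : ℤ) ∣ u - w)) : T.card ≤ K := by
  have hm0 : 0 < m := by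
    rcases Nat.eq_zero_or_pos m with h0 | h0
    · rw [h0] at hm2; exact absurd (dvd_zero 2) hm2
    · exact h0
  have hmv : m ∣ v := ⟨2 ^ a, by rw [hvm]; ring⟩
  have hfac : ∀ p : ℕ, p.Prime → p ≠ 2 → v.factorization p = m.factorization p := by
    intro p hp hp2
    rw [hvm, Nat.factorization_mul (by positivity) hm0.ne', Nat.factorization_pow]
    simp only [Finsupp.coe_add, Finsupp.coe_smul, Pi.add_apply, Pi.smul_apply, smul_eq_mul]
    rw [Nat.factorization_eq_zero_of_not_dvd (n := 2) (p := p) (fun h1 =>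
      hp2 ((Nat.prime_dvd_prime_iff_eq hp Nat.prime_two).1 h1)), mul_zero, zero_add]
  have hp2 : ∀ p : ℕ, p ∣ m → p ≠ 2 := by
    rintro p hpm rfl
    exact hm2 hpm
  have hvR : (v : ℝ) ≤ (m : ℝ) ^ 2 := by
    have h1 : v ≤ m ^ 2 := by rw [hvm, pow_two]; exact Nat.mul_le_mul_right _ ham
    exact_mod_cast h1
  have hv1 : (1 : ℝ) ≤ v := by
    have : 1 ≤ v := by omega
    exact_mod_cast this
  have hbound : ∀ u ∈ O, |(u : ℝ)| ≤ 2 * (v : ℝ) ^ 5 := by
    intro u hu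
    have h1 := h.abs_le (by norm_num) (by decide) one_ne_zero (by positivity) hu
    have h2 : |(u : ℝ)| ≤ (v : ℝ) ^ 3 + |(b : ℝ)| := by
      have h3 : ((|u| : ℤ) : ℝ) ≤ (((v ^ (4 - 1) : ℕ) : ℤ) + |b| : ℤ) := by exact_mod_cast h1
      push_cast at h3
      exact h3
    have h3 : (v : ℝ) ^ 3 ≤ (v : ℝ) ^ 5 := pow_le_pow_right₀ hv1 (by norm_num)
    linarith
  have hU : 2 * (v : ℝ) ^ 5 ≤ 2 * (m : ℝ) ^ 10 := by
    have h1 : (v : ℝ) ^ 5 ≤ ((m : ℝ) ^ 2) ^ 5 := pow_le_pow_left₀ (by linarith) hvR 5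
    have h2 : ((m : ℝ) ^ 2) ^ 5 = (m : ℝ) ^ 10 := by ring
    linarith
  apply hlat m hM hm2 w T (2 * (v : ℝ) ^ 5) (ne_zero_of_mem h (by norm_num) hv hw) (hbound w hw)
    (fun u hu => hbound u (hT u hu).1) hU
  · intro p hp hpm
    exact ⟨hδ p hp (hp2 p hpm), not_dvd_of_mem h (by norm_num) hp (hpm.trans hmv) hw⟩
  · intro u hu
    obtain ⟨huO, pu, hne, h4⟩ := hT u hu
    obtain ⟨N, hN, heq⟩ := pair_cube h hv huO hw pu pw hne h4
    rw [← hδv] at heq
    refine ⟨N, hN, heq, ?_⟩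
    intro p hp hpm
    refine ⟨not_dvd_of_mem h (by norm_num) hp (hpm.trans hmv) huO, ?_⟩
    have := pair_dvd h hv huO hw pu pw hne heq hp (hp2 p hpm) (hpm.trans hmv)
      (hδ p hp (hp2 p hpm)) hN
    rwa [hfac p hp (hp2 p hpm)] at this

/-- If `v` has a large power of two, or if `b` is large, few split primes. -/
theorem LL_sp_le {a m : ℕ} (hv : 2 ≤ v) (hm2 : ¬ 2 ∣ m) (hvm : v = 2 ^ a * m)
    (hcase : m < 2 ^ a ∨ (v : ℝ) ^ 5 ≤ |(b : ℝ)|) :
    LL (v ^ (4 - 1)) (sp 4 (v ^ (4 - 1))) ≤ 1 * Sys.Gam 4 1 b (v ^ (4 - 1)) := by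
  set V := v ^ (4 - 1) with hV
  have hv0 : 0 < v := by omega
  have hV0 : V ≠ 0 := by positivity
  have hvR : (1 : ℝ) ≤ v := by
    have : 1 ≤ v := by omega
    exact_mod_cast this
  have hm0 : 0 < m := by
    rcases Nat.eq_zero_or_pos m with h0 | h0
    · rw [h0] at hm2; exact absurd (dvd_zero 2) hm2
    · exact h0
  have hsum : LL V (sp 4 V) + LL V (ns 4 V) = Real.log V := by
    rw [← LL_primeFactors hV0]
    unfold LL sp ns
    exact sum_filter_add_sum_filter_not _ _ _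
  have hlogV : Real.log (V : ℝ) = 3 * Real.log v := by
    rw [hV]; push_cast; rw [Real.log_pow]; norm_num
  have hns0 := LL_nonneg V (ns 4 V)
  have hlpp : 0 ≤ Real.log (largestPrimePower V : ℝ) := Real.log_natCast_nonneg _
  have hX0 : (0 : ℝ) ≤ max 0 (Real.log (Sys.XX 4 1 b V)) := le_max_left _ _
  have hGam : Sys.Gam 4 1 b V = LL V (ns 4 V) + Real.log (largestPrimePower V) +
      max 0 (Real.log (Sys.XX 4 1 b V)) := by
    unfold Sys.Gam
    simp
  rw [one_mul, hGam]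
  rcases hcase with hc | hc
  · have ha : a ≠ 0 := by
      rintro rfl
      rw [pow_zero] at hc
      omega
    have h2v : 2 ∣ v := by rw [hvm]; exact Dvd.dvd.mul_right (dvd_pow_self 2 ha) _
    have h2V : 2 ∈ V.primeFactors :=
      Nat.mem_primeFactors.2 ⟨Nat.prime_two, dvd_pow h2v (by norm_num), hV0⟩
    have h2ns : 2 ∈ ns 4 V := by
      unfold ns
      rw [mem_filter]
      exact ⟨h2V, by norm_num⟩
    have hfac : V.factorization 2 = 3 * a := by
      rw [hV, Nat.factorization_pow, hvm, Nat.factorization_mul (by positivity) hm0.ne',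
        Nat.factorization_pow]
      simp only [Finsupp.coe_add, Finsupp.coe_smul, Pi.add_apply, Pi.smul_apply, smul_eq_mul,
        Nat.prime_two.factorization_self]
      rw [Nat.factorization_eq_zero_of_not_dvd hm2]
      omega
    have h1 : (V.factorization 2 : ℝ) * Real.log (2 : ℕ) ≤ LL V (ns 4 V) :=
      single_le_sum (f := fun p : ℕ => (V.factorization p : ℝ) * Real.log p)
        (fun p _ => mul_nonneg (Nat.cast_nonneg _) (Real.log_natCast_nonneg p)) h2ns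
    rw [hfac] at h1
    push_cast at h1
    have h2 : Real.log v = a * Real.log 2 + Real.log m := by
      rw [hvm]; push_cast
      rw [Real.log_mul (by positivity) (by positivity), Real.log_pow]
    have h3 : Real.log m ≤ a * Real.log 2 := by
      rw [← Real.log_pow]
      apply Real.log_le_log (by positivity)
      exact_mod_cast hc.le
    nlinarith
  · have hX : 3 * Real.log v ≤ Real.log (Sys.XX 4 1 b V) := by
      have h1 : (v : ℝ) ^ 3 ≤ Sys.XX 4 1 b V := by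
        unfold Sys.XX
        have hvpos : (0 : ℝ) < v := by linarith
        rw [hV]
        push_cast
        rw [le_div_iff₀ (by positivity)]
        simp only [abs_one, one_mul]
        have h2 : ((v : ℝ) ^ 5) ^ 3 ≤ |(b : ℝ)| ^ 3 := pow_le_pow_left₀ (by positivity) hc 3
        calc (v : ℝ) ^ 3 * ((v : ℝ) ^ (4 - 1)) ^ 4 = ((v : ℝ) ^ 5) ^ 3 := by
              norm_num
              ring
          _ ≤ |(b : ℝ)| ^ 3 := h2
          _ = |(b : ℝ)| ^ (4 - 1) := by norm_num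
      have h2 := Real.log_le_log (by positivity) h1
      rw [Real.log_pow] at h2
      exact_mod_cast h2
    have h3 := le_max_right (0 : ℝ) (Real.log (Sys.XX 4 1 b V))
    linarith

end

theorem per4 (hE : EMBStm) (hK : KERStm) (hPT : PTStm) : PERStm 4 := by
  classical
  obtain ⟨K1, M1, h1⟩ := latA hE hK hPT 1 one_ne_zero
  obtain ⟨K4, M4, h4⟩ := latA hE hK hPT 4 four_ne_zero
  obtain ⟨C, hC, hcore⟩ := core_bound (d := 4) le_rfl (by decide)
  set B1 := ⌈C * (1 * Real.log (1 + 1))⌉₊ with hB1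
  set M0 := max M1 M4 with hM0
  refine ⟨B1 + (4 * M0 ^ 10 + 1) + 2 * (K1 + K4 + 1), ?_⟩
  intro v b O φ h hv
  have hv0 : 0 < v := by omega
  obtain ⟨a, m, hm2, hvm⟩ := Nat.exists_eq_pow_mul_and_not_dvd hv0.ne' 2 (by norm_num)
  have hsub : (perSet φ O).card ≤ O.card := card_le_card (filter_subset _ _)
  by_cases hcase : m < 2 ^ a ∨ (v : ℝ) ^ 5 ≤ |(b : ℝ)|
  · have h5 := hcore 1 b (v ^ (4 - 1)) O φ h one_ne_zero (by positivity) 1 le_rfl
      (LL_sp_le hv hm2 hvm hcase)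
    have h6 : O.card ≤ B1 := Nat.cast_le.1 (h5.trans (Nat.le_ceil _))
    omega
  rw [not_or, not_lt, not_le] at hcase
  obtain ⟨ham, hb⟩ := hcase
  rcases Nat.lt_or_ge m M0 with hm | hm
  · -- bounded `c`
    have hvm2 : v ≤ M0 ^ 2 := by
      rw [hvm, pow_two]
      exact Nat.mul_le_mul (ham.trans hm.le) hm.le
    have hbn : b.natAbs < v ^ 5 := by
      have e1 : ((b.natAbs : ℕ) : ℝ) = |(b : ℝ)| := by rw [Nat.cast_natAbs, Int.cast_abs]
      rw [← e1] at hb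
      exact_mod_cast hb
    have h6 : O ⊆ Icc (-(((v ^ (4 - 1) : ℕ) : ℤ) + |b|)) (((v ^ (4 - 1) : ℕ) : ℤ) + |b|) := by
      intro u hu
      rw [mem_Icc]
      exact _root_.abs_le.1 (h.abs_le le_rfl (by decide) one_ne_zero (by positivity) hu)
    have h7 := card_le_card h6
    rw [Int.card_Icc] at h7
    have h8 : v ^ (4 - 1) ≤ v ^ 5 := Nat.pow_le_pow_right hv0 (by norm_num)
    have h9 : v ^ 5 ≤ M0 ^ 10 := by
      calc v ^ 5 ≤ (M0 ^ 2) ^ 5 := Nat.pow_le_pow_left hvm2 5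
        _ = M0 ^ 10 := by ring
    have h10 : |b| = (b.natAbs : ℤ) := (Int.natCast_natAbs b).symm
    rw [h10] at h7
    generalize v ^ (4 - 1) = V3 at *
    generalize v ^ 5 = V5 at *
    generalize M0 ^ 10 = M10 at *
    omega
  -- the main case
  have hcls : ∀ w ∈ perSet φ O,
      ((perSet φ O).filter (fun u => ¬ 2 ∣ v ∨ (4 : ℤ) ∣ u - w)).card ≤ K1 + K4 + 1 := by
    intro w hw
    rw [perSet, mem_filter] at hw
    set T := (perSet φ O).filter (fun u => u ≠ w ∧ (¬ 2 ∣ v ∨ (4 : ℤ) ∣ u - w)) with hT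
    have hTT : ∀ u ∈ T, u ∈ O ∧ Per φ u ∧ u ≠ w ∧ (¬ 2 ∣ v ∨ (4 : ℤ) ∣ u - w) := by
      intro u hu
      rw [hT, mem_filter, perSet, mem_filter] at hu
      exact ⟨hu.1.1, hu.1.2, hu.2.1, hu.2.2⟩
    have hTc : T.card ≤ K1 + K4 := by
      by_cases h2 : 2 ∣ v
      · have := cls_bound (δ := 4) (fun p hp hp2 => by
          have := not_dvd_four hp hp2
          exact_mod_cast this) h4 h hv (by rw [if_pos h2]) hm2 hvm
          ((le_max_right _ _).trans hm) ham hb.le hw.1 hw.2 T hTT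
        omega
      · have := cls_bound (δ := 1) (fun p hp hp2 => by
          intro h5
          have h6 : p ∣ 1 := by exact_mod_cast h5
          exact hp.one_lt.ne' (Nat.dvd_one.1 h6)) h1 h hv (by rw [if_neg h2]) hm2 hvm
          ((le_max_left _ _).trans hm) ham hb.le hw.1 hw.2 T hTT
        omega
    have hsub : (perSet φ O).filter (fun u => ¬ 2 ∣ v ∨ (4 : ℤ) ∣ u - w) ⊆ insert w T := by
      intro u hu
      rw [mem_filter] at hu
      rw [mem_insert, hT, mem_filter]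
      by_cases huw : u = w
      · exact Or.inl huw
      · exact Or.inr ⟨hu.1, huw, hu.2⟩
    have h5 := card_le_card hsub
    have h6 := card_insert_le w T
    omega
  rcases (perSet φ O).eq_empty_or_nonempty with he | ⟨w, hw⟩
  · rw [he, card_empty]; omega
  by_cases hall : ∀ u ∈ perSet φ O, ¬ 2 ∣ v ∨ (4 : ℤ) ∣ u - w
  · have h5 := hcls w hw
    rw [filter_true_of_mem hall] at h5
    omega
  · push Not at hall
    obtain ⟨w', hw', h2v, hww⟩ := hall
    have hodd : ∀ u ∈ perSet φ O, ¬ (2 : ℤ) ∣ u := by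
      intro u hu
      rw [perSet, mem_filter] at hu
      have := not_dvd_of_mem h (by norm_num) Nat.prime_two h2v hu.1
      exact_mod_cast this
    have hsub2 : perSet φ O ⊆ (perSet φ O).filter (fun u => ¬ 2 ∣ v ∨ (4 : ℤ) ∣ u - w) ∪
        (perSet φ O).filter (fun u => ¬ 2 ∣ v ∨ (4 : ℤ) ∣ u - w') := by
      intro u hu
      have o1 := hodd u hu
      have o2 := hodd w hw
      have o3 := hodd w' hw'
      rw [mem_union, mem_filter, mem_filter]
      by_cases h5 : (4 : ℤ) ∣ u - w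
      · exact Or.inl ⟨hu, Or.inr h5⟩
      · right
        exact ⟨hu, Or.inr (by omega)⟩
    have h5 := card_le_card hsub2
    have h6 := card_union_le ((perSet φ O).filter (fun u => ¬ 2 ∣ v ∨ (4 : ℤ) ∣ u - w))
        ((perSet φ O).filter (fun u => ¬ 2 ∣ v ∨ (4 : ℤ) ∣ u - w'))
    have h7 := hcls w hw
    have h8 := hcls w' hw'
    omega

end Pool.Agent.T6.H62.PP
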