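import Pool.Agent.T6.H62.PP.TailG
import Pool.Agent.T6.H62.PP.Per4

/-!
# Uniform bound for `(A x ^ d + b) / v ^ 3`, and for `x ^ d + c` with `d ≡ 4 mod 6`
-/

set_option autoImplicit false

namespace Pool.Agent.T6.H62.PP.G

open Finset Pool.Agent.T6.H62.UB

theorem per4G (hE : EMBStm) (hK : KERStm) (hPT : PTStm) : PERStm 4 := per4 hE hK hPT

theorem main_sys {d : ℕ} (hde : Even d) (hd : 4 ≤ d) (hP : PERStm d) (hF : FINStm) :
    ∃ B : ℕ, ∀ (A b : ℤ) (v : ℕ) (O : Finset ℤ) (φ : ℤ → ℤ), Sys d A b (v ^ 3) O φ → A ≠ 0 →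
      0 < v → (∀ u ∈ O, ∃ m n : ℕ, m < n ∧ φ^[m] u = φ^[n] u) → O.card ≤ B := by
  classical
  obtain ⟨BP, hBP⟩ := hP
  obtain ⟨BT, hBT⟩ := tailG hF hde hd
  set F := (hF d hde hd).toFinset with hFdef
  obtain ⟨C, hC, hcore⟩ := core_bound hd hde
  set B1 := ⌈C * (1 * Real.log (1 + 1))⌉₊ with hB1
  have hFmem : ∀ X U : ℤ, F3 d X U → (X : ℚ) / (U : ℚ) ∈ F := by
    intro X U hXU
    rw [hFdef, Set.Finite.mem_toFinset]
    exact ⟨X, U, hXU, rfl⟩
  refine ⟨(2 + F.card) * BP + B1 + (2 * BT + 1) + 2, ?_⟩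
  intro A b v O φ h hA hv hev
  rcases Nat.lt_or_ge v 2 with hv2 | hv2
  · -- integral
    have hv1 : v = 1 := by omega
    subst hv1
    have h1 := hcore A b (1 ^ 3) O φ h hA (by norm_num) 1 le_rfl (by
      rw [one_pow]
      have e1 : LL 1 (sp d 1) = 0 := by simp [LL, sp]
      rw [e1, one_mul]
      have := LL_nonneg 1 (ns d 1)
      unfold Sys.Gam
      have h2 : 0 ≤ Real.log (largestPrimePower 1 : ℝ) := Real.log_natCast_nonneg _
      have h4 : (0 : ℝ) ≤ max 0 (Real.log (Sys.XX d A b 1)) := le_max_left _ _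
      have h5 : 0 ≤ Real.log |(A : ℝ)| := Real.log_nonneg (by exact_mod_cast Int.one_le_abs hA)
      positivity)
    have h2 : O.card ≤ B1 := Nat.cast_le.1 (h1.trans (Nat.le_ceil _))
    omega
  -- the case `A = 1`
  have hone : ∀ (b : ℤ) (O : Finset ℤ) (φ : ℤ → ℤ), Sys d 1 b (v ^ 3) O φ →
      (∀ u ∈ O, ∃ m n : ℕ, m < n ∧ φ^[m] u = φ^[n] u) → 2 ≤ (perSet φ O).card →
      O.card ≤ (2 + F.card) * BP := by
    intro b O φ h hev hP2
    exact (card_le_two h hde hd hv2 hev hFmem hP2).trans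
      (Nat.mul_le_mul_left _ (hBP v b O φ h hv2))
  by_cases hP1 : (perSet φ O).card ≤ 1
  · rcases tail_one h hA hde (by omega) hev hP1 with ⟨z, x, hz, hx, hfz, hfx⟩ | h1
    · have hz0 : z ≠ 0 := by
        rintro rfl
        obtain ⟨p, hp, hpv⟩ := Nat.exists_prime_and_dvd (show v ≠ 1 by omega)
        exact h.not_dvd (by omega) hp (dvd_pow hpv (by norm_num)) hz (dvd_zero _)
      have h1 := hBT A b z x v hA hv h.copA h.copB hz0
        (by have := h.eqn z hz; rwa [hfz] at this)
        (by have := h.eqn x hx; rwa [hfx] at this)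
      have h6 : O ⊆ Icc (-(((v ^ 3 : ℕ) : ℤ) + |b|)) (((v ^ 3 : ℕ) : ℤ) + |b|) := by
        intro u hu
        rw [mem_Icc]
        exact _root_.abs_le.1 (h.abs_le hd hde hA (by positivity) hu)
      have h7 := card_le_card h6
      rw [Int.card_Icc] at h7
      have h10 : |b| = (b.natAbs : ℤ) := (Int.natCast_natAbs b).symm
      rw [h10] at h7
      generalize v ^ 3 = V3 at *
      have h12 : O.card ≤ 2 * BT + 1 := by omega
      omega
    · omega
  · obtain ⟨y1, hy1, y2, hy2, hne⟩ := one_lt_card.1 (show 1 < (perSet φ O).card by omega)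
    obtain ⟨hy1O, py1⟩ := mem_perSet.1 hy1
    obtain ⟨hy2O, py2⟩ := mem_perSet.1 hy2
    rcases unit_of_per h hy1O hy2O py1 py2 hne with hA1 | hA1
    · subst hA1
      have := hone b O φ h hev (by omega)
      omega
    · subst hA1
      have hs := neg_sys h hde
      rw [neg_neg] at hs
      have hcard : (O.image fun u : ℤ => -u).card = O.card :=
        card_image_of_injective _ neg_injective
      have hPn : (perSet φ O).image (fun u : ℤ => -u) ⊆
          perSet (fun u => -φ (-u)) (O.image fun u => -u) := by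
        intro u hu
        obtain ⟨w, hw, rfl⟩ := mem_image.1 hu
        obtain ⟨hwO, n, hn, hnw⟩ := mem_perSet.1 hw
        rw [mem_perSet]
        refine ⟨mem_image_of_mem _ hwO, n, hn, ?_⟩
        rw [neg_iter, hnw]
      have h2 := card_le_card hPn
      rw [card_image_of_injective _ neg_injective] at h2
      have := hone (-b) (O.image fun u => -u) (fun u => -φ (-u)) hs (by
        intro u hu
        obtain ⟨w, hw, rfl⟩ := mem_image.1 hu
        obtain ⟨m, n, hmn, he⟩ := hev w hw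
        exact ⟨m, n, hmn, by rw [neg_iter, neg_iter, he]⟩) (by omega)
      rw [hcard] at this
      omega

/-- rational preperiodic points of `(A x ^ d + b) / v ^ 3`, for `(d - 1)`-th power free `A` -/
theorem main_free {d : ℕ} (hde : Even d) (hd : 4 ≤ d) (hP : PERStm d) (hF : FINStm) :
    ∃ B : ℕ, ∀ (A b : ℤ) (v : ℕ), A ≠ 0 → 0 < v → IsCoprime A (v : ℤ) → IsCoprime b (v : ℤ) →
      ∀ T : Finset ℚ, (∀ x ∈ T, IsPreperiodic (fun x : ℚ => (A * x ^ d + b) / (v : ℚ) ^ 3) x) →
        T.card ≤ B := by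
  classical
  obtain ⟨B, hB⟩ := main_sys hde hd hP hF
  refine ⟨B, ?_⟩
  intro A
  induction hn : A.natAbs using Nat.strong_induction_on generalizing A with
  | _ n ih =>
    intro b v hA hv hAv hbv T hT
    have hvQ : (v : ℚ) ≠ 0 := by exact_mod_cast hv.ne'
    by_cases hfree : ∀ p : ℕ, p.Prime → ¬ (p : ℤ) ^ (d - 1) ∣ A
    · have hAV : IsCoprime A ((v ^ 3 : ℕ) : ℤ) := by push_cast; exact hAv.pow_right
      have hBV : IsCoprime b ((v ^ 3 : ℕ) : ℤ) := by push_cast; exact hbv.pow_right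
      obtain ⟨O, φ, hs, -, hc, hev⟩ := exists_sys (d := d) (by omega) hA
        (show 0 < v ^ 3 by positivity) hAV hBV hfree T (by
          intro x hx
          have := hT x hx
          push_cast
          exact this)
      exact hc.trans (hB A b v O φ hs hA hv hev)
    · push Not at hfree
      obtain ⟨p, hp, A', hA'⟩ := hfree
      have hp0 : (p : ℤ) ≠ 0 := by exact_mod_cast hp.ne_zero
      have hpQ : (p : ℚ) ≠ 0 := by exact_mod_cast hp.ne_zero
      have hA'0 : A' ≠ 0 := by
        rintro rfl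
        rw [mul_zero] at hA'
        exact hA hA'
      have hlt : A'.natAbs < n := by
        rw [← hn, hA', Int.natAbs_mul, Int.natAbs_pow, Int.natAbs_natCast]
        have h1 : 1 < p ^ (d - 1) := Nat.one_lt_pow (by omega) hp.one_lt
        have h2 : 0 < A'.natAbs := Int.natAbs_pos.2 hA'0
        nlinarith
      have hpv : IsCoprime (p : ℤ) (v : ℤ) :=
        hAv.of_isCoprime_of_dvd_left ((dvd_pow_self _ (by omega)).trans ⟨A', hA'⟩)
      have hA'v : IsCoprime A' (v : ℤ) :=
        hAv.of_isCoprime_of_dvd_left ⟨(p : ℤ) ^ (d - 1), by rw [hA']; ring⟩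
      have hconj : ∀ (k : ℕ) (x : ℚ), (fun x : ℚ => ((A' : ℚ) * x ^ d + ((p * b : ℤ) : ℚ)) /
          (v : ℚ) ^ 3)^[k] (p * x) = p * (fun x : ℚ => (A * x ^ d + b) / (v : ℚ) ^ 3)^[k] x := by
        intro k
        induction k with
        | zero => intro x; rfl
        | succ k ih =>
          intro x
          rw [Function.iterate_succ_apply, Function.iterate_succ_apply, ← ih]
          congr 1
          rw [hA']
          obtain ⟨e, rfl⟩ : ∃ e, d = e + 1 := ⟨d - 1, by omega⟩
          simp only [Nat.add_sub_cancel]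
          push_cast
          field_simp
          ring
      have h1 := ih A'.natAbs hlt A' rfl (p * b) v hA'0 hv hA'v (hpv.mul_left hbv)
        (T.image fun x => p * x) (by
          intro y hy
          obtain ⟨x, hx, rfl⟩ := mem_image.1 hy
          obtain ⟨m, n, hmn, heq⟩ := hT x hx
          exact ⟨m, n, hmn, by rw [hconj, hconj, heq]⟩)
      rwa [card_image_of_injective _ (mul_right_injective₀ hpQ)] at h1

/-- rational preperiodic points of `x ^ d + c`, `3 ∣ d - 1` -/
theorem main_c {d : ℕ} (hde : Even d) (hd : 4 ≤ d) (h3 : 3 ∣ d - 1) (hP : PERStm d)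
    (hF : FINStm) :
    ∃ B : ℕ, ∀ (c : ℚ) (T : Finset ℚ),
      (∀ x ∈ T, IsPreperiodic (fun x : ℚ => x ^ d + c) x) → T.card ≤ B := by
  classical
  obtain ⟨B, hB⟩ := main_sys hde hd hP hF
  refine ⟨B, ?_⟩
  intro c T hT
  rcases T.eq_empty_or_nonempty with he | he
  · rw [he, card_empty]; omega
  obtain ⟨v, b, O, φ, hv, hden, hnum, h, hcard, hev⟩ := exists_sys_c (by omega) T he hT
  obtain ⟨k, hk⟩ := h3
  have hV : v ^ (d - 1) = (v ^ k) ^ 3 := by rw [← pow_mul, hk, Nat.mul_comm]
  rw [hV] at h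
  exact hcard.trans (hB 1 b (v ^ k) O φ h one_ne_zero (by positivity) hev)

end Pool.Agent.T6.H62.PP.G
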