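import Pool.Agent.T6.H62.PP.Defs

/-!
Project PP, module TAIL: fixed points `z` such that `-z` has a rational preimage.
-/

set_option autoImplicit false

namespace Pool.Agent.T6.H62.PP

/-- the condition `F3` for the quotient of a preimage of `-z` and `z` -/
theorem tail_F3 {d : ℕ} (hd : Even d) (h4 : 4 ≤ d) (h3 : 3 ∣ d - 1) {z t : ℚ} (hz : z ≠ 0)
    (h : z ^ (d - 1) * (1 - t ^ d) = 2) : F3 d t.num t.den := by
  have ht : t ^ d ≠ 1 := by
    intro h1
    rw [h1] at h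
    norm_num at h
  have hU : (t.den : ℚ) ≠ 0 := by exact_mod_cast t.den_ne_zero
  have hX : (t.num : ℚ) = t * t.den := (Rat.mul_den_eq_num t).symm
  have e1 : ((t.num : ℚ) ^ d - (t.den : ℚ) ^ d) * z ^ (d - 1) = -2 * (t.den : ℚ) ^ d := by
    rw [hX, mul_pow]
    linear_combination (-(t.den : ℚ) ^ d) * h
  have hne : t.num ^ d ≠ (t.den : ℤ) ^ d := by
    intro h1
    apply ht
    have h2 : (t.num : ℚ) ^ d = (t.den : ℚ) ^ d := by exact_mod_cast h1
    rw [hX, mul_pow] at h2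
    exact (mul_eq_right₀ (pow_ne_zero d hU)).1 h2
  refine ⟨by exact_mod_cast t.den_ne_zero, hne, ?_⟩
  intro q hq hqd
  have hco : ¬ ((q : ℤ) ∣ t.num ∧ (q : ℤ) ∣ (t.den : ℤ)) := by
    rintro ⟨a1, a2⟩
    have h1 : q ∣ t.num.natAbs := Int.natCast_dvd.1 a1
    have h2 : q ∣ t.den := by exact_mod_cast a2
    have h5 := Nat.dvd_gcd h1 h2
    rw [Nat.Coprime.gcd_eq_one t.reduced] at h5
    exact hq.one_lt.ne' (Nat.dvd_one.1 h5)
  refine ⟨hco, ?_⟩
  have : Fact q.Prime := ⟨hq⟩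
  have hd0 : d ≠ 0 := by omega
  by_cases hqU : (q : ℤ) ∣ (t.den : ℤ)
  · have hqX : ¬ (q : ℤ) ∣ t.num := fun h1 => hco ⟨h1, hqU⟩
    have h1 : ¬ (q : ℤ) ∣ t.num ^ d - (t.den : ℤ) ^ d := by
      intro h2
      have h5 : (q : ℤ) ∣ (t.den : ℤ) ^ d := dvd_pow hqU hd0
      have h6 : (q : ℤ) ∣ t.num ^ d := (dvd_sub_left h5).1 h2
      exact hqX ((Nat.prime_iff_prime_int.1 hq).dvd_of_dvd_pow h6)
    rw [padicValInt.eq_zero_of_not_dvd h1]
    exact dvd_zero 3
  · have hq2 : q ≠ 2 := by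
      rintro rfl
      exact hqd hd.two_dvd
    have h1 := congrArg (padicValRat q) e1
    have hne' : ((t.num : ℚ) ^ d - (t.den : ℚ) ^ d) ≠ 0 := by
      rw [sub_ne_zero]
      exact_mod_cast hne
    rw [padicValRat.mul hne' (pow_ne_zero _ hz), padicValRat.mul (by norm_num) (pow_ne_zero _ hU),
      padicValRat.pow, padicValRat.pow] at h1
    have v2 : padicValRat q (-2) = 0 := by
      have h5 : padicValRat q (((-2 : ℤ) : ℚ)) = 0 := by
        rw [padicValRat.of_int, padicValInt.eq_zero_of_not_dvd]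
        · rfl
        · intro h6
          have h7 : (q : ℤ) ∣ 2 := (dvd_neg (a := (q : ℤ)) (b := 2)).1 h6
          have h8 : q ∣ 2 := by exact_mod_cast h7
          exact hq2 ((Nat.prime_dvd_prime_iff_eq hq Nat.prime_two).1 h8)
      exact_mod_cast h5
    have vU : padicValRat q (t.den : ℚ) = 0 := by
      have h5 : padicValRat q (((t.den : ℤ) : ℚ)) = 0 := by
        rw [padicValRat.of_int, padicValInt.eq_zero_of_not_dvd hqU]
        rfl
      rwa [Int.cast_natCast] at h5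
    rw [v2, vU] at h1
    have h5 : padicValRat q ((t.num : ℚ) ^ d - (t.den : ℚ) ^ d) =
        (padicValInt q (t.num ^ d - (t.den : ℤ) ^ d) : ℤ) := by
      rw [← padicValRat.of_int]
      push_cast
      rfl
    rw [h5] at h1
    obtain ⟨e, he⟩ := h3
    rw [he] at h1
    have h6 : ((padicValInt q (t.num ^ d - (t.den : ℤ) ^ d) : ℤ)) =
        3 * (-(e * padicValRat q z)) := by
      push_cast at h1
      linear_combination h1
    have h7 : (3 : ℤ) ∣ ((padicValInt q (t.num ^ d - (t.den : ℤ) ^ d) : ℕ) : ℤ) := ⟨_, h6⟩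
    exact_mod_cast h7

/-- **TAIL** -/
theorem tail_of (hF : FINStm) : TAILStm := by
  intro d hd h4 h3
  have hodd : Odd (d - 1) := by
    obtain ⟨e, he⟩ := hd
    exact ⟨e - 1, by omega⟩
  have hz : (⋃ t ∈ {t : ℚ | ∃ X U : ℤ, F3 d X U ∧ t = (X : ℚ) / (U : ℚ)},
      {z : ℚ | z ^ (d - 1) * (1 - t ^ d) = 2}).Finite := by
    refine (hF d hd h4).biUnion fun t _ => Set.Subsingleton.finite ?_
    intro z hz z' hz'
    change z ^ (d - 1) * (1 - t ^ d) = 2 at hz
    change z' ^ (d - 1) * (1 - t ^ d) = 2 at hz'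
    have h1 : (1 - t ^ d) ≠ 0 := by
      intro h1
      rw [h1, mul_zero] at hz
      norm_num at hz
    have h2 : z ^ (d - 1) = z' ^ (d - 1) := mul_right_cancel₀ h1 (hz.trans hz'.symm)
    exact hodd.strictMono_pow.injective h2
  refine (hz.image (fun z => z - z ^ d)).subset ?_
  rintro c ⟨z, x, hz0, h1, h2⟩
  have hd1 : d = (d - 1) + 1 := by omega
  have e1 : z ^ (d - 1) * (1 - (x / z) ^ d) = 2 := by
    have hzd : z ^ d = z ^ (d - 1) * z := by
      conv_lhs => rw [hd1]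
      rw [pow_succ]
    have h5 : x ^ d = z ^ d - 2 * z := by linear_combination h2 - h1
    have hp : z ^ (d - 1) ≠ 0 := pow_ne_zero _ hz0
    rw [div_pow, h5, hzd]
    field_simp
    ring
  refine ⟨z, ?_, by simp only; linear_combination -h1⟩
  rw [Set.mem_iUnion₂]
  exact ⟨x / z, ⟨(x / z).num, (x / z).den, tail_F3 hd h4 h3 hz0 e1, by
    push_cast
    exact (Rat.num_div_den (x / z)).symm⟩, e1⟩

end Pool.Agent.T6.H62.PP
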