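import Pool.Agent.T6.H62.PP.CntG

/-!
# A unique periodic point with a tail: finitely many maps
-/

set_option autoImplicit false

namespace Pool.Agent.T6.H62.PP.G

open Finset Pool.Agent.T6.H62.UB

/-- A fixed point `z` such that `-z` has a preimage. -/
theorem tailG (hF : FINStm) {d : ℕ} (hde : Even d) (hd : 4 ≤ d) : ∃ B : ℕ,
    ∀ (A b z x : ℤ) (v : ℕ), A ≠ 0 → 0 < v → IsCoprime A ((v ^ 3 : ℕ) : ℤ) →
      IsCoprime b ((v ^ 3 : ℕ) : ℤ) → z ≠ 0 → ((v ^ 3 : ℕ) : ℤ) * z = A * z ^ d + b →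
      ((v ^ 3 : ℕ) : ℤ) * (-z) = A * x ^ d + b → v ^ 3 + b.natAbs ≤ B := by
  classical
  set F := (hF d hde hd).toFinset with hFdef
  set N := ∑ r ∈ F, (r.num.natAbs + r.den) with hN
  refine ⟨2 * N ^ d + (2 * N ^ d * (2 * N * N) + 2 * N * (2 * N * N) ^ d), ?_⟩
  intro A b z x v hA hv hAv hbv hz h1 h2
  set V : ℤ := ((v ^ 3 : ℕ) : ℤ) with hV
  have hV0 : V ≠ 0 := by rw [hV]; positivity
  have hzb : z ∣ b := by
    refine ⟨V - A * z ^ (d - 1), ?_⟩
    obtain ⟨e, rfl⟩ : ∃ e, d = e + 1 := ⟨d - 1, by omega⟩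
    simp only [Nat.add_sub_cancel]
    rw [pow_succ] at h1
    linear_combination -h1
  have hzV : IsCoprime z V := hbv.of_isCoprime_of_dvd_left hzb
  have hgpos : 0 < Int.gcd x z := Int.gcd_pos_of_ne_zero_right x hz
  obtain ⟨t, U, htU, hx, hzU⟩ := Int.exists_gcd_one hgpos
  set g : ℤ := (Int.gcd x z : ℤ) with hg
  have hg0 : g ≠ 0 := by rw [hg]; exact_mod_cast hgpos.ne'
  have htU' : IsCoprime t U := Int.isCoprime_iff_gcd_eq_one.2 htU
  have hU0 : U ≠ 0 := by
    rintro rfl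
    rw [zero_mul] at hzU
    exact hz hzU
  have hgz : g ∣ z := ⟨U, by rw [hzU]; ring⟩
  -- divide by `g`
  have e1 : A * g ^ (d - 1) * (t ^ d - U ^ d) = -2 * V * U := by
    apply mul_left_cancel₀ hg0
    obtain ⟨e, rfl⟩ : ∃ e, d = e + 1 := ⟨d - 1, by omega⟩
    simp only [Nat.add_sub_cancel]
    have h3 : A * (x ^ (e + 1) - z ^ (e + 1)) = -2 * V * z := by linear_combination h1 - h2
    rw [hx, hzU, mul_pow, mul_pow] at h3
    linear_combination h3
  have hUcop : IsCoprime U (t ^ d - U ^ d) := by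
    have h3 : IsCoprime U (t ^ d) := (htU'.symm).pow_right
    obtain ⟨e, rfl⟩ : ∃ e, d = e + 1 := ⟨d - 1, by omega⟩
    have h4 : t ^ (e + 1) - U ^ (e + 1) = t ^ (e + 1) + U * (-U ^ e) := by ring
    rw [h4]
    exact h3.add_mul_left_right _
  have hUdvd : U ∣ A * g ^ (d - 1) := by
    apply hUcop.dvd_of_dvd_mul_right
    rw [e1]
    exact dvd_mul_left _ _
  obtain ⟨k, hk⟩ := hUdvd
  have e2 : k * (t ^ d - U ^ d) = -2 * V := by
    apply mul_left_cancel₀ hU0
    rw [hk] at e1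
    linear_combination e1
  have hkV : IsCoprime k V := by
    have h3 : IsCoprime (A * g ^ (d - 1)) V :=
      hAv.mul_left ((hzV.of_isCoprime_of_dvd_left hgz).pow_left)
    exact h3.of_isCoprime_of_dvd_left ⟨U, by rw [hk]; ring⟩
  have hk2 : k ∣ 2 := by
    apply hkV.dvd_of_dvd_mul_right
    exact ⟨-(t ^ d - U ^ d), by linear_combination e2⟩
  have hkabs : k.natAbs ≤ 2 := Nat.le_of_dvd (by norm_num) (Int.natAbs_dvd_natAbs.2 hk2)
  have hk0 : k ≠ 0 := by
    rintro rfl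
    exact absurd (zero_dvd_iff.1 hk2) (by norm_num)
  have hne : t ^ d - U ^ d ≠ 0 := by
    intro h0
    rw [h0, mul_zero] at e2
    exact hV0 (by linarith)
  -- the pair
  have hF3 : F3 d t U := by
    refine ⟨hU0, sub_ne_zero.1 hne, ?_⟩
    intro q hq hqd
    have := Fact.mk hq
    have hqi : Prime (q : ℤ) := Nat.prime_iff_prime_int.1 hq
    have hq2 : ¬ (q : ℤ) ∣ 2 := by
      intro h3
      have h4 : q ∣ 2 := by exact_mod_cast h3
      exact hqd (h4.trans hde.two_dvd)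
    refine ⟨fun h3 => ?_, ?_⟩
    · have h4 := htU'.isUnit_of_dvd' h3.1 h3.2
      exact hqi.not_isUnit h4
    · have h3 : padicValInt q (k * (t ^ d - U ^ d)) = padicValInt q (-2 * V) := by rw [e2]
      rw [padicValInt.mul hk0 hne, padicValInt.eq_zero_of_not_dvd (fun h4 => hq2 (h4.trans hk2)),
        zero_add, padicValInt.mul (by norm_num) hV0,
        padicValInt.eq_zero_of_not_dvd (show ¬ (q : ℤ) ∣ -2 by rwa [dvd_neg]), zero_add, hV,
        padicValInt.of_nat,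
        padicValNat.pow] at h3
      rw [h3]
      exact dvd_mul_right _ _
  have hr : (t : ℚ) / (U : ℚ) ∈ F := by
    rw [hFdef, Set.Finite.mem_toFinset]
    exact ⟨t, U, hF3, rfl⟩
  set r : ℚ := (t : ℚ) / (U : ℚ) with hrdef
  have hrN : r.num.natAbs + r.den ≤ N :=
    single_le_sum (f := fun r : ℚ => r.num.natAbs + r.den) (fun _ _ => Nat.zero_le _) hr
  have e3 : t * (r.den : ℤ) = r.num * U := by
    have hUQ : (U : ℚ) ≠ 0 := by exact_mod_cast hU0
    have hdQ : (r.den : ℚ) ≠ 0 := by exact_mod_cast r.den_pos.ne'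
    have h3 : (r.num : ℚ) / r.den = (t : ℚ) / U := by rw [Rat.num_div_den]
    rw [div_eq_div_iff hdQ hUQ] at h3
    exact_mod_cast h3.symm
  have hUN : U.natAbs ≤ N := by
    have h3 : U ∣ (r.den : ℤ) := htU'.symm.dvd_of_dvd_mul_left ⟨r.num, by rw [e3]; ring⟩
    have h4 := Nat.le_of_dvd (by rw [Int.natAbs_natCast]; exact r.den_pos)
      (Int.natAbs_dvd_natAbs.2 h3)
    rw [Int.natAbs_natCast] at h4
    omega
  have htN : t.natAbs ≤ N := by
    by_cases ht : t = 0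
    · rw [ht]; simp
    · have h3 : t ∣ r.num := htU'.dvd_of_dvd_mul_right ⟨(r.den : ℤ), by rw [e3]⟩
      have h5 : r.num ≠ 0 := by
        intro h0
        rw [h0, zero_mul] at e3
        rcases mul_eq_zero.1 e3 with h6 | h6
        · exact ht h6
        · exact r.den_pos.ne' (by exact_mod_cast h6)
      have h4 := Nat.le_of_dvd (Int.natAbs_pos.2 h5) (Int.natAbs_dvd_natAbs.2 h3)
      omega
  -- the bounds
  have hVN : v ^ 3 ≤ 2 * N ^ d := by
    have h3 : (-2 * V).natAbs = 2 * v ^ 3 := by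
      rw [Int.natAbs_mul, hV, Int.natAbs_natCast]; norm_num
    have h4 : (t ^ d - U ^ d).natAbs ≤ N ^ d + N ^ d := by
      refine (Int.natAbs_sub_le _ _).trans ?_
      rw [Int.natAbs_pow, Int.natAbs_pow]
      exact add_le_add (Nat.pow_le_pow_left htN d) (Nat.pow_le_pow_left hUN d)
    have h5 : 2 * v ^ 3 ≤ 2 * (N ^ d + N ^ d) := by
      rw [← h3, ← e2, Int.natAbs_mul]
      exact Nat.mul_le_mul hkabs h4
    omega
  have hAg : A.natAbs * g.natAbs ^ (d - 1) ≤ 2 * N := by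
    have h3 : (A * g ^ (d - 1)).natAbs = (U * k).natAbs := by rw [hk]
    rw [Int.natAbs_mul, Int.natAbs_mul, Int.natAbs_pow] at h3
    rw [h3, Nat.mul_comm]
    exact Nat.mul_le_mul hkabs hUN
  have hA1 : 1 ≤ A.natAbs := Int.natAbs_pos.2 hA
  have hg1 : 1 ≤ g.natAbs := Int.natAbs_pos.2 hg0
  have hAN : A.natAbs ≤ 2 * N :=
    (Nat.le_mul_of_pos_right _ (Nat.pow_pos hg1)).trans hAg
  have hgN : g.natAbs ≤ 2 * N := by
    refine le_trans ?_ hAg
    calc g.natAbs = g.natAbs ^ 1 := (pow_one _).symm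
      _ ≤ g.natAbs ^ (d - 1) := Nat.pow_le_pow_right hg1 (by omega)
      _ ≤ A.natAbs * g.natAbs ^ (d - 1) := Nat.le_mul_of_pos_left _ hA1
  have hzN : z.natAbs ≤ 2 * N * N := by
    rw [hzU, Int.natAbs_mul, Nat.mul_comm]
    exact Nat.mul_le_mul hgN hUN
  have hbN : b.natAbs ≤ 2 * N ^ d * (2 * N * N) + 2 * N * (2 * N * N) ^ d := by
    have h3 : b = V * z - A * z ^ d := by linear_combination -h1
    rw [h3]
    refine (Int.natAbs_sub_le _ _).trans ?_
    rw [Int.natAbs_mul, Int.natAbs_mul, Int.natAbs_pow, hV, Int.natAbs_natCast]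
    exact add_le_add (Nat.mul_le_mul hVN hzN)
      (Nat.mul_le_mul hAN (Nat.pow_le_pow_left hzN d))
  omega

end Pool.Agent.T6.H62.PP.G
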